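import Mathlib
import Pool.Agent.TH717.SK.Core

/-!
Ideals: the least common multiple of powers; lower bounds for integers divisible by powers.
-/

set_option autoImplicit false

open Finset

namespace Pool.Agent.TH717.ST

open NumberField
open Pool.Agent.TH286.GT.GrowD (sg sg_coe sg_inj)
open Pool.Agent.TH717.SK (kron)

section ded

variable {A : Type*} [CommRing A] [IsDedekindDomain A]

theorem sup_pow (I J : Ideal A) (hI : I ≠ ⊥) (n : ℕ) : (I ⊔ J) ^ n = I ^ n ⊔ J ^ n := by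
  have hg : I ⊔ J ≠ ⊥ := fun h => hI (le_bot_iff.1 (h ▸ le_sup_left))
  obtain ⟨I', hI'⟩ := Ideal.dvd_iff_le.2 (le_sup_left : I ≤ I ⊔ J)
  obtain ⟨J', hJ'⟩ := Ideal.dvd_iff_le.2 (le_sup_right : J ≤ I ⊔ J)
  have h1 : I' ⊔ J' = ⊤ := by
    have h2 : (I ⊔ J) * (I' ⊔ J') = (I ⊔ J) * 1 := by
      rw [Ideal.mul_sup, ← hI', ← hJ', mul_one]
    exact mul_left_cancel₀ hg (h2.trans (by rw [Ideal.one_eq_top]))
  have h3 : I' ^ n ⊔ J' ^ n = ⊤ := Ideal.pow_sup_pow_eq_top h1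
  calc (I ⊔ J) ^ n = (I ⊔ J) ^ n * (I' ^ n ⊔ J' ^ n) := by rw [h3, Ideal.mul_top]
    _ = ((I ⊔ J) * I') ^ n ⊔ ((I ⊔ J) * J') ^ n := by rw [Ideal.mul_sup, mul_pow, mul_pow]
    _ = I ^ n ⊔ J ^ n := by rw [← hI', ← hJ']

theorem inf_pow (I J : Ideal A) (hI : I ≠ ⊥) (n : ℕ) : (I ⊓ J) ^ n = I ^ n ⊓ J ^ n := by
  have hg : I ⊔ J ≠ ⊥ := fun h => hI (le_bot_iff.1 (h ▸ le_sup_left))
  have h1 : (I ⊔ J) ^ n * (I ⊓ J) ^ n = (I ⊔ J) ^ n * (I ^ n ⊓ J ^ n) := by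
    rw [← mul_pow, Ideal.sup_mul_inf, sup_pow I J hI n, Ideal.sup_mul_inf, mul_pow]
  exact mul_left_cancel₀ (pow_ne_zero n hg) h1

theorem finset_inf_pow {σ : Type*} (s : Finset σ) (f : σ → Ideal A) (hf : ∀ i ∈ s, f i ≠ ⊥)
    (n : ℕ) : (s.inf f) ^ n = s.inf (fun i => f i ^ n) := by
  classical
  induction s using Finset.induction_on with
  | empty => simp [← Ideal.one_eq_top]
  | insert a s ha ih =>
    rw [Finset.inf_insert, Finset.inf_insert, inf_pow _ _ (hf a (Finset.mem_insert_self _ _)),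
      ih fun i hi => hf i (Finset.mem_insert_of_mem hi)]

end ded

section nf

variable {K : Type} [Field K] [NumberField K]

/-- the ideal generated by an integer, and its lcm -/
noncomputable def lc {σ : Type*} (s : Finset σ) (β : σ → 𝓞 K) : Ideal (𝓞 K) :=
  s.inf fun i => Ideal.span {β i}

theorem lc_ne {σ : Type*} (s : Finset σ) (β : σ → 𝓞 K) (hβ : ∀ i ∈ s, β i ≠ 0) :
    lc s β ≠ ⊥ := by
  classical
  have h1 : (∏ i ∈ s, β i) ∈ lc s β := by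
    unfold lc
    rw [Submodule.mem_finsetInf]
    intro i hi
    rw [Ideal.mem_span_singleton]
    exact Finset.dvd_prod_of_mem β hi
  intro h
  rw [h, Ideal.mem_bot] at h1
  exact Finset.prod_ne_zero_iff.2 hβ h1

theorem one_le_absNorm {I : Ideal (𝓞 K)} (hI : I ≠ ⊥) : 1 ≤ Ideal.absNorm I := by
  rw [Nat.one_le_iff_ne_zero, Ne, Ideal.absNorm_eq_zero_iff]
  exact hI

theorem lower {σ : Type*} (s : Finset σ) (β : σ → 𝓞 K) (hβ : ∀ i ∈ s, β i ≠ 0) (D : 𝓞 K)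
    (hD : D ≠ 0) (n : ℕ) (w : ℤ) (hw : w ≠ 0) (h : ∀ i ∈ s, β i ^ n ∣ D * (w : 𝓞 K)) :
    ((Ideal.absNorm (lc s β) : ℕ) : ℝ) ^ n ≤
      |((Algebra.norm ℤ D : ℤ) : ℝ)| * |(w : ℝ)| ^ Module.finrank ℤ (𝓞 K) := by
  have h1 : D * (w : 𝓞 K) ∈ (lc s β) ^ n := by
    unfold lc
    rw [finset_inf_pow s _ (fun i hi => by
      rw [Ne, Ideal.span_singleton_eq_bot]
      exact hβ i hi) n, Submodule.mem_finsetInf]
    intro i hi
    rw [Ideal.span_singleton_pow, Ideal.mem_span_singleton]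
    exact h i hi
  have h2 := Ideal.absNorm_dvd_norm_of_mem h1
  rw [map_pow] at h2
  have h3 : Algebra.norm ℤ (D * (w : 𝓞 K)) = Algebra.norm ℤ D * w ^ Module.finrank ℤ (𝓞 K) := by
    rw [map_mul]
    congr 1
    have := Algebra.norm_algebraMap (R := ℤ) (S := 𝓞 K) w
    rw [eq_intCast] at this
    exact this
  rw [h3] at h2
  have hne : Algebra.norm ℤ D * w ^ Module.finrank ℤ (𝓞 K) ≠ 0 :=
    mul_ne_zero (Algebra.norm_ne_zero_iff.2 hD) (pow_ne_zero _ hw)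
  have h4 := Int.le_of_dvd (abs_pos.2 hne) ((dvd_abs _ _).2 h2)
  have h5 : ((((Ideal.absNorm (lc s β)) ^ n : ℕ) : ℤ) : ℝ) ≤
      ((|Algebra.norm ℤ D * w ^ Module.finrank ℤ (𝓞 K)| : ℤ) : ℝ) := by exact_mod_cast h4
  push_cast at h5
  rw [abs_mul, abs_pow] at h5
  exact h5

end nf

section units

variable {K : Type} [Field K] [NumberField K] [IsGalois ℚ K]

/-- the rate -/
noncomputable def rate {σ : Type*} (s : Finset σ) (β : σ → 𝓞 K) : ℝ :=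
  Real.log (Ideal.absNorm (lc s β) : ℕ) / Module.finrank ℚ K

theorem norm_prod_auto (ψ : K →+* ℂ) (β : 𝓞 K) :
    |((Algebra.norm ℤ β : ℤ) : ℝ)| = ∏ σ : K ≃ₐ[ℚ] K, ‖ψ ((sg σ β : 𝓞 K) : K)‖ := by
  have h1 : ((Algebra.norm ℤ β : ℤ) : ℚ) = Algebra.norm ℚ (β : K) := by
    exact Algebra.coe_norm_int β
  have h2 := Algebra.norm_eq_prod_automorphisms ℚ (β : K)
  have h3 : (((Algebra.norm ℤ β : ℤ) : ℝ) : ℂ) = ∏ σ : K ≃ₐ[ℚ] K, ψ ((sg σ β : 𝓞 K) : K) := by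
    have h4 : (algebraMap ℚ K) (Algebra.norm ℚ (β : K)) = ((Algebra.norm ℤ β : ℤ) : K) := by
      rw [← h1]
      simp
    have h5 := congrArg ψ h2
    rw [h4, map_intCast, map_prod] at h5
    push_cast
    rw [h5]
    exact Finset.prod_congr rfl fun σ _ => by rw [sg_coe]
  have h6 := congrArg norm h3
  rw [Complex.norm_real, Real.norm_eq_abs, norm_prod] at h6
  exact h6

theorem unit_case (ψ : K →+* ℂ) {σ : Type*} (s : Finset σ) (β : σ → 𝓞 K)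
    (hβ : ∀ i ∈ s, β i ≠ 0)
    (hG : ∀ τ : K ≃ₐ[ℚ] K, ∀ i ∈ s, ∃ j ∈ s, sg τ (β i) = β j)
    (hrate : ∀ i ∈ s, rate s β ≤ Real.log ‖ψ (β i : K)‖) :
    (∀ i ∈ s, Real.log ‖ψ (β i : K)‖ = rate s β) ∧
      ∀ i ∈ s, ∀ j ∈ s, ∃ k : ℕ, 1 ≤ k ∧ β i ^ k = β j ^ k := by
  classical
  set κ := rate s β with hκ
  have hfr : 0 < Module.finrank ℚ K := Module.finrank_pos
  have hcard : Fintype.card (K ≃ₐ[ℚ] K) = Module.finrank ℚ K := by
    rw [← IsGalois.card_aut_eq_finrank ℚ K, Nat.card_eq_fintype_card]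
  have hl1 := one_le_absNorm (lc_ne s β hβ)
  have hlR : (0 : ℝ) < (Ideal.absNorm (lc s β) : ℕ) := by exact_mod_cast hl1
  have hexp : Real.exp κ ^ Module.finrank ℚ K = (Ideal.absNorm (lc s β) : ℕ) := by
    rw [← Real.exp_nat_mul, hκ, rate, mul_div_cancel₀ _ (by positivity), Real.exp_log hlR]
  have hpos : ∀ i ∈ s, 0 < ‖ψ (β i : K)‖ := by
    intro i hi
    rw [norm_pos_iff]
    intro h
    rw [map_eq_zero] at h
    exact hβ i hi (by exact_mod_cast h)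
  have hge : ∀ i ∈ s, ∀ τ : K ≃ₐ[ℚ] K, Real.exp κ ≤ ‖ψ ((sg τ (β i) : 𝓞 K) : K)‖ := by
    intro i hi τ
    obtain ⟨j, hj, h⟩ := hG τ i hi
    rw [h, ← Real.le_log_iff_exp_le (hpos j hj)]
    exact hrate j hj
  have hnle : ∀ i ∈ s, Ideal.absNorm (Ideal.span {β i}) ∣ Ideal.absNorm (lc s β) := by
    intro i hi
    exact Ideal.absNorm_dvd_absNorm_of_le (Finset.inf_le hi)
  have hnorm : ∀ i ∈ s, ∏ τ : K ≃ₐ[ℚ] K, ‖ψ ((sg τ (β i) : 𝓞 K) : K)‖ ≤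
      Real.exp κ ^ Module.finrank ℚ K := by
    intro i hi
    rw [← norm_prod_auto, hexp]
    have h1 := Nat.le_of_dvd hl1 (hnle i hi)
    rw [Ideal.absNorm_span_singleton] at h1
    have h2 : (((Algebra.norm ℤ (β i)).natAbs : ℕ) : ℝ) ≤ (Ideal.absNorm (lc s β) : ℕ) := by
      exact_mod_cast h1
    rw [Nat.cast_natAbs, Int.cast_abs] at h2
    exact h2
  have heq : ∀ i ∈ s, ∀ τ : K ≃ₐ[ℚ] K, ‖ψ ((sg τ (β i) : 𝓞 K) : K)‖ = Real.exp κ := by
    intro i hi τ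
    by_contra hne
    have h1 : Real.exp κ < ‖ψ ((sg τ (β i) : 𝓞 K) : K)‖ := lt_of_le_of_ne (hge i hi τ)
      (Ne.symm hne)
    have h2 : ∏ τ : K ≃ₐ[ℚ] K, Real.exp κ < ∏ τ : K ≃ₐ[ℚ] K, ‖ψ ((sg τ (β i) : 𝓞 K) : K)‖ :=
      Finset.prod_lt_prod (fun _ _ => Real.exp_pos _) (fun τ _ => hge i hi τ)
        ⟨τ, Finset.mem_univ _, h1⟩
    rw [Finset.prod_const, Finset.card_univ, hcard] at h2
    exact absurd h2 (not_lt.2 (hnorm i hi))
  have hone : sg (1 : K ≃ₐ[ℚ] K) = RingHom.id (𝓞 K) := by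
    ext x
    rw [sg_coe]
    rfl
  have hid : ∀ i ∈ s, ‖ψ (β i : K)‖ = Real.exp κ := by
    intro i hi
    have := heq i hi 1
    rw [hone, RingHom.id_apply] at this
    exact this
  have hspan : ∀ i ∈ s, Ideal.span {β i} = lc s β := by
    intro i hi
    obtain ⟨J, hJ⟩ : Ideal.span {β i} ∣ lc s β :=
      Ideal.dvd_iff_le.2 (Finset.inf_le (f := fun i => Ideal.span {β i}) hi)
    have h1 : Ideal.absNorm (Ideal.span {β i}) = Ideal.absNorm (lc s β) := by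
      apply Nat.dvd_antisymm (hnle i hi)
      have h2 : (((Algebra.norm ℤ (β i)).natAbs : ℕ) : ℝ) = (Ideal.absNorm (lc s β) : ℕ) := by
        rw [Nat.cast_natAbs, Int.cast_abs, norm_prod_auto ψ, ← hexp,
          Finset.prod_congr rfl (fun τ _ => heq i hi τ), Finset.prod_const, Finset.card_univ,
          hcard]
      rw [Ideal.absNorm_span_singleton]
      exact dvd_of_eq (by exact_mod_cast h2.symm)
    rw [hJ, map_mul] at h1
    have h2 : Ideal.absNorm (Ideal.span {β i}) ≠ 0 := by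
      rw [Ne, Ideal.absNorm_eq_zero_iff, Ideal.span_singleton_eq_bot]
      exact hβ i hi
    have h3 : Ideal.absNorm J = 1 := by
      have h4 : Ideal.absNorm (Ideal.span {β i}) * 1 = Ideal.absNorm (Ideal.span {β i}) *
        Ideal.absNorm J := by rw [mul_one]; exact h1
      exact (Nat.eq_of_mul_eq_mul_left (Nat.pos_of_ne_zero h2) h4).symm
    rw [Ideal.absNorm_eq_one_iff] at h3
    rw [hJ, h3, Ideal.mul_top]
  refine ⟨fun i hi => by rw [hid i hi, Real.log_exp], fun i hi j hj => ?_⟩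
  have h1 : Associated (β i) (β j) := by
    rw [← Ideal.span_singleton_eq_span_singleton, hspan i hi, hspan j hj]
  obtain ⟨u, hu⟩ := h1
  obtain ⟨k, hk, hk1⟩ := kron ψ (u : 𝓞 K) u.isUnit (fun τ => by
    have h2 : ‖ψ ((sg τ (β i) : 𝓞 K) : K)‖ * ‖ψ ((sg τ (u : 𝓞 K) : 𝓞 K) : K)‖ =
        ‖ψ ((sg τ (β j) : 𝓞 K) : K)‖ := by
      have h4 := congrArg (fun x : 𝓞 K => ‖ψ ((sg τ x : 𝓞 K) : K)‖) hu
      simp only [RingOfIntegers.coe_eq_algebraMap, map_mul, norm_mul] at h4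
      exact h4
    rw [heq i hi, heq j hj] at h2
    have h3 : Real.exp κ * ‖ψ ((sg τ (u : 𝓞 K) : 𝓞 K) : K)‖ = Real.exp κ * 1 := by
      rw [h2, mul_one]
    exact (mul_left_cancel₀ (Real.exp_pos κ).ne' h3).ge)
  refine ⟨k, hk, ?_⟩
  rw [← hu, mul_pow, hk1, mul_one]

end units

end Pool.Agent.TH717.ST
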