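import Mathlib
import Pool.Agent.TH717.ST.Small

/-!
The subspace theorem for points of a rational subspace and of the lattices `C^n ℤ^d`.
-/

set_option autoImplicit false

open Finset Filter Topology

namespace Pool.Agent.TH717.ST

open NumberField
open Pool.Agent.TH286.GT
open Pool.Agent.TH286.GT.GrowD (sg sg_coe sg_inj)
open Pool.Agent.TH717.SK (exists_minor ker_cast real_rows)

theorem pen (O : Type) [CommRing O] [IsDomain O] [Module.Free ℤ O] [Module.Finite ℤ O]
    (φ : O →+* ℂ) : PenOStmt O φ :=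
  PenO.penO O φ (CoreO.coreO O φ (AuxO.auxO O φ)
    (VanD.vanishO O φ (ExpandO.expandO O)) (EstO.estO O)) hp (DichO.dichO O φ (Alg.ht O φ))

section mat

variable {O : Type} [CommRing O] [IsDomain O] [CharZero O]

/-- the matrix of forms -/
def Mx {d m : ℕ} (e : Fin m ⊕ Fin (d - m) ≃ Fin d) (R : Matrix (Fin m) (Fin m) O)
    (G : Matrix (Fin d) (Fin d) ℤ) : Matrix (Fin d) (Fin d) O :=
  (Matrix.fromBlocks R 0 0 1).submatrix e.symm e.symm * G.adjugate.map (Int.castRingHom O)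

theorem Mx_det {d m : ℕ} (e : Fin m ⊕ Fin (d - m) ≃ Fin d) (R : Matrix (Fin m) (Fin m) O)
    (hR : R.det ≠ 0) (G : Matrix (Fin d) (Fin d) ℤ) (hG : G.det ≠ 0) : (Mx e R G).det ≠ 0 := by
  classical
  unfold Mx
  rw [Matrix.det_mul, Matrix.det_submatrix_equiv_self, Matrix.det_fromBlocks_zero₂₁,
    Matrix.det_one, mul_one]
  refine mul_ne_zero hR ?_
  have h1 : (G.adjugate.map (Int.castRingHom O)).det = ((G.adjugate.det : ℤ) : O) := by
    have := (Int.castRingHom O).map_det G.adjugate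
    rw [eq_intCast] at this
    rw [this]
    rfl
  rw [h1, Matrix.det_adjugate]
  exact_mod_cast pow_ne_zero _ hG

theorem Mx_apply {d m : ℕ} (e : Fin m ⊕ Fin (d - m) ≃ Fin d) (R : Matrix (Fin m) (Fin m) O)
    (G : Matrix (Fin d) (Fin d) ℤ) (x : Fin d → ℤ) :
    (∀ k, ∑ j, Mx e R G (e (Sum.inl k)) j * ((x j : ℤ) : O) =
      ∑ j, R k j * ((G.adjugate.mulVec x (e (Sum.inl j)) : ℤ) : O)) ∧
    ∀ k, ∑ j, Mx e R G (e (Sum.inr k)) j * ((x j : ℤ) : O) =
      ((G.adjugate.mulVec x (e (Sum.inr k)) : ℤ) : O) := by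
  classical
  have h1 : (G.adjugate.map (Int.castRingHom O)).mulVec (fun j => ((x j : ℤ) : O)) =
      fun j => ((G.adjugate.mulVec x j : ℤ) : O) := by
    funext j
    simp only [Matrix.mulVec, dotProduct, Matrix.map_apply]
    push_cast
    rfl
  have h2 : ∀ l, ∑ j, Mx e R G l j * ((x j : ℤ) : O) =
      ∑ j, (Matrix.fromBlocks R 0 0 1).submatrix e.symm e.symm l j *
        ((G.adjugate.mulVec x j : ℤ) : O) := by
    intro l
    have h3 : (Mx e R G).mulVec (fun j => ((x j : ℤ) : O)) =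
        ((Matrix.fromBlocks R 0 0 1).submatrix e.symm e.symm).mulVec
          (fun j => ((G.adjugate.mulVec x j : ℤ) : O)) := by
      unfold Mx
      rw [← Matrix.mulVec_mulVec, h1]
    exact congrFun h3 l
  refine ⟨fun k => ?_, fun k => ?_⟩
  · rw [h2, ← Equiv.sum_comp e, Fintype.sum_sum_type]
    simp
  · rw [h2, ← Equiv.sum_comp e, Fintype.sum_sum_type]
    simp [Matrix.one_apply]

theorem Mx_im {d m : ℕ} (φ : O →+* ℂ) (e : Fin m ⊕ Fin (d - m) ≃ Fin d)
    (R : Matrix (Fin m) (Fin m) O) (hR : ∀ i j, (φ (R i j)).im = 0)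
    (G : Matrix (Fin d) (Fin d) ℤ) (i j : Fin d) : (φ (Mx e R G i j)).im = 0 := by
  classical
  unfold Mx
  rw [Matrix.mul_apply, map_sum, Complex.im_sum]
  refine Finset.sum_eq_zero fun k _ => ?_
  rw [map_mul, Matrix.map_apply, eq_intCast, map_intCast, Complex.mul_im, Complex.intCast_im,
    mul_zero, zero_add, Matrix.submatrix_apply]
  have h1 : (φ (Matrix.fromBlocks R 0 0 1 (e.symm i) (e.symm k))).im = 0 := by
    rcases e.symm i with a | a <;> rcases e.symm k with b | b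
    · exact hR a b
    · simp
    · simp
    · rw [Matrix.fromBlocks_apply₂₂, Matrix.one_apply]
      split_ifs <;> simp
  rw [h1, zero_mul]

/-- the decomposition of the vectors -/
theorem adj_dec {d m : ℕ} (e : Fin m ⊕ Fin (d - m) ≃ Fin d) (b : Fin m → Fin d → ℤ)
    (G : Matrix (Fin d) (Fin d) ℤ) (hGb : ∀ j l, G l (e (Sum.inl j)) = b j l)
    (x : Fin d → ℤ) (hx : ∀ k, G.adjugate.mulVec x (e (Sum.inr k)) = 0) (l : Fin d) :
    G.det * x l = ∑ j, G.adjugate.mulVec x (e (Sum.inl j)) * b j l := by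
  classical
  have h1 : G.mulVec (G.adjugate.mulVec x) = G.det • x := by
    rw [Matrix.mulVec_mulVec, Matrix.mul_adjugate, Matrix.smul_mulVec, Matrix.one_mulVec]
  have h2 := congrFun h1 l
  rw [Pi.smul_apply, smul_eq_mul] at h2
  rw [← h2]
  simp only [Matrix.mulVec, dotProduct]
  rw [← Equiv.sum_comp e, Fintype.sum_sum_type]
  have h3 : ∑ k : Fin (d - m), G l (e (Sum.inr k)) *
      ∑ i, G.adjugate (e (Sum.inr k)) i * x i = 0 :=
    Finset.sum_eq_zero fun k _ => by
      have := hx k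
      simp only [Matrix.mulVec, dotProduct] at this
      rw [this, mul_zero]
  rw [h3, add_zero]
  refine Finset.sum_congr rfl fun j _ => ?_
  rw [hGb, mul_comm]

theorem adj_of {d m : ℕ} (e : Fin m ⊕ Fin (d - m) ≃ Fin d) (b : Fin m → Fin d → ℤ)
    (G : Matrix (Fin d) (Fin d) ℤ) (hGb : ∀ j l, G l (e (Sum.inl j)) = b j l)
    (c : Fin m → ℤ) (x : Fin d → ℤ) (hx : ∀ l, x l = ∑ j, c j * b j l) :
    (∀ j, G.adjugate.mulVec x (e (Sum.inl j)) = G.det * c j) ∧
      ∀ k, G.adjugate.mulVec x (e (Sum.inr k)) = 0 := by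
  classical
  set v : Fin d → ℤ := fun l => Sum.elim c (fun _ => 0) (e.symm l) with hv
  have h1 : x = G.mulVec v := by
    funext l
    rw [hx l]
    simp only [Matrix.mulVec, dotProduct]
    rw [← Equiv.sum_comp e, Fintype.sum_sum_type]
    simp only [hv, Equiv.symm_apply_apply, Sum.elim_inl, Sum.elim_inr, mul_zero,
      Finset.sum_const_zero, add_zero]
    refine Finset.sum_congr rfl fun j _ => ?_
    rw [hGb, mul_comm]
  have h2 : G.adjugate.mulVec x = G.det • v := by
    rw [h1, Matrix.mulVec_mulVec, Matrix.adjugate_mul, Matrix.smul_mulVec, Matrix.one_mulVec]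
  refine ⟨fun j => ?_, fun k => ?_⟩
  · rw [h2]
    simp [hv]
  · rw [h2]
    simp [hv]

end mat

end Pool.Agent.TH717.ST
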