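import Mathlib
import Pool.Agent.TH717.ST.Small2

/-!
The subspace theorem for points of a rational subspace and of the lattices `C^n ℤ^d`.
-/

set_option autoImplicit false

open Finset Filter Topology

namespace Pool.Agent.TH717.ST

open NumberField
open Pool.Agent.TH286.GT
open Pool.Agent.TH286.GT.GrowD (sg sg_coe sg_inj)
open Pool.Agent.TH717.SK (exists_minor ker_cast real_rows)

section main

variable {K : Type} [Field K] [NumberField K] [IsGalois ℚ K]

/-- the forms restricted to the subspace -/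
def Nm {d m : ℕ} (M : Matrix (Fin d) (Fin d) (𝓞 K)) (b : Fin m → Fin d → ℤ) :
    Matrix (Fin d) (Fin m) (𝓞 K) := Matrix.of fun l j => ∑ k, M l k * ((b j k : ℤ) : 𝓞 K)

theorem det_C {d : ℕ} (M : Matrix (Fin d) (Fin d) (𝓞 K)) (hM : M.det ≠ 0)
    (al : Fin d → 𝓞 K) (C : Matrix (Fin d) (Fin d) ℤ)
    (hMC : M * C.map (Int.castRingHom (𝓞 K)) = Matrix.diagonal al * M) :
    ((C.det : ℤ) : 𝓞 K) = ∏ i, al i := by
  have h1 := congrArg Matrix.det hMC
  have h2 : (C.map (Int.castRingHom (𝓞 K))).det = ((C.det : ℤ) : 𝓞 K) := by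
    have := (Int.castRingHom (𝓞 K)).map_det C
    rw [eq_intCast] at this
    rw [this]
    rfl
  rw [Matrix.det_mul, Matrix.det_mul, Matrix.det_diagonal, h2, mul_comm] at h1
  exact mul_right_cancel₀ hM h1

theorem sel_inj {d m : ℕ} (N : Matrix (Fin d) (Fin m) (𝓞 K)) (s : Fin m → Fin d)
    (hs : s ∈ sel N) : Function.Injective s := by
  rw [mem_sel] at hs
  intro i j hij
  by_contra hne
  exact hs (Matrix.det_zero_of_row_eq hne (by
    funext a
    simp [hij]))

theorem finrank_eq : Module.finrank ℤ (𝓞 K) = Module.finrank ℚ K := RingOfIntegers.rank K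

theorem norm_int (w : ℤ) : Algebra.norm ℤ ((w : ℤ) : 𝓞 K) = w ^ Module.finrank ℤ (𝓞 K) := by
  have := Algebra.norm_algebraMap (R := ℤ) (S := 𝓞 K) w
  rw [eq_intCast] at this
  exact this

theorem rate_le {d m : ℕ} (M : Matrix (Fin d) (Fin d) (𝓞 K)) (hM : M.det ≠ 0)
    (al : Fin d → 𝓞 K) (hal : ∀ i, al i ≠ 0) (C : Matrix (Fin d) (Fin d) ℤ)
    (hMC : M * C.map (Int.castRingHom (𝓞 K)) = Matrix.diagonal al * M)
    (N : Matrix (Fin d) (Fin m) (𝓞 K)) :
    C.det ≠ 0 ∧ rate (sel N) (pr al) ≤ Real.log |(C.det : ℝ)| := by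
  classical
  have hdC := det_C M hM al C hMC
  have hC0 : C.det ≠ 0 := by
    intro h
    rw [h, Int.cast_zero] at hdC
    exact Finset.prod_ne_zero_iff.2 (fun i _ => hal i) hdC.symm
  refine ⟨hC0, ?_⟩
  have hmem : ((C.det : ℤ) : 𝓞 K) ∈ lc (sel N) (pr al) := by
    unfold lc
    rw [Submodule.mem_finsetInf]
    intro s hs
    rw [Ideal.mem_span_singleton, hdC]
    have h1 : pr al s = ∏ i ∈ Finset.univ.image s, al i := by
      unfold pr
      rw [Finset.prod_image (fun a _ b _ h => sel_inj N s hs h)]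
    rw [h1]
    exact Finset.prod_dvd_prod_of_subset _ _ _ (Finset.subset_univ _)
  have h1 := Ideal.absNorm_dvd_norm_of_mem hmem
  rw [norm_int] at h1
  have h2 := Int.le_of_dvd (abs_pos.2 (pow_ne_zero _ hC0)) ((dvd_abs _ _).2 h1)
  have h3 : ((Ideal.absNorm (lc (sel N) (pr al)) : ℕ) : ℝ) ≤
      |(C.det : ℝ)| ^ Module.finrank ℤ (𝓞 K) := by
    have h4 : (((Ideal.absNorm (lc (sel N) (pr al)) : ℕ) : ℤ) : ℝ) ≤
        ((|C.det ^ Module.finrank ℤ (𝓞 K)| : ℤ) : ℝ) := Int.cast_le.2 h2
    rw [Int.cast_abs, Int.cast_pow, abs_pow, Int.cast_natCast] at h4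
    exact h4
  have hpos : (0 : ℝ) < (Ideal.absNorm (lc (sel N) (pr al)) : ℕ) := by
    have := one_le_absNorm (lc_ne (sel N) (pr al) (fun s _ =>
      Finset.prod_ne_zero_iff.2 fun k _ => hal _))
    exact_mod_cast this
  have h4 := Real.log_le_log hpos h3
  rw [Real.log_pow, finrank_eq] at h4
  have hfr : (0 : ℝ) < Module.finrank ℚ K := by exact_mod_cast Module.finrank_pos
  unfold rate
  rw [div_le_iff₀ hfr]
  linarith

theorem vol_lower {d m : ℕ} (M : Matrix (Fin d) (Fin d) (𝓞 K))
    (al : Fin d → 𝓞 K) (hal : ∀ i, al i ≠ 0) (C : Matrix (Fin d) (Fin d) ℤ)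
    (hMC : M * C.map (Int.castRingHom (𝓞 K)) = Matrix.diagonal al * M)
    (b : Fin m → Fin d → ℤ) (g0 : ℤ) (n : ℕ) (z z' : Fin m → Fin d → ℤ)
    (hz : ∀ i, z i = (C ^ n).mulVec (z' i)) (a : Matrix (Fin m) (Fin m) ℤ) (hadet : a.det ≠ 0)
    (ha : ∀ i l, g0 * z i l = ∑ j, a i j * b j l) :
    rate (sel (Nm M b)) (pr al) * n ≤
      Real.log |((Algebra.norm ℤ (∏ s ∈ sel (Nm M b), ((Nm M b).submatrix s id).det) : ℤ) : ℝ)| +
        Real.log |(a.det : ℝ)| := by
  classical
  set N := Nm M b with hN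
  set D : 𝓞 K := ∏ s ∈ sel N, (N.submatrix s id).det with hD
  have hD0 : D ≠ 0 := Finset.prod_ne_zero_iff.2 fun s hs => (mem_sel N s).1 hs
  have hβ : ∀ s ∈ sel N, pr al s ≠ 0 := fun s _ => Finset.prod_ne_zero_iff.2 fun k _ => hal _
  have h1 := lower (sel N) (pr al) hβ D hD0 n a.det hadet (fun s hs =>
    (dvd_det M al C hMC b g0 n z z' hz a ha s).trans
      (mul_dvd_mul_right (Finset.dvd_prod_of_mem _ hs) _))
  have hpos : (0 : ℝ) < (Ideal.absNorm (lc (sel N) (pr al)) : ℕ) := by
    have := one_le_absNorm (lc_ne (sel N) (pr al) hβ)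
    exact_mod_cast this
  have hND : 1 ≤ |((Algebra.norm ℤ D : ℤ) : ℝ)| := by
    have := Int.one_le_abs (Algebra.norm_ne_zero_iff.2 hD0 : Algebra.norm ℤ D ≠ 0)
    exact_mod_cast this
  have hda : (0 : ℝ) < |(a.det : ℝ)| := by
    rw [abs_pos]
    exact_mod_cast hadet
  have h2 := Real.log_le_log (by positivity) h1
  rw [Real.log_pow, Real.log_mul (by positivity) (by positivity), Real.log_pow, finrank_eq] at h2
  have hfr : (1 : ℝ) ≤ Module.finrank ℚ K := by
    exact_mod_cast (Module.finrank_pos : 0 < Module.finrank ℚ K)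
  have hlND : 0 ≤ Real.log |((Algebra.norm ℤ D : ℤ) : ℝ)| := Real.log_nonneg hND
  unfold rate
  rw [div_mul_eq_mul_div, div_le_iff₀ (by linarith)]
  nlinarith

/-- The subspace theorem for points of a rational subspace and of the lattices `C^n ℤ^d`. -/
theorem small_caseS (ψ : K →+* ℂ) (cj : K ≃ₐ[ℚ] K)
    (hcj : ∀ x, ψ (cj x) = (starRingEnd ℂ) (ψ x)) (iK : 𝓞 K) (hi : ψ (iK : K) = Complex.I)
    {d m : ℕ} (hm : 1 ≤ m) (M : Matrix (Fin d) (Fin d) (𝓞 K)) (hM : M.det ≠ 0)
    (al : Fin d → 𝓞 K) (hal : ∀ i, al i ≠ 0) (C : Matrix (Fin d) (Fin d) ℤ)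
    (hMC : M * C.map (Int.castRingHom (𝓞 K)) = Matrix.diagonal al * M)
    (b : Fin m → Fin d → ℤ) (hb : LinearIndependent ℤ b)
    (W : Matrix (Fin m) (Fin m) (𝓞 K)) (hW : W.det ≠ 0)
    (r : Fin m → ℝ) (hr : ∀ k, 0 < r k)
    (hprod : ∑ k, Real.log (r k) < rate (sel (Nm M b)) (pr al))
    (c : ℕ → Fin m → ℤ) (X : ℕ → Fin d → ℤ) (hX : ∀ t, X t ≠ 0)
    (hXc : ∀ t l, X t l = ∑ j, c t j * b j l)
    (n : ℕ → ℕ) (hXC : ∀ t, ∃ y, X t = (C ^ n t).mulVec y)
    (H : ℕ → ℝ) (hH : ∀ t, 1 ≤ H t) (hn : Tendsto n atTop atTop)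
    (hHn : ∀ δ : ℝ, 0 < δ → ∀ᶠ t in atTop, Real.log (H t) ≤ δ * n t)
    (hs : ∀ t k, ‖ψ (∑ j, (W k j : K) * (c t j : K))‖ ≤ H t * r k ^ n t) :
    ∃ f : Fin d → ℤ, (∃ i, ∑ l, f l * b i l ≠ 0) ∧ ∃ᶠ t in atTop, ∑ l, f l * X t l = 0 := by
  classical
  have hmd : m ≤ d := by
    have := hb.fintype_card_le_finrank
    simpa using this
  set e : Fin m ⊕ Fin (d - m) ≃ Fin d := finSumFinEquiv.trans (finCongr (by omega)) with he
  obtain ⟨G, hG0, hGb⟩ := exists_ext b hb e
  have hiK : iK ≠ 0 := by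
    intro h
    rw [h, RingOfIntegers.coe_eq_algebraMap, map_zero, map_zero] at hi
    exact Complex.I_ne_zero hi.symm
  obtain ⟨S, hS⟩ := real_rows (sg cj) iK hiK (by norm_num) W hW
  set R : Matrix (Fin m) (Fin m) (𝓞 K) := Matrix.of fun k j =>
    if k ∈ S then W k j + sg cj (W k j) else iK * (W k j - sg cj (W k j)) with hR
  set φ : 𝓞 K →+* ℂ := ψ.comp (algebraMap (𝓞 K) K) with hφ
  have hφcj : ∀ x : 𝓞 K, φ (sg cj x) = (starRingEnd ℂ) (φ x) := fun x => hcj x
  have hφinj : ∀ x : 𝓞 K, φ x = 0 → x = 0 := by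
    intro x hx
    have h1 : ψ (x : K) = 0 := hx
    rw [map_eq_zero] at h1
    exact_mod_cast h1
  have hreal : ∀ i j, (φ (R i j)).im = 0 := by
    intro i j
    simp only [hR, Matrix.of_apply]
    split_ifs
    · rw [map_add, hφcj]
      simp
    · rw [map_mul, map_sub, hφcj]
      have : φ iK = Complex.I := hi
      rw [this]
      simp
  obtain ⟨hC0, hκC⟩ := rate_le M hM al hal C hMC (Nm M b)
  set κ := rate (sel (Nm M b)) (pr al) with hκ
  set g0 := G.det with hg0
  set a : Fin m → ℝ := fun k => Real.log (r k) with ha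
  set η : ℝ := κ - ∑ k, a k with hη
  have hη0 : 0 < η := by
    rw [hη]
    have : ∑ k, a k < κ := hprod
    linarith
  set lC : ℝ := Real.log |(C.det : ℝ)| with hlC
  have hlC0 : 0 ≤ lC := by
    apply Real.log_nonneg
    have := Int.one_le_abs hC0
    exact_mod_cast this
  set γ : ℝ := η / (8 * (m + 1)) with hγ
  have hm0 : (0 : ℝ) ≤ m := Nat.cast_nonneg _
  have hγ0 : 0 < γ := by positivity
  have hmγ : m * γ ≤ η / 8 := by
    rw [hγ, mul_div_assoc', div_le_div_iff₀ (by positivity) (by norm_num)]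
    nlinarith
  have hγη : γ ≤ η / 8 := by
    rw [hγ]
    apply div_le_div_of_nonneg_left hη0.le (by norm_num)
    linarith
  set δ : ℝ := min 1 γ with hδ
  have hδ0 : 0 < δ := lt_min one_pos hγ0
  have hmδ : m * δ ≤ η / 8 := (mul_le_mul_of_nonneg_left (min_le_right _ _) hm0).trans hmγ
  have hδ1 : δ ≤ 1 := min_le_left _ _
  set c' : ℝ := 2 + ∑ k, |a k| + lC + 2 * γ with hc'
  have hsa : ∀ k, |a k| ≤ ∑ k, |a k| := fun k =>
    Finset.single_le_sum (f := fun k => |a k|) (fun i _ => abs_nonneg _) (Finset.mem_univ k)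
  have hsa0 : 0 ≤ ∑ k, |a k| := Finset.sum_nonneg fun k _ => abs_nonneg _
  have hc1 : 1 ≤ c' := by rw [hc']; linarith
  have hg1 : (1 : ℝ) ≤ |(g0 : ℝ)| := by
    have := Int.one_le_abs hG0
    exact_mod_cast this
  set lg : ℝ := Real.log (2 * |(g0 : ℝ)|) with hlg
  have hlg0 : 0 ≤ lg := Real.log_nonneg (by linarith)
  set Kc : ℝ := Real.log |((Algebra.norm ℤ (∏ s ∈ sel (Nm M b),
    ((Nm M b).submatrix s id).det) : ℤ) : ℝ)| + Real.log (m.factorial : ℝ) -
      Real.log ‖φ R.det‖ with hKc
  -- good indices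
  have hev : ∀ᶠ t in atTop, Real.log (H t) ≤ δ * n t ∧ lg ≤ δ * n t ∧ (0 : ℝ) < n t ∧
      Kc < η / 2 * n t := by
    have h1 : Tendsto (fun t => (n t : ℝ)) atTop atTop := tendsto_natCast_atTop_atTop.comp hn
    exact (hHn δ hδ0).and (((h1.const_mul_atTop hδ0).eventually_ge_atTop _).and
      ((h1.eventually_gt_atTop 0).and
        ((h1.const_mul_atTop (by positivity : (0 : ℝ) < η / 2)).eventually_gt_atTop _)))
  obtain ⟨t0, ht0⟩ := Filter.eventually_atTop.1 hev
  have hτ : Tendsto (fun t => t + t0) atTop atTop := tendsto_add_atTop_nat t0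
  have hlogA : ∀ t k, Real.log (2 * |(g0 : ℝ)| * (H (t + t0) * r k ^ n (t + t0))) =
      lg + Real.log (H (t + t0)) + n (t + t0) * a k := by
    intro t k
    have hHpos : (0 : ℝ) < H (t + t0) := lt_of_lt_of_le one_pos (hH _)
    have hrk := hr k
    rw [Real.log_mul (by positivity) (by positivity), Real.log_mul hHpos.ne' (by positivity),
      Real.log_pow]
    ring
  set A : ℕ → Fin d → ℝ := fun t l => Sum.elim
    (fun k => 2 * |(g0 : ℝ)| * (H (t + t0) * r k ^ n (t + t0)))
    (fun _ => Real.exp (-(2 * γ * n (t + t0)))) (e.symm l) with hA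
  have hAl : ∀ t k, A t (e (Sum.inl k)) = 2 * |(g0 : ℝ)| * (H (t + t0) * r k ^ n (t + t0)) := by
    intro t k
    simp [hA]
  have hAr : ∀ t k, A t (e (Sum.inr k)) = Real.exp (-(2 * γ * n (t + t0))) := by
    intro t k
    simp [hA]
  have hsumA : ∀ t, ∑ l, Real.log (A t l) = (m * (lg + Real.log (H (t + t0))) +
      n (t + t0) * ∑ k, a k) + ((d - m : ℕ) : ℝ) * (-(2 * γ * n (t + t0))) := by
    intro t
    rw [← Equiv.sum_comp e, Fintype.sum_sum_type]
    congr 1
    · simp_rw [hAl, hlogA]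
      rw [Finset.sum_add_distrib, Finset.sum_const, Finset.card_univ, Fintype.card_fin,
        ← Finset.mul_sum, nsmul_eq_mul]
    · simp_rw [hAr, Real.log_exp]
      rw [Finset.sum_const, Finset.card_univ, Fintype.card_fin, nsmul_eq_mul]
  have hRdet : R.det ≠ 0 := hS
  have key := subT (𝓞 K) φ (pen _ _) cb sf comp d 1 m (hm.trans hmd) hmd (Mx e R G) M
    (fun _ => al) ⟨Mx_det e R hRdet G hG0, Mx_im φ e R hreal G, hM, fun _ l => hal l⟩ c' γ hc1 hγ0
    (fun t => (n (t + t0) : ℝ)) ((tendsto_natCast_atTop_atTop.comp hn).comp hτ)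
    (fun t _ => n (t + t0)) (fun t => C ^ n (t + t0))
    (by
      intro t
      refine ⟨by rw [Matrix.det_pow]; exact pow_ne_zero _ hC0, ?_⟩
      rw [pow_lat M al C hMC]
      congr 2
      funext l
      simp [bet])
    A
    (by
      intro t
      obtain ⟨h1, h2, h3, h4⟩ := ht0 (t + t0) (Nat.le_add_left _ _)
      have hlH : 0 ≤ Real.log (H (t + t0)) := Real.log_nonneg (hH _)
      have hdetpow : Real.log |(((C ^ n (t + t0)).det : ℤ) : ℝ)| = n (t + t0) * lC := by
        rw [Matrix.det_pow, Int.cast_pow, abs_pow, Real.log_pow]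
      refine ⟨?_, ?_, ?_, ?_⟩
      · rw [hdetpow]
        have h5 : lC ≤ c' := by rw [hc']; linarith
        calc (n (t + t0) : ℝ) * lC ≤ n (t + t0) * c' := mul_le_mul_of_nonneg_left h5 h3.le
          _ = c' * n (t + t0) := by ring
      · intro l
        obtain ⟨x, rfl⟩ := e.surjective l
        rcases x with x | x
        · rw [hAl]
          have hHpos : (0 : ℝ) < H (t + t0) := lt_of_lt_of_le one_pos (hH _)
          have hrk := hr x
          positivity
        · rw [hAr]
          exact Real.exp_pos _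
      · intro l
        show |Real.log (A t l)| ≤ c' * (n (t + t0) : ℝ)
        obtain ⟨x, rfl⟩ := e.surjective l
        rcases x with x | x
        · rw [hAl, hlogA]
          calc |lg + Real.log (H (t + t0)) + n (t + t0) * a x| ≤
              |lg + Real.log (H (t + t0))| + |n (t + t0) * a x| := abs_add_le _ _
            _ ≤ (δ * n (t + t0) + δ * n (t + t0)) + n (t + t0) * |a x| := by
                rw [abs_mul, abs_of_nonneg (add_nonneg hlg0 hlH), abs_of_pos h3]
                linarith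
            _ ≤ (1 * n (t + t0) + 1 * n (t + t0)) + n (t + t0) * ∑ k, |a k| := by
                have h4 := hsa x
                gcongr
            _ ≤ c' * n (t + t0) := by
                rw [hc']
                nlinarith
        · rw [hAr, Real.log_exp, abs_neg, abs_of_nonneg (by positivity), hc']
          nlinarith
      · show ∑ l, Real.log (A t l) + γ * (n (t + t0) : ℝ) ≤
          Real.log |(((C ^ n (t + t0)).det : ℤ) : ℝ)|
        rw [hdetpow, hsumA]
        have h5 : (m : ℝ) * (lg + Real.log (H (t + t0))) ≤ m * (2 * δ * n (t + t0)) := by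
          gcongr
          linarith
        have h6 : (0 : ℝ) ≤ ((d - m : ℕ) : ℝ) * (2 * γ * n (t + t0)) := by positivity
        have h7 : (m : ℝ) * (2 * δ * n (t + t0)) ≤ η / 4 * n (t + t0) := by
          have : (m : ℝ) * (2 * δ * n (t + t0)) = 2 * (m * δ) * n (t + t0) := by ring
          rw [this]
          have h8 : 2 * (m * δ) ≤ η / 4 := by linarith
          exact mul_le_mul_of_nonneg_right h8 h3.le
        have h8 : γ * n (t + t0) ≤ η / 8 * n (t + t0) := mul_le_mul_of_nonneg_right hγη h3.le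
        have h9 : (n (t + t0) : ℝ) * ∑ k, a k = n (t + t0) * (κ - η) := by rw [hη]; ring
        have h10 : (n (t + t0) : ℝ) * κ ≤ n (t + t0) * lC := mul_le_mul_of_nonneg_left hκC h3.le
        have h11 : (0 : ℝ) < η * n (t + t0) := by positivity
        nlinarith)
    (fun t => X (t + t0)) (fun t => hX _)
    (by
      intro t
      refine ⟨?_, hXC (t + t0)⟩
      intro l
      obtain ⟨q1, q2⟩ := adj_of e b G hGb (c (t + t0)) (X (t + t0)) (hXc (t + t0))
      obtain ⟨x, rfl⟩ := e.surjective l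
      rcases x with x | x
      · rw [(Mx_apply e R G (X (t + t0))).1 x]
        simp_rw [q1]
        set w : ℂ := ψ (∑ j, (W x j : K) * (c (t + t0) j : K)) with hw
        have hw1 : φ (∑ j, W x j * ((c (t + t0) j : ℤ) : 𝓞 K)) = w := by
          rw [hw, hφ, RingHom.comp_apply, map_sum]
          congr 1
        have hw2 : φ (∑ j, sg cj (W x j) * ((c (t + t0) j : ℤ) : 𝓞 K)) = (starRingEnd ℂ) w := by
          rw [← hw1, ← hφcj, map_sum (sg cj)]
          congr 1
          refine Finset.sum_congr rfl fun j _ => ?_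
          rw [map_mul, map_intCast]
        have hwn : ‖w‖ ≤ H (t + t0) * r x ^ n (t + t0) := hs (t + t0) x
        have h1 : ‖(starRingEnd ℂ) w‖ = ‖w‖ := RCLike.norm_conj w
        show ‖φ (∑ j, R x j * (((g0 * c (t + t0) j : ℤ)) : 𝓞 K))‖ ≤ A t (e (Sum.inl x))
        rw [hAl]
        have hgR : ∑ j, R x j * (((g0 * c (t + t0) j : ℤ)) : 𝓞 K) =
            ((g0 : ℤ) : 𝓞 K) * ∑ j, R x j * ((c (t + t0) j : ℤ) : 𝓞 K) := by
          rw [Finset.mul_sum]
          refine Finset.sum_congr rfl fun j _ => ?_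
          push_cast
          ring
        rw [hgR, map_mul, norm_mul, map_intCast, Complex.norm_intCast]
        have hR2 : ‖φ (∑ j, R x j * ((c (t + t0) j : ℤ) : 𝓞 K))‖ ≤
            2 * (H (t + t0) * r x ^ n (t + t0)) := by
          by_cases hl : x ∈ S
          · have h2 : ∑ j, R x j * ((c (t + t0) j : ℤ) : 𝓞 K) =
                ∑ j, W x j * ((c (t + t0) j : ℤ) : 𝓞 K) +
                  ∑ j, sg cj (W x j) * ((c (t + t0) j : ℤ) : 𝓞 K) := by
              rw [← Finset.sum_add_distrib]
              refine Finset.sum_congr rfl fun j _ => ?_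
              simp only [hR, Matrix.of_apply, hl, if_true]
              ring
            rw [h2, map_add, hw1, hw2]
            calc ‖w + (starRingEnd ℂ) w‖ ≤ ‖w‖ + ‖(starRingEnd ℂ) w‖ := norm_add_le _ _
              _ = 2 * ‖w‖ := by rw [h1]; ring
              _ ≤ 2 * (H (t + t0) * r x ^ n (t + t0)) := by gcongr
          · have h2 : ∑ j, R x j * ((c (t + t0) j : ℤ) : 𝓞 K) =
                iK * (∑ j, W x j * ((c (t + t0) j : ℤ) : 𝓞 K) -
                  ∑ j, sg cj (W x j) * ((c (t + t0) j : ℤ) : 𝓞 K)) := by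
              rw [← Finset.sum_sub_distrib, Finset.mul_sum]
              refine Finset.sum_congr rfl fun j _ => ?_
              simp only [hR, Matrix.of_apply, hl, if_false]
              ring
            have hI : φ iK = Complex.I := hi
            rw [h2, map_mul, map_sub, hw1, hw2, norm_mul, hI, Complex.norm_I, one_mul]
            calc ‖w - (starRingEnd ℂ) w‖ ≤ ‖w‖ + ‖(starRingEnd ℂ) w‖ := norm_sub_le _ _
              _ = 2 * ‖w‖ := by rw [h1]; ring
              _ ≤ 2 * (H (t + t0) * r x ^ n (t + t0)) := by gcongr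
        calc |(g0 : ℝ)| * ‖φ (∑ j, R x j * ((c (t + t0) j : ℤ) : 𝓞 K))‖ ≤
            |(g0 : ℝ)| * (2 * (H (t + t0) * r x ^ n (t + t0))) := by gcongr
          _ = 2 * |(g0 : ℝ)| * (H (t + t0) * r x ^ n (t + t0)) := by ring
      · rw [(Mx_apply e R G (X (t + t0))).2 x, q2, hAr]
        simp [(Real.exp_pos _).le])
    (by
      intro t z hz hzB
      obtain ⟨h1, h2, h3, h4⟩ := ht0 (t + t0) (Nat.le_add_left _ _)
      by_contra hcon
      push Not at hcon
      choose z' hz' using hzB
      have hzr : ∀ i k, G.adjugate.mulVec (z i) (e (Sum.inr k)) = 0 := by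
        intro i k
        have h5 := hcon i (e (Sum.inr k))
        rw [(Mx_apply e R G (z i)).2 k, hAr, map_intCast, Complex.norm_intCast,
          ← Real.exp_add] at h5
        have h6 : Real.exp (γ * (n (t + t0) : ℝ) + -(2 * γ * n (t + t0))) < 1 := by
          rw [Real.exp_lt_one_iff]
          have : 0 < γ * n (t + t0) := by positivity
          linarith
        have h7 : |((G.adjugate.mulVec (z i) (e (Sum.inr k)) : ℤ) : ℝ)| < 1 := h5.trans_lt h6
        by_contra hne
        have h8 := Int.one_le_abs hne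
        have h9 : (1 : ℝ) ≤ |((G.adjugate.mulVec (z i) (e (Sum.inr k)) : ℤ) : ℝ)| := by
          exact_mod_cast h8
        linarith
      set aa : Matrix (Fin m) (Fin m) ℤ := Matrix.of fun i j =>
        G.adjugate.mulVec (z i) (e (Sum.inl j)) with haa
      have hga : ∀ i l, g0 * z i l = ∑ j, aa i j * b j l := fun i l =>
        adj_dec e b G hGb (z i) (hzr i) l
      have hadet : aa.det ≠ 0 := by
        intro h0
        obtain ⟨v, hv, hvv⟩ := Matrix.exists_vecMul_eq_zero_iff.2 h0
        apply hv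
        have h5 : ∑ i, v i • z i = 0 := by
          have h6 : g0 • ∑ i, v i • z i = 0 := by
            funext l
            simp only [Pi.smul_apply, Finset.sum_apply, smul_eq_mul, Pi.zero_apply]
            calc g0 * ∑ i, v i * z i l = ∑ i, v i * (g0 * z i l) := by
                  rw [Finset.mul_sum]
                  exact Finset.sum_congr rfl fun i _ => by ring
              _ = ∑ j, (∑ i, v i * aa i j) * b j l := by
                  simp_rw [hga, Finset.mul_sum, Finset.sum_mul]
                  rw [Finset.sum_comm]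
                  exact Finset.sum_congr rfl fun j _ => Finset.sum_congr rfl fun i _ => by ring
              _ = 0 := by
                  refine Finset.sum_eq_zero fun j _ => ?_
                  have := congrFun hvv j
                  simp only [Matrix.vecMul, dotProduct, Pi.zero_apply] at this
                  rw [this, zero_mul]
          exact (smul_eq_zero.1 h6).resolve_left hG0
        funext i
        exact Fintype.linearIndependent_iff.1 hz v h5 i
      have hvol := vol_lower M al hal C hMC b g0 (n (t + t0)) z z' hz' aa hadet hga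
      -- the upper bound
      have hU : ∀ k i, ‖(Matrix.of fun k i => φ (∑ j, R k j * ((aa i j : ℤ) : 𝓞 K))) k i‖ ≤
          Real.exp (γ * n (t + t0)) * (2 * |(g0 : ℝ)| * (H (t + t0) * r k ^ n (t + t0))) := by
        intro k i
        have h5 := hcon i (e (Sum.inl k))
        rw [(Mx_apply e R G (z i)).1 k, hAl] at h5
        exact h5
      have h5 := norm_det_le _ _ hU
      have h6 : (Matrix.of fun k i => φ (∑ j, R k j * ((aa i j : ℤ) : 𝓞 K))).det =
          φ R.det * ((aa.det : ℤ) : ℂ) := by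
        have h7 : (Matrix.of fun k i => φ (∑ j, R k j * ((aa i j : ℤ) : 𝓞 K))) =
            (R * (aa.map (Int.castRingHom (𝓞 K))).transpose).map φ := by
          ext k i
          simp [Matrix.mul_apply]
        have h8 : (aa.map (Int.castRingHom (𝓞 K))).det = ((aa.det : ℤ) : 𝓞 K) := by
          have := (Int.castRingHom (𝓞 K)).map_det aa
          rw [eq_intCast] at this
          rw [this]
          rfl
        rw [h7, ← RingHom.mapMatrix_apply, ← RingHom.map_det, Matrix.det_mul,
          Matrix.det_transpose, h8, map_mul, map_intCast]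
      rw [h6, norm_mul, Complex.norm_intCast] at h5
      have hφR : 0 < ‖φ R.det‖ := by
        rw [norm_pos_iff]
        exact fun h => hRdet (hφinj _ h)
      have hda : (0 : ℝ) < |(aa.det : ℝ)| := by
        rw [abs_pos]
        exact_mod_cast hadet
      have hHpos : (0 : ℝ) < H (t + t0) := lt_of_lt_of_le one_pos (hH _)
      have h7 := Real.log_le_log (by positivity) h5
      have hfac : (0 : ℝ) < m.factorial := by exact_mod_cast m.factorial_pos
      have hpr : ∀ k, 0 < Real.exp (γ * n (t + t0)) *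
          (2 * |(g0 : ℝ)| * (H (t + t0) * r k ^ n (t + t0))) := by
        intro k
        have := hr k
        positivity
      rw [Real.log_mul hφR.ne' hda.ne', Real.log_mul hfac.ne'
        (Finset.prod_pos fun k _ => hpr k).ne', Real.log_prod (fun k _ => (hpr k).ne')] at h7
      have h8 : ∀ k, Real.log (Real.exp (γ * n (t + t0)) *
          (2 * |(g0 : ℝ)| * (H (t + t0) * r k ^ n (t + t0)))) =
          γ * n (t + t0) + (lg + Real.log (H (t + t0)) + n (t + t0) * a k) := by
        intro k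
        have := hr k
        rw [Real.log_mul (Real.exp_pos _).ne' (by positivity), Real.log_exp, hlogA]
      simp_rw [h8] at h7
      rw [Finset.sum_add_distrib, Finset.sum_add_distrib, Finset.sum_const, Finset.sum_const,
        Finset.card_univ, Fintype.card_fin, ← Finset.mul_sum, nsmul_eq_mul, nsmul_eq_mul] at h7
      have h9 : (m : ℝ) * (lg + Real.log (H (t + t0))) ≤ m * (2 * δ * n (t + t0)) := by
        gcongr
        linarith
      have h10 : (m : ℝ) * (2 * δ * n (t + t0)) ≤ η / 4 * n (t + t0) := by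
        have : (m : ℝ) * (2 * δ * n (t + t0)) = 2 * (m * δ) * n (t + t0) := by ring
        rw [this]
        have h8 : 2 * (m * δ) ≤ η / 4 := by linarith
        exact mul_le_mul_of_nonneg_right h8 h3.le
      have h11 : (m : ℝ) * (γ * n (t + t0)) ≤ η / 8 * n (t + t0) := by
        rw [← mul_assoc]
        exact mul_le_mul_of_nonneg_right hmγ h3.le
      have h12 : (n (t + t0) : ℝ) * ∑ k, a k = n (t + t0) * (κ - η) := by rw [hη]; ring
      have h13 : (0 : ℝ) < η * n (t + t0) := by positivity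
      have h14 : κ * (n (t + t0) : ℝ) = n (t + t0) * κ := by ring
      rw [hKc] at h4
      nlinarith)
    b hb
  obtain ⟨f, hf, hfr⟩ := key
  exact ⟨f, hf, hτ.frequently hfr⟩

end main

end Pool.Agent.TH717.ST
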