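import Mathlib
import Pool.Agent.TH717.ST.Small3
import Pool.Agent.TH717.SK.LinA

/-!
The core theorem for forms which are combinations of conjugate forms of one modulus, without the
condition that the roots are units.
-/

set_option autoImplicit false

open Finset Filter Topology

namespace Pool.Agent.TH717.ST

open NumberField
open scoped Matrix
open Pool.Agent.TH286.GT.GrowD (sg sg_coe sg_inj)
open Pool.Agent.TH717.SK (exists_minor ker_cast real_rows exch cramer_rows finrank_ker_lt)

section core2

variable {K : Type} [Field K] [NumberField K] [IsGalois ℚ K]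

/-- The core theorem for a form of one modulus class, without the condition on units. -/
theorem core2S [DecidableEq (𝓞 K)] (ψ : K →+* ℂ) (cj : K ≃ₐ[ℚ] K) (hcj : ∀ x, ψ (cj x) = (starRingEnd ℂ) (ψ x))
    (iK : 𝓞 K) (hi : ψ (iK : K) = Complex.I)
    {d : ℕ} (M : Matrix (Fin d) (Fin d) (𝓞 K)) (hM : M.det ≠ 0) (al : Fin d → 𝓞 K)
    (hal : ∀ i, al i ≠ 0) (C : Matrix (Fin d) (Fin d) ℤ)
    (hMC : M * C.map (Int.castRingHom (𝓞 K)) = Matrix.diagonal al * M)
    (hG : ∀ σ : K ≃ₐ[ℚ] K, ∃ π : Fin d → Fin d, ∀ i, (∀ k, sg σ (M i k) = M (π i) k) ∧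
      sg σ (al i) = al (π i))
    {A : Type} [DecidableEq A] (cl : Fin d → A)
    (hnd : ∀ i i', (∃ k : ℕ, 1 ≤ k ∧ al i ^ k = al i' ^ k) → cl i = cl i')
    (ε : Fin d → 𝓞 K) (ρ : ℝ) (hρ : 0 < ρ) (hερ : ∀ i, ε i ≠ 0 → ‖ψ (al i : K)‖ = ρ)
    (X : ℕ → Fin d → ℤ) (hX : ∀ t, X t ≠ 0)
    (n : ℕ → ℕ) (hXC : ∀ t, ∃ y, X t = (C ^ n t).mulVec y)
    (H : ℕ → ℝ) (hH : ∀ t, 1 ≤ H t) (hn : Tendsto n atTop atTop)
    (hHn : ∀ δ : ℝ, 0 < δ → ∀ᶠ t in atTop, Real.log (H t) ≤ δ * n t)
    (hs : ∀ t i, ‖ψ (∑ k, (M i k : K) * (X t k : K))‖ ≤ H t * ‖ψ (al i : K)‖ ^ n t)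
    (δ : ℝ) (hδ : 0 < δ)
    (h0 : ∀ t, ‖ψ (∑ i, (ε i : K) * ∑ k, (M i k : K) * (X t k : K))‖ ≤
      H t * (Real.exp (-δ) * ρ) ^ n t) :
    ∃ᶠ t in atTop, ∀ a : A,
      ∑ i with cl i = a, (ε i : K) * ∑ k, (M i k : K) * (X t k : K) = 0 := by
  classical
  -- a subspace of smallest rank
  obtain ⟨T, hT, hmin⟩ : ∃ T : Submodule ℤ (Fin d → ℤ), (∃ᶠ t in atTop, X t ∈ T) ∧
      ∀ T' : Submodule ℤ (Fin d → ℤ), (∃ᶠ t in atTop, X t ∈ T') →
        Module.finrank ℤ T ≤ Module.finrank ℤ T' := by
    have hne : ∃ r : ℕ, ∃ T : Submodule ℤ (Fin d → ℤ), (∃ᶠ t in atTop, X t ∈ T) ∧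
        Module.finrank ℤ T = r :=
      ⟨_, ⊤, (Eventually.of_forall fun t => Submodule.mem_top).frequently, rfl⟩
    obtain ⟨T, hT, hr⟩ := Nat.find_spec hne
    refine ⟨T, hT, fun T' hT' => ?_⟩
    rw [hr]
    exact Nat.find_min' hne ⟨T', hT', rfl⟩
  have hfun : ∀ f : T →ₗ[ℤ] ℤ, (∃ᶠ t in atTop, ∃ h : X t ∈ T, f ⟨X t, h⟩ = 0) → f = 0 := by
    intro f hf
    by_contra hne
    have h1 := hmin ((LinearMap.ker f).map T.subtype) (hf.mono (by
      rintro t ⟨h, h2⟩
      exact ⟨⟨X t, h⟩, h2, rfl⟩))
    have h2 := finrank_ker_lt T f hne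
    omega
  set m := Module.finrank ℤ T with hm
  set b := Module.finBasis ℤ T with hb
  set V : Fin d → Fin m → ℤ := fun k j => (b j : Fin d → ℤ) k with hV
  set N : Matrix (Fin d) (Fin m) (𝓞 K) := Nm M (fun j l => V l j)
    with hN
  have hcoord : ∀ (x : T) k, (x : Fin d → ℤ) k = ∑ j, V k j * b.repr x j := by
    intro x k
    conv_lhs => rw [← b.sum_repr x]
    simp only [hV, Submodule.coe_sum, Submodule.coe_smul, Finset.sum_apply, Pi.smul_apply,
      smul_eq_mul]
    exact Finset.sum_congr rfl fun j _ => mul_comm _ _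
  have hNK : ∀ i j, ((N i j : 𝓞 K) : K) = ∑ k, (M i k : K) * ((V k j : ℤ) : K) := by
    intro i j
    simp only [hN, Nm, Matrix.of_apply, RingOfIntegers.coe_eq_algebraMap, map_sum, map_mul,
      map_intCast]
  have hval : ∀ (x : T) i, ∑ k, (M i k : K) * (((x : Fin d → ℤ) k : ℤ) : K) =
      ∑ j, ((N i j : 𝓞 K) : K) * ((b.repr x j : ℤ) : K) := by
    intro x i
    have h1 : ∀ k, (((x : Fin d → ℤ) k : ℤ) : K) =
        ∑ j, ((V k j : ℤ) : K) * ((b.repr x j : ℤ) : K) := by
      intro k
      rw [hcoord x k]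
      push_cast
      rfl
    simp_rw [hNK, h1, Finset.mul_sum, Finset.sum_mul]
    rw [Finset.sum_comm]
    exact Finset.sum_congr rfl fun j _ => Finset.sum_congr rfl fun k _ => by ring
  have hMK : (M.map (algebraMap (𝓞 K) K)).det ≠ 0 := by
    rw [← RingHom.mapMatrix_apply, ← RingHom.map_det]
    intro h
    rw [map_eq_zero_iff _ RingOfIntegers.coe_injective] at h
    exact hM h
  have hbV : LinearIndependent ℤ (fun j : Fin m => fun l => V l j) := by
    have h1 := b.linearIndependent.map' T.subtype (by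
      rw [Submodule.ker_subtype])
    exact h1
  have hker : ∀ y : Fin m → K, (N.map (algebraMap (𝓞 K) K)).mulVec y = 0 → y = 0 := by
    intro y hy
    apply ker_cast (F := K) V
    · intro y hy
      have h1 : ∑ j, y j • b j = 0 := by
        ext k
        simp only [Submodule.coe_sum, Submodule.coe_smul, Finset.sum_apply, Pi.smul_apply,
          smul_eq_mul, ZeroMemClass.coe_zero, Pi.zero_apply]
        rw [← hy k]
        exact Finset.sum_congr rfl fun j _ => mul_comm _ _
      funext j
      exact (Fintype.linearIndependent_iff.1 b.linearIndependent) y h1 j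
    · have h2 : (fun k => ∑ j, ((V k j : ℤ) : K) * y j) = 0 := by
        apply Matrix.eq_zero_of_mulVec_eq_zero hMK
        funext i
        change ∑ k, (M i k : K) * ∑ j, ((V k j : ℤ) : K) * y j = 0
        have h3 : ∑ j, ((N i j : 𝓞 K) : K) * y j = 0 := congrFun hy i
        rw [← h3]
        simp_rw [hNK, Finset.mul_sum, Finset.sum_mul]
        rw [Finset.sum_comm]
        exact Finset.sum_congr rfl fun j _ => Finset.sum_congr rfl fun k _ => by ring
      exact fun k => congrFun h2 k
  have hdet : ∀ s : Fin m → Fin d, (((N.submatrix s id).det : 𝓞 K) : K) =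
      ((N.map (algebraMap (𝓞 K) K)).submatrix s id).det := by
    intro s
    rw [RingOfIntegers.coe_eq_algebraMap, RingHom.map_det]
    rfl
  have hN0 : ∀ s : Fin m → Fin d, (N.submatrix s id).det ≠ 0 ↔
      ((N.map (algebraMap (𝓞 K) K)).submatrix s id).det ≠ 0 := by
    intro s
    rw [← hdet, Ne, Ne, RingOfIntegers.coe_eq_zero_iff]
  have hpos : ∀ i, 0 < ‖ψ (al i : K)‖ := by
    intro i
    rw [norm_pos_iff]
    intro h
    rw [map_eq_zero] at h
    exact hal i (by exact_mod_cast h)
  have hm1 : 1 ≤ m := by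
    obtain ⟨t, ht⟩ := hT.exists
    rw [hm, Nat.succ_le_iff, Module.finrank_pos_iff]
    refine ⟨⟨⟨X t, ht⟩, 0, fun h => hX t ?_⟩⟩
    exact congrArg Subtype.val h
  -- the subspace theorem
  set κ := rate (sel N) (pr al) with hκ
  have hcontra : ∀ W : Matrix (Fin m) (Fin m) (𝓞 K), W.det ≠ 0 → ∀ r : Fin m → ℝ,
      (∀ k, 0 < r k) → ∑ k, Real.log (r k) < κ → (∀ t (ht : X t ∈ T) k,
        ‖ψ (∑ j, ((W k j : 𝓞 K) : K) * ((b.repr ⟨X t, ht⟩ j : ℤ) : K))‖ ≤ H t * r k ^ n t) →
        False := by
    intro W hW r hr hprod hsz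
    obtain ⟨τ, hτ, hτT⟩ := Filter.extraction_of_frequently_atTop hT
    obtain ⟨f0, ⟨i0, hi0⟩, hfr⟩ := small_caseS ψ cj hcj iK hi hm1 M hM al hal C hMC
      (fun j l => V l j) hbV W hW r hr hprod
      (fun t => fun j => b.repr ⟨X (τ t), hτT t⟩ j) (fun t => X (τ t)) (fun t => hX _)
      (fun t l => (hcoord ⟨X (τ t), hτT t⟩ l).trans
        (Finset.sum_congr rfl fun j _ => mul_comm _ _))
      (fun t => n (τ t)) (fun t => hXC _) (fun t => H (τ t)) (fun t => hH _)
      (hn.comp hτ.tendsto_atTop)
      (fun δ hδ => hτ.tendsto_atTop.eventually (hHn δ hδ))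
      (fun t k => hsz (τ t) (hτT t) k)
    set f : T →ₗ[ℤ] ℤ := (∑ k, f0 k • (LinearMap.proj k : (Fin d → ℤ) →ₗ[ℤ] ℤ)) ∘ₗ T.subtype
      with hf
    have hfx : ∀ x : T, f x = ∑ k, f0 k * (x : Fin d → ℤ) k := by
      intro x
      simp [hf]
    have h1 : f = 0 := hfun f (hτ.tendsto_atTop.frequently (hfr.mono fun t ht => ⟨hτT t, by
      rw [hfx]
      exact ht⟩))
    apply hi0
    have h2 := hfx (b i0)
    rw [h1] at h2
    exact h2.symm
  obtain ⟨s, hs'⟩ := exists_minor _ hker
  have hsumlog : ∀ s : Fin m → Fin d, ∑ k, Real.log ‖ψ (al (s k) : K)‖ =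
      Real.log ‖ψ ((pr al s : 𝓞 K) : K)‖ := by
    intro s
    unfold pr
    rw [RingOfIntegers.coe_eq_algebraMap, map_prod, map_prod, norm_prod,
      Real.log_prod (fun k _ => (hpos (s k)).ne')]
  have hβ : ∀ s ∈ sel N, pr al s ≠ 0 := fun s _ => Finset.prod_ne_zero_iff.2 fun k _ => hal _
  by_cases hcase : ∃ s ∈ sel N, Real.log ‖ψ ((pr al s : 𝓞 K) : K)‖ < κ
  · exfalso
    obtain ⟨s, hs1, hs2⟩ := hcase
    refine hcontra (N.submatrix s id) ((mem_sel N s).1 hs1) (fun k => ‖ψ (al (s k) : K)‖)
      (fun k => hpos (s k)) (by rw [hsumlog]; exact hs2) ?_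
    intro t ht k
    have h1 := hval ⟨X t, ht⟩ (s k)
    have h2 := hs t (s k)
    rw [h1] at h2
    exact h2
  · -- roots of unity
    push Not at hcase
    obtain ⟨hlog, hpair⟩ := unit_case ψ (sel N) (pr al) hβ (by
      intro σ s hs1
      obtain ⟨π, hπ⟩ := hG σ
      refine ⟨π ∘ s, ?_, ?_⟩
      · rw [mem_sel] at hs1 ⊢
        have h2 : N.submatrix (π ∘ s) id = (N.submatrix s id).map (sg σ) := by
          ext i j
          simp only [Matrix.submatrix_apply, Function.comp_apply, id, Matrix.map_apply, hN, Nm,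
            Matrix.of_apply, map_sum, map_mul, map_intCast]
          refine Finset.sum_congr rfl fun k _ => ?_
          rw [(hπ (s i)).1 k]
        rw [h2, ← RingHom.mapMatrix_apply, ← RingHom.map_det]
        intro h3
        rw [map_eq_zero_iff _ (sg_inj σ)] at h3
        exact hs1 h3
      · unfold pr
        rw [map_prod]
        exact Finset.prod_congr rfl fun j _ => (hπ (s j)).2) hcase
    have hex : ∀ j l, ((N.map (algebraMap (𝓞 K) K)).submatrix (Function.update s j l) id).det ≠
        0 → cl l = cl (s j) := by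
      intro j l hl
      have hs1 : s ∈ sel N := (mem_sel N s).2 ((hN0 s).2 hs')
      have hs2 : Function.update s j l ∈ sel N := (mem_sel N _).2 ((hN0 _).2 hl)
      obtain ⟨k, hk, hkk⟩ := hpair s hs1 _ hs2
      apply hnd
      refine ⟨k, hk, ?_⟩
      have h3 : pr al (Function.update s j l) * al (s j) = pr al s * al l := by
        unfold pr
        have h4 : (fun i => al (Function.update s j l i)) =
            Function.update (fun i => al (s i)) j (al l) := by
          funext i
          by_cases h : i = j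
          · subst h; simp
          · simp [Function.update_of_ne h]
        have h5 : ∏ i, al (Function.update s j l i) =
            al l * ∏ i ∈ Finset.univ \ {j}, al (s i) := by
          rw [show (∏ i, al (Function.update s j l i)) =
            ∏ i, Function.update (fun i => al (s i)) j (al l) i from by rw [← h4],
            Finset.prod_update_of_mem (Finset.mem_univ j)]
        have h6 : ∏ i, al (s i) = al (s j) * ∏ i ∈ Finset.univ \ {j}, al (s i) := by
          rw [← Finset.prod_sdiff (Finset.subset_univ {j}), Finset.prod_singleton, mul_comm]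
        rw [h5, h6]
        ring
      have h7 := congrArg (fun x => x ^ k) h3
      simp only [mul_pow] at h7
      rw [← hkk] at h7
      exact (mul_left_cancel₀ (pow_ne_zero k (hβ s hs1)) h7).symm
    -- the form
    set g : Fin m → 𝓞 K := fun j => ∑ i, ε i * N i j with hg
    have hs1 : (N.submatrix s id).det ≠ 0 := (hN0 s).2 hs'
    have hWdet : ∀ j0, ((N.submatrix s id).updateRow j0 g).det =
        ∑ l, ε l * (N.submatrix (Function.update s j0 l) id).det := by
      intro j0
      rw [← Matrix.cramer_transpose_apply]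
      have h1 : g = ∑ l, ε l • (N l) := by
        funext j
        simp [hg, Finset.sum_apply]
      rw [h1, map_sum, Finset.sum_apply]
      refine Finset.sum_congr rfl fun l _ => ?_
      rw [map_smul, Pi.smul_apply, smul_eq_mul, Matrix.cramer_transpose_apply]
      congr 2
      ext a b
      by_cases h : a = j0
      · subst h
        simp
      · rw [Matrix.updateRow_ne h]
        simp [Function.update_of_ne h]
    have hgz : g = 0 := by
      by_contra hgne
      obtain ⟨j0, hj0⟩ : ∃ j0, ((N.submatrix s id).updateRow j0 g).det ≠ 0 := by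
        by_contra hcon
        push Not at hcon
        apply hgne
        have h1 := Matrix.mulVec_cramer (N.submatrix s id)ᵀ g
        have h2 : Matrix.cramer (N.submatrix s id)ᵀ g = 0 := by
          funext j
          rw [Matrix.cramer_transpose_apply]
          exact hcon j
        rw [h2, Matrix.mulVec_zero, Matrix.det_transpose] at h1
        exact (smul_eq_zero.1 h1.symm).resolve_left hs1
      have hj0' := hj0
      rw [hWdet j0] at hj0'
      obtain ⟨l, -, hl⟩ := Finset.exists_ne_zero_of_sum_ne_zero hj0'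
      have hl1 : ε l ≠ 0 := left_ne_zero_of_mul hl
      have hl2 := hex j0 l ((hN0 _).1 (right_ne_zero_of_mul hl))
      have hρ0 : ‖ψ (al (s j0) : K)‖ = ρ := by
        have hs1' : s ∈ sel N := (mem_sel N s).2 hs1
        have hs2' : Function.update s j0 l ∈ sel N :=
          (mem_sel N _).2 (right_ne_zero_of_mul hl)
        have e1 := hlog s hs1'
        have e2 := hlog _ hs2'
        rw [← hsumlog] at e1 e2
        have e3 : ∑ k, Real.log ‖ψ (al (Function.update s j0 l k) : K)‖ =
            Real.log ‖ψ (al l : K)‖ + ∑ k ∈ Finset.univ \ {j0}, Real.log ‖ψ (al (s k) : K)‖ := by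
          have h4 : (fun k => Real.log ‖ψ (al (Function.update s j0 l k) : K)‖) =
              Function.update (fun k => Real.log ‖ψ (al (s k) : K)‖) j0
                (Real.log ‖ψ (al l : K)‖) := by
            funext i
            by_cases h : i = j0
            · subst h; simp
            · simp [Function.update_of_ne h]
          rw [show (∑ k, Real.log ‖ψ (al (Function.update s j0 l k) : K)‖) =
            ∑ k, Function.update (fun k => Real.log ‖ψ (al (s k) : K)‖) j0
              (Real.log ‖ψ (al l : K)‖) k from by rw [← h4],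
            Finset.sum_update_of_mem (Finset.mem_univ j0)]
        have e4 : ∑ k, Real.log ‖ψ (al (s k) : K)‖ = Real.log ‖ψ (al (s j0) : K)‖ +
            ∑ k ∈ Finset.univ \ {j0}, Real.log ‖ψ (al (s k) : K)‖ := by
          rw [← Finset.sum_sdiff (Finset.subset_univ {j0}), Finset.sum_singleton, add_comm]
        have e5 : Real.log ‖ψ (al (s j0) : K)‖ = Real.log ‖ψ (al l : K)‖ := by linarith
        rw [Real.log_injOn_pos (hpos (s j0)) (hpos l) e5]
        exact hερ l hl1
      refine hcontra ((N.submatrix s id).updateRow j0 g) hj0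
        (Function.update (fun k => ‖ψ (al (s k) : K)‖) j0 (Real.exp (-δ) * ρ)) ?_ ?_ ?_
      · intro k
        by_cases hk : k = j0
        · subst hk
          rw [Function.update_self]
          positivity
        · rw [Function.update_of_ne hk]
          exact hpos _
      · have h4 : (fun k => Real.log (Function.update (fun k => ‖ψ (al (s k) : K)‖) j0
            (Real.exp (-δ) * ρ) k)) = Function.update (fun k => Real.log ‖ψ (al (s k) : K)‖) j0
              (Real.log (Real.exp (-δ) * ρ)) := by
          funext i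
          by_cases h : i = j0
          · subst h; simp
          · simp [Function.update_of_ne h]
        rw [show (∑ k, Real.log (Function.update (fun k => ‖ψ (al (s k) : K)‖) j0
            (Real.exp (-δ) * ρ) k)) = ∑ k, Function.update (fun k => Real.log ‖ψ (al (s k) : K)‖) j0
              (Real.log (Real.exp (-δ) * ρ)) k from by rw [← h4],
            Finset.sum_update_of_mem (Finset.mem_univ j0)]
        have e1 := hlog s ((mem_sel N s).2 hs1)
        rw [← hsumlog, ← Finset.sum_sdiff (Finset.subset_univ {j0}), Finset.sum_singleton, hρ0]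
          at e1
        rw [Real.log_mul (Real.exp_pos _).ne' hρ.ne', Real.log_exp]
        linarith
      · intro t ht k
        by_cases hk : k = j0
        · subst hk
          rw [Function.update_self]
          have h1 := h0 t
          have h2 : ∑ i, (ε i : K) * ∑ k, (M i k : K) * (X t k : K) =
              ∑ j, ((((N.submatrix s id).updateRow k g) k j : 𝓞 K) : K) *
                ((b.repr ⟨X t, ht⟩ j : ℤ) : K) := by
            have h3 : ∀ i, ∑ k, (M i k : K) * (X t k : K) =
                ∑ j, ((N i j : 𝓞 K) : K) * ((b.repr ⟨X t, ht⟩ j : ℤ) : K) :=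
              fun i => hval ⟨X t, ht⟩ i
            simp_rw [h3, Matrix.updateRow_self, hg, RingOfIntegers.coe_eq_algebraMap, map_sum,
              map_mul, Finset.mul_sum, Finset.sum_mul]
            rw [Finset.sum_comm]
            exact Finset.sum_congr rfl fun j _ => Finset.sum_congr rfl fun i _ => by ring
          rw [h2] at h1
          exact h1
        · rw [Function.update_of_ne hk]
          have h1 := hval ⟨X t, ht⟩ (s k)
          have h2 := hs t (s k)
          rw [h1] at h2
          simp only [Matrix.updateRow_ne hk]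
          exact h2
    have hεN : ∀ j, ∑ i, (ε i : K) * ((N i j : 𝓞 K) : K) = 0 := by
      intro j
      have h1 := congrArg (algebraMap (𝓞 K) K) (congrFun hgz j)
      simp only [hg, map_sum, map_mul, Pi.zero_apply, map_zero] at h1
      exact h1
    refine hT.mono fun t ht a => ?_
    have h1 := exch (N.map (algebraMap (𝓞 K) K)) cl s hs' hex (fun i => (ε i : K)) hεN
      (fun j => ((b.repr ⟨X t, ht⟩ j : ℤ) : K)) a
    rw [← h1]
    refine Finset.sum_congr rfl fun i _ => ?_
    rw [hval ⟨X t, ht⟩ i]
    rfl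

end core2

end Pool.Agent.TH717.ST
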