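import Mathlib
import Pool.Agent.TH717.SK.Fam

/-!
The data of a squarefree polynomial: roots, forms, companion matrix.
-/

set_option autoImplicit false

open Finset Polynomial

namespace Pool.Agent.TH717.ST

open NumberField
open Pool.Agent.TH286.GT.GrowD (sg sg_coe sg_inj)
open Pool.Agent.H692R2.USS

/-- the companion matrix -/
def comp (f : ℤ[X]) : Matrix (Fin f.natDegree) (Fin f.natDegree) ℤ :=
  Matrix.of fun k j => if (k : ℕ) + 1 < f.natDegree then (if (j : ℕ) = k + 1 then 1 else 0)
    else -f.coeff j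

theorem comp_state (f : ℤ[X]) (hf : f.Monic) (u : ℕ → ℤ) (hu : Ann f u) (n : ℕ) :
    (fun k : Fin f.natDegree => u (n + 1 + k)) =
      (comp f).mulVec (fun k : Fin f.natDegree => u (n + k)) := by
  funext k
  simp only [Matrix.mulVec, dotProduct, comp, Matrix.of_apply]
  split_ifs with h
  · rw [Finset.sum_eq_single ⟨k + 1, h⟩]
    · simp only [if_true, one_mul]
      congr 1
      omega
    · intro j _ hj
      rw [if_neg, zero_mul]
      intro h'
      exact hj (Fin.ext h')
    · intro h'; exact absurd (Finset.mem_univ _) h'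
  · have hk : (k : ℕ) + 1 = f.natDegree := by
      have := k.2
      omega
    have h1 := (ann_iff (N := f.natDegree + 1) (Nat.lt_succ_self _)).1 hu n
    rw [Finset.sum_range_succ, hf.coeff_natDegree, one_mul, Finset.sum_range] at h1
    have h2 : u (n + 1 + k) = u (n + f.natDegree) := by
      congr 1
      omega
    rw [h2]
    have h3 : ∑ j : Fin f.natDegree, -f.coeff j * u (n + j) =
        -∑ j : Fin f.natDegree, f.coeff j * u (n + j) := by
      rw [← Finset.sum_neg_distrib]
      exact Finset.sum_congr rfl fun j _ => by ring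
    rw [h3]
    linarith

theorem comp_pow (f : ℤ[X]) (hf : f.Monic) (u : ℕ → ℤ) (hu : Ann f u) (m n : ℕ) :
    (fun k : Fin f.natDegree => u (m + n + k)) =
      ((comp f) ^ n).mulVec (fun k : Fin f.natDegree => u (m + k)) := by
  induction n with
  | zero => simp
  | succ n ih =>
    have h1 := comp_state f hf u hu (m + n)
    rw [pow_succ', ← Matrix.mulVec_mulVec, ← ih, ← h1]
    funext k
    congr 1

section data

variable {K : Type} [Field K] [NumberField K]

theorem comp_form (f : ℤ[X]) (hd : 1 ≤ f.natDegree) (q : (𝓞 K)[X]) (hq : q.Monic)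
    (hqd : q.natDegree + 1 = f.natDegree) (r : 𝓞 K)
    (hfq : f.map (algebraMap ℤ (𝓞 K)) = (X - C r) * q) (j : Fin f.natDegree) :
    ∑ k : Fin f.natDegree, q.coeff k * ((comp f k j : ℤ) : 𝓞 K) = r * q.coeff j := by
  have h1 : ∑ k : Fin f.natDegree, q.coeff k * ((comp f k j : ℤ) : 𝓞 K) =
      ∑ k ∈ range f.natDegree, q.coeff k * (((if k + 1 < f.natDegree then
        (if (j : ℕ) = k + 1 then 1 else 0) else -f.coeff j : ℤ)) : 𝓞 K) := by
    rw [Finset.sum_range]
    rfl
  have key : ∀ dd jn : ℕ, q.natDegree + 1 = dd → jn < dd →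
      ∑ k ∈ range dd, q.coeff k * (((if k + 1 < dd then
        (if jn = k + 1 then 1 else 0) else -f.coeff jn : ℤ)) : 𝓞 K) = r * q.coeff jn := by
    intro dd jn hdd hjd
    subst hdd
    have h2 : ((f.coeff jn : ℤ) : 𝓞 K) = (f.map (algebraMap ℤ (𝓞 K))).coeff jn := by
      rw [coeff_map]
      rfl
    rw [Finset.sum_range_succ, if_neg (lt_irrefl _), hq.coeff_natDegree, one_mul,
      Int.cast_neg, h2, hfq]
    have h3 : ∑ k ∈ range q.natDegree, q.coeff k * (((if k + 1 < q.natDegree + 1 then
        (if jn = k + 1 then 1 else 0) else -f.coeff jn : ℤ)) : 𝓞 K) =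
        ∑ k ∈ range q.natDegree, if jn = k + 1 then q.coeff k else 0 := by
      refine Finset.sum_congr rfl fun k hk => ?_
      rw [if_pos (by have := Finset.mem_range.1 hk; omega)]
      split_ifs <;> simp
    rw [h3]
    rcases Nat.eq_zero_or_pos jn with hj0 | hj0
    · rw [hj0, Finset.sum_eq_zero (fun k _ => if_neg (by omega)), mul_coeff_zero]
      simp
    · obtain ⟨j', hj'⟩ : ∃ j', jn = j' + 1 := ⟨jn - 1, by omega⟩
      rw [hj', Finset.sum_eq_single j']
      · rw [if_pos rfl, sub_mul, coeff_sub, coeff_X_mul, coeff_C_mul]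
        ring
      · intro k _ hk
        rw [if_neg (by omega)]
      · intro h
        rw [Finset.mem_range] at h
        omega
  rw [h1]
  exact key _ _ hqd j.2

theorem simple_data (f : ℤ[X]) (hf : f.Monic) (hd : 1 ≤ f.natDegree)
    (hspl : (f.map (algebraMap ℤ (𝓞 K))).Splits) (hs : Squarefree (f.map (Int.castRingHom ℚ)))
    (h0 : f.coeff 0 ≠ 0) :
    ∃ (q : Fin f.natDegree → (𝓞 K)[X]) (rt : Fin f.natDegree → 𝓞 K),
      (∀ i, (q i).natDegree < f.natDegree) ∧ (∀ i, rt i ≠ 0) ∧
      (∀ i, f.map (algebraMap ℤ (𝓞 K)) ∣ (X - C (rt i)) ^ 1 * q i) ∧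
      (Matrix.of fun i k : Fin f.natDegree => (q i).coeff k).det ≠ 0 ∧
      (∀ σ : K ≃ₐ[ℚ] K, ∃ π : Fin f.natDegree → Fin f.natDegree,
        ∀ i, (q i).map (sg σ) = q (π i) ∧ sg σ (rt i) = rt (π i)) ∧
      (Matrix.of fun i k : Fin f.natDegree => (q i).coeff k) *
        (comp f).map (Int.castRingHom (𝓞 K)) =
        Matrix.diagonal rt * Matrix.of fun i k : Fin f.natDegree => (q i).coeff k := by
  classical
  set P := f.map (algebraMap ℤ (𝓞 K)) with hPdef
  have hPm : P.Monic := hf.map _
  have hPd : P.natDegree = f.natDegree := hf.natDegree_map _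
  have hP0 : P ≠ 0 := hPm.ne_zero
  have hsep : (f.map (algebraMap ℤ K)).Separable := by
    have h1 : (f.map (Int.castRingHom ℚ)).Separable :=
      PerfectField.separable_iff_squarefree.2 hs
    have := h1.map (f := algebraMap ℚ K)
    rw [Polynomial.map_map] at this
    rwa [show (algebraMap ℤ K) = (algebraMap ℚ K).comp (Int.castRingHom ℚ) from
      RingHom.ext_int _ _]
  have hnodup : P.roots.Nodup := by
    have h1 : (P.map (algebraMap (𝓞 K) K)).roots.Nodup := by
      rw [hPdef, Polynomial.map_map, show (algebraMap (𝓞 K) K).comp (algebraMap ℤ (𝓞 K)) =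
        algebraMap ℤ K from RingHom.ext_int _ _]
      exact nodup_roots hsep
    rw [hspl.roots_map_of_injective RingOfIntegers.coe_injective] at h1
    exact Multiset.Nodup.of_map _ h1
  set S : Finset (𝓞 K) := P.roots.toFinset with hS
  have hcard : S.card = f.natDegree := by
    rw [hS, Multiset.toFinset_card_of_nodup hnodup, ← hPd]
    exact hspl.natDegree_eq_card_roots.symm
  have hSmem : ∀ α, α ∈ S ↔ P.IsRoot α := by
    intro α
    rw [hS, Multiset.mem_toFinset, mem_roots hP0]
  set eq : Fin f.natDegree ≃ S := (Finset.equivFinOfCardEq hcard).symm with heq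
  set rt : Fin f.natDegree → 𝓞 K := fun i => (eq i : 𝓞 K) with hrt
  have hrtS : ∀ i, P.IsRoot (rt i) := fun i => (hSmem _).1 (eq i).2
  have hrtinj : Function.Injective rt := fun i j h => eq.injective (Subtype.ext h)
  set Q : 𝓞 K → (𝓞 K)[X] := fun α => P /ₘ (X - C α) with hQ
  have hQP : ∀ α, P.IsRoot α → (X - C α) * Q α = P := fun α hα =>
    mul_divByMonic_eq_iff_isRoot.2 hα
  have hQm : ∀ α, P.IsRoot α → (Q α).Monic := fun α hα =>
    (monic_X_sub_C α).of_mul_monic_left (by rw [hQP α hα]; exact hPm)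
  have hQd : ∀ α, P.IsRoot α → (Q α).natDegree + 1 = f.natDegree := by
    intro α hα
    rw [← hPd]
    conv_rhs => rw [← hQP α hα]
    rw [(monic_X_sub_C α).natDegree_mul' (hQm α hα).ne_zero, natDegree_X_sub_C, add_comm]
  have hPσ : ∀ σ : K ≃ₐ[ℚ] K, P.map (sg σ) = P := by
    intro σ
    rw [hPdef, Polynomial.map_map]
    congr 1
    exact RingHom.ext_int _ _
  have hrtσ : ∀ (σ : K ≃ₐ[ℚ] K) α, P.IsRoot α → P.IsRoot (sg σ α) := by
    intro σ α h1
    have h2 := h1.map (f := sg σ)
    rwa [hPσ] at h2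
  refine ⟨fun i => Q (rt i), rt, ?_, ?_, ?_, ?_, ?_, ?_⟩
  · intro i
    have := hQd _ (hrtS i)
    simp only
    omega
  · intro i h
    have h1 := hrtS i
    rw [h, IsRoot, ← coeff_zero_eq_eval_zero, hPdef, coeff_map] at h1
    apply h0
    have h2 : ((f.coeff 0 : ℤ) : 𝓞 K) = 0 := h1
    exact_mod_cast h2
  · intro i
    rw [pow_one]
    simp only
    rw [hQP _ (hrtS i)]
  · set V : Matrix (Fin f.natDegree) (Fin f.natDegree) (𝓞 K) := Matrix.of fun k j => rt j ^ (k : ℕ)
      with hV
    have h1 : (Matrix.of fun i k : Fin f.natDegree => (Q (rt i)).coeff k) * V =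
        Matrix.diagonal fun i => (Q (rt i)).eval (rt i) := by
      refine Matrix.ext fun i j => ?_
      have h2 : ((Matrix.of fun i k : Fin f.natDegree => (Q (rt i)).coeff k) * V) i j =
          (Q (rt i)).eval (rt j) := by
        rw [Matrix.mul_apply, eval_eq_sum_range' (n := f.natDegree) (by
          have := hQd _ (hrtS i)
          omega), Finset.sum_range]
        rfl
      rw [h2]
      by_cases hij : i = j
      · subst hij
        rw [Matrix.diagonal_apply_eq]
      · rw [Matrix.diagonal_apply_ne _ hij]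
        have h3 := hrtS j
        rw [← hQP _ (hrtS i), IsRoot, eval_mul, eval_sub, eval_X, eval_C, mul_eq_zero] at h3
        rcases h3 with h3 | h3
        · exact absurd (hrtinj (sub_eq_zero.1 h3)).symm hij
        · exact h3
    have h2 : (Matrix.diagonal fun i => (Q (rt i)).eval (rt i)).det ≠ 0 := by
      rw [Matrix.det_diagonal]
      refine Finset.prod_ne_zero_iff.2 fun i _ => ?_
      intro h3
      have h4 : rt i ∈ (Q (rt i)).roots := (mem_roots (hQm _ (hrtS i)).ne_zero).2 h3
      have h5 : P.roots = {rt i} + (Q (rt i)).roots := by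
        conv_lhs => rw [← hQP _ (hrtS i)]
        rw [roots_mul (by rw [hQP _ (hrtS i)]; exact hP0), roots_X_sub_C]
      rw [h5, Multiset.singleton_add, Multiset.nodup_cons] at hnodup
      exact hnodup.1 h4
    rw [← h1, Matrix.det_mul] at h2
    exact left_ne_zero_of_mul h2
  · intro σ
    refine ⟨fun i => eq.symm ⟨sg σ (rt i), (hSmem _).2 (hrtσ σ _ (hrtS i))⟩, fun i => ?_⟩
    have h1 : rt (eq.symm ⟨sg σ (rt i), (hSmem _).2 (hrtσ σ _ (hrtS i))⟩) = sg σ (rt i) := by
      simp [hrt]
    simp only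
    rw [h1]
    refine ⟨?_, rfl⟩
    simp only [hQ]
    rw [map_divByMonic _ (monic_X_sub_C _), hPσ, Polynomial.map_sub, map_X, map_C]
  · refine Matrix.ext fun i j => ?_
    rw [Matrix.mul_apply, Matrix.diagonal_mul]
    have h1 := comp_form f hd (Q (rt i)) (hQm _ (hrtS i)) (hQd _ (hrtS i)) (rt i)
      (hQP _ (hrtS i)).symm j
    simp only [Matrix.of_apply, Matrix.map_apply, eq_intCast]
    rw [← h1]

end data

end Pool.Agent.TH717.ST
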