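import Mathlib
import Pool.Agent.TH717.SK.Gro
import Pool.Agent.TH717.ST.Core2S
import Pool.Agent.TH717.ST.Sim

/-!
Lower bounds for the part of one modulus, for squarefree polynomials.
-/

set_option autoImplicit false

open Finset Filter Topology Polynomial

namespace Pool.Agent.TH717.ST

open NumberField
open Pool.Agent.TH286.GT.GrowD (sg sg_coe sg_inj)
open Pool.Agent.H692R2.USS
open Pool.Agent.TH717.SK (vv vv_eq CS bound ann_cast log_est part_bound)

section data

variable {K : Type} [Field K] [NumberField K] [DecidableEq (𝓞 K)]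

variable [IsGalois ℚ K]

/-- lower bound for the part of one modulus -/
theorem part_boundS (ψ : K →+* ℂ) (cj : K ≃ₐ[ℚ] K)
    (hcj : ∀ x, ψ (cj x) = (starRingEnd ℂ) (ψ x)) (iK : 𝓞 K) (hi : ψ (iK : K) = Complex.I)
    {f : ℤ[X]} (hf : f.Monic) (hd : 1 ≤ f.natDegree) (q : Fin f.natDegree → (𝓞 K)[X])
    (rt : Fin f.natDegree → 𝓞 K)
    (hq : ∀ i, (q i).natDegree < f.natDegree) (hrt : ∀ i, rt i ≠ 0)
    (hdvd : ∀ i, f.map (algebraMap ℤ (𝓞 K)) ∣ (X - C (rt i)) ^ 1 * q i)
    (hM : (Matrix.of fun i k : Fin f.natDegree => (q i).coeff k).det ≠ 0)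
    (hG : ∀ σ : K ≃ₐ[ℚ] K, ∃ π : Fin f.natDegree → Fin f.natDegree,
      ∀ i, (q i).map (sg σ) = q (π i) ∧ sg σ (rt i) = rt (π i))
    (hMC : (Matrix.of fun i k : Fin f.natDegree => (q i).coeff k) *
        (comp f).map (Int.castRingHom (𝓞 K)) =
        Matrix.diagonal rt * Matrix.of fun i k : Fin f.natDegree => (q i).coeff k)
    (ε : Fin f.natDegree → 𝓞 K) (L : ℕ) (hL : 1 ≤ L)
    (hnd : ∀ i i', (∃ k : ℕ, 1 ≤ k ∧ (rt i ^ L) ^ k = (rt i' ^ L) ^ k) → rt i ^ L = rt i' ^ L)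
    (ρ : ℝ) (hρ : 0 < ρ) (δ : ℝ) (hδ : 0 < δ) :
    ∃ B : ℝ, 0 < B ∧ ∀ u : ℕ → ℤ, Ann f u → ∀ A : ℝ, 1 ≤ A →
      (∀ k < f.natDegree, |(u k : ℝ)| ≤ A) → ∀ n : ℕ,
      ‖ψ ((∑ i with ‖ψ (rt i : K)‖ = ρ, ε i * vv (q i) u n : 𝓞 K) : K)‖ ≤
        (Real.exp (-δ) * ρ) ^ n →
      (n : ℝ) ≤ B * (1 + Real.log A) ∨
        CS (fun i => rt i ^ L) (fun i => if ‖ψ (rt i : K)‖ = ρ then ε i else 0) q u n := by
  classical
  set φ : 𝓞 K →+* ℂ := ψ.comp (algebraMap (𝓞 K) K) with hφ
  set ε' : Fin f.natDegree → 𝓞 K := fun i => if ‖ψ (rt i : K)‖ = ρ then ε i else 0 with hε'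
  have hφinj : Function.Injective φ := ψ.injective.comp RingOfIntegers.coe_injective
  have hφrt : ∀ i, φ (rt i) ≠ 0 := fun i h =>
    hrt i (hφinj (by rw [h, map_zero]))
  -- sizes
  choose Bi hBi0 hBi using fun i => bound φ (f.map (algebraMap ℤ (𝓞 K))) (hf.map _) (q i) (rt i)
    (hφrt i) 1 (hdvd i)
  set BB : ℝ := 1 + ∑ i, Bi i with hBB
  have hBB1 : 1 ≤ BB := by
    rw [hBB]
    have : 0 ≤ ∑ i, Bi i := Finset.sum_nonneg fun i _ => hBi0 i
    linarith
  have hBiB : ∀ i, Bi i ≤ BB := by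
    intro i
    rw [hBB]
    have := Finset.single_le_sum (f := Bi) (fun i _ => hBi0 i) (Finset.mem_univ i)
    linarith
  set G : ℝ := 1 + (1 + ρ) ^ L + ∑ i, (1 + ‖φ (rt i)‖) ^ L with hG'
  have hG0 : 0 ≤ ∑ i, (1 + ‖φ (rt i)‖) ^ L := Finset.sum_nonneg fun i _ => by positivity
  have hρL : 0 < (1 + ρ) ^ L := by positivity
  have hG1 : 1 ≤ G := by
    rw [hG']
    linarith
  have hsize : ∀ u : ℕ → ℤ, Ann f u → ∀ A : ℝ, 1 ≤ A → (∀ k < f.natDegree, |(u k : ℝ)| ≤ A) →
      ∀ n i, ‖φ (vv (q i) u n)‖ ≤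
        (BB * A * (n + 1) ^ f.natDegree * G) * ‖φ (rt i ^ L)‖ ^ (n / L) := by
    intro u hu A hA hk n i
    have h1 := hBi i _ (ann_cast hu) A (by linarith) (by
      rw [hf.natDegree_map]
      intro k hk'
      rw [map_intCast, Complex.norm_intCast]
      exact hk k hk') n
    refine h1.trans ?_
    have h2 : ‖φ (rt i)‖ ^ n ≤ G * ‖φ (rt i ^ L)‖ ^ (n / L) := by
      have h3 : ‖φ (rt i)‖ ^ n = ‖φ (rt i)‖ ^ (n % L) * ‖φ (rt i ^ L)‖ ^ (n / L) := by
        rw [map_pow, norm_pow, ← pow_mul, ← pow_add, Nat.mod_add_div]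
      rw [h3]
      apply mul_le_mul_of_nonneg_right _ (by positivity)
      calc ‖φ (rt i)‖ ^ (n % L) ≤ (1 + ‖φ (rt i)‖) ^ (n % L) := by gcongr; linarith
        _ ≤ (1 + ‖φ (rt i)‖) ^ L := by
            apply pow_le_pow_right₀
            · linarith [norm_nonneg (φ (rt i))]
            · exact (Nat.mod_lt _ hL).le
        _ ≤ G := by
            rw [hG']
            have := Finset.single_le_sum (f := fun i => (1 + ‖φ (rt i)‖) ^ L)
              (fun i _ => by positivity) (Finset.mem_univ i)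
            linarith
    have h4 : ((n : ℝ) + 1) ^ 1 ≤ (n + 1) ^ f.natDegree := by
      apply pow_le_pow_right₀ _ hd
      linarith [Nat.cast_nonneg (α := ℝ) n]
    have hA0 : 0 ≤ A := by linarith
    calc Bi i * A * (n + 1) ^ 1 * ‖φ (rt i)‖ ^ n ≤
        BB * A * (n + 1) ^ f.natDegree * (G * ‖φ (rt i ^ L)‖ ^ (n / L)) := by
          have h5 := hBiB i
          have h6 := hBi0 i
          gcongr
      _ = _ := by ring
  by_contra hcon
  push Not at hcon
  have hcon' : ∀ t : ℕ, ∃ u : ℕ → ℤ, Ann f u ∧ ∃ A : ℝ, 1 ≤ A ∧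
      (∀ k < f.natDegree, |(u k : ℝ)| ≤ A) ∧ ∃ n : ℕ,
        ‖ψ ((∑ i with ‖ψ (rt i : K)‖ = ρ, ε i * vv (q i) u n : 𝓞 K) : K)‖ ≤
          (Real.exp (-δ) * ρ) ^ n ∧
        (t + 1 : ℝ) * (1 + Real.log A) < n ∧ ¬ CS (fun i => rt i ^ L) ε' q u n := fun t =>
    hcon (t + 1) (by positivity)
  choose u hu A hA hk n hun hn hcs using hcon'
  have hlogA : ∀ t, 0 ≤ Real.log (A t) := fun t => Real.log_nonneg (hA t)
  have hnt : ∀ t, t ≤ n t := by
    intro t
    have h1 : (t : ℝ) ≤ n t := by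
      have h2 := hn t
      have h3 := hlogA t
      nlinarith [Nat.cast_nonneg (α := ℝ) t]
    exact_mod_cast h1
  have hntend : Tendsto n atTop atTop := tendsto_atTop_mono hnt tendsto_id
  have hH1 : ∀ t, 1 ≤ BB * A t * ((n t : ℝ) + 1) ^ f.natDegree * G := by
    intro t
    have h1 : (1 : ℝ) ≤ ((n t : ℝ) + 1) ^ f.natDegree :=
      one_le_pow₀ (by linarith [Nat.cast_nonneg (α := ℝ) (n t)])
    have h2 := hA t
    have h3 : 1 ≤ BB * A t := by nlinarith
    have h4 : 1 ≤ BB * A t * ((n t : ℝ) + 1) ^ f.natDegree := by nlinarith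
    nlinarith
  have hHG : ∀ t, G ≤ BB * A t * ((n t : ℝ) + 1) ^ f.natDegree * G := by
    intro t
    have h1 : (1 : ℝ) ≤ ((n t : ℝ) + 1) ^ f.natDegree :=
      one_le_pow₀ (by linarith [Nat.cast_nonneg (α := ℝ) (n t)])
    have h2 := hA t
    have h3 : 1 ≤ BB * A t := by nlinarith
    have h4 : 1 ≤ BB * A t * ((n t : ℝ) + 1) ^ f.natDegree := by nlinarith
    nlinarith
  have hfr := core2S ψ cj hcj iK hi (d := f.natDegree)
    (Matrix.of fun i k : Fin f.natDegree => (q i).coeff k) hM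
    (fun i => rt i ^ L) (fun i => pow_ne_zero L (hrt i)) ((comp f) ^ L)
    (pow_lat _ rt (comp f) hMC L)
    (by
      intro σ
      obtain ⟨π, hπ⟩ := hG σ
      refine ⟨π, fun i => ⟨fun k => ?_, ?_⟩⟩
      · simp only [Matrix.of_apply]
        rw [← (hπ i).1, coeff_map]
      · rw [map_pow, (hπ i).2])
    (fun i => rt i ^ L) hnd ε' (ρ ^ L) (by positivity)
    (by
      intro i hi'
      have h1 : ‖ψ (rt i : K)‖ = ρ := by
        by_contra h
        exact hi' (if_neg h)
      rw [RingOfIntegers.coe_eq_algebraMap, map_pow, map_pow, norm_pow]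
      rw [← h1])
    (fun t k => u t (n t + k))
    (by
      intro t h
      apply hcs t
      intro a
      refine Finset.sum_eq_zero fun i _ => ?_
      rw [vv_eq _ _ _ (hq i), Finset.sum_eq_zero, mul_zero]
      intro k _
      have := congrFun h k
      simp only [Pi.zero_apply] at this
      rw [this]
      simp)
    (fun t => n t / L)
    (by
      intro t
      refine ⟨((comp f) ^ (n t % L)).mulVec (fun k => u t (0 + k)), ?_⟩
      have h1 := comp_pow f hf (u t) (hu t) 0 (n t)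
      rw [Matrix.mulVec_mulVec, ← pow_mul, ← pow_add, Nat.div_add_mod, ← h1]
      funext k
      rw [zero_add])
    (fun t => BB * A t * (n t + 1) ^ f.natDegree * G) hH1
    (by
      have h1 : Tendsto (fun m : ℕ => m / L) atTop atTop := Nat.tendsto_div_const_atTop (by omega)
      exact h1.comp hntend)
    (by
      intro δ hδ
      obtain ⟨t0, ht0⟩ := log_est (Real.log BB + Real.log G) δ hδ f.natDegree L hL
      filter_upwards [eventually_ge_atTop t0] with t ht
      have h1 := ht0 t ht (n t) (Real.log (A t)) (hlogA t) (hn t)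
      have hA0 : A t ≠ 0 := by have := hA t; positivity
      have hBB0 : BB ≠ 0 := by positivity
      have hG0 : G ≠ 0 := by positivity
      have hn0 : ((n t : ℝ) + 1) ^ f.natDegree ≠ 0 := by positivity
      rw [Real.log_mul (mul_ne_zero (mul_ne_zero hBB0 hA0) hn0) hG0,
        Real.log_mul (mul_ne_zero hBB0 hA0) hn0, Real.log_mul hBB0 hA0, Real.log_pow]
      linarith)
    (by
      intro t i
      have h1 := hsize (u t) (hu t) (A t) (hA t) (hk t) (n t) i
      rw [vv_eq _ _ _ (hq i), hφ, RingHom.comp_apply, map_sum] at h1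
      have h2 : ∑ k : Fin f.natDegree, algebraMap (𝓞 K) K ((q i).coeff k *
          ((u t (n t + k) : ℤ) : 𝓞 K)) = ∑ k : Fin f.natDegree, (((q i).coeff k : 𝓞 K) : K) *
            ((u t (n t + k) : ℤ) : K) := by
        refine Finset.sum_congr rfl fun k _ => ?_
        rw [map_mul, map_intCast]
      rw [h2] at h1
      exact h1)
    (δ * L) (by positivity)
    (by
      intro t
      have h1 := hun t
      have h2 : ((∑ i with ‖ψ (rt i : K)‖ = ρ, ε i * vv (q i) (u t) (n t) : 𝓞 K) : K) =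
          ∑ i, (ε' i : K) * ∑ k : Fin f.natDegree, (((q i).coeff k : 𝓞 K) : K) *
            ((u t (n t + k) : ℤ) : K) := by
        rw [RingOfIntegers.coe_eq_algebraMap, map_sum, Finset.sum_filter]
        refine Finset.sum_congr rfl fun i _ => ?_
        simp only [hε']
        split_ifs
        · rw [map_mul, vv_eq _ _ _ (hq i), map_sum]
          congr 1
        · simp
      rw [h2] at h1
      refine h1.trans ?_
      have h3 : (Real.exp (-δ) * ρ) ^ n t = (Real.exp (-δ) * ρ) ^ (n t % L) *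
          (Real.exp (-(δ * L)) * ρ ^ L) ^ (n t / L) := by
        have h4 : Real.exp (-(δ * L)) * ρ ^ L = (Real.exp (-δ) * ρ) ^ L := by
          rw [mul_pow, ← Real.exp_nat_mul]
          congr 2
          ring
        rw [h4, ← pow_mul, ← pow_add, Nat.mod_add_div]
      rw [h3]
      apply mul_le_mul_of_nonneg_right _ (by positivity)
      have h5 : Real.exp (-δ) * ρ ≤ 1 + ρ := by
        have : Real.exp (-δ) ≤ 1 := Real.exp_le_one_iff.2 (by linarith)
        nlinarith
      calc (Real.exp (-δ) * ρ) ^ (n t % L) ≤ (1 + ρ) ^ (n t % L) := by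
            gcongr
        _ ≤ (1 + ρ) ^ L := pow_le_pow_right₀ (by linarith) (Nat.mod_lt _ hL).le
        _ ≤ G := by rw [hG']; linarith
        _ ≤ _ := hHG t)
  obtain ⟨t, ht⟩ := hfr.exists
  apply hcs t
  intro a
  apply RingOfIntegers.coe_injective
  rw [map_zero, ← ht a, map_sum]
  refine Finset.sum_congr rfl fun i _ => ?_
  rw [vv_eq _ _ _ (hq i), map_mul, map_sum]
  congr 1

end data

end Pool.Agent.TH717.ST
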