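import Mathlib
import Pool.Agent.TH717.SK.Main
import Pool.Agent.TH717.SK.Zer
import Pool.Agent.TH717.ST.GroM

/-!
Zeros of sequences with vanishing class sums, for roots which are not units.
-/

set_option autoImplicit false

open Finset Polynomial Filter Topology

namespace Pool.Agent.TH717.ST

open NumberField
open Pool.Agent.H692R2.USS
open Pool.Agent.TH717.SK

theorem congr_taylorM {R : Type*} [CommRing R] {α : R} {v : ℕ → R} {m d : ℕ} (hmd : m ≤ d)
    (hv : aeval (E R) ((X - C α) ^ m) v = 0) (N1 : R) (hN1 : ∀ j ≤ d, ∃ ρ, ρ * α ^ j = N1)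
    (n s : ℕ) : ∃ x : R, N1 * (d.factorial : R) * v (n + s) =
      α ^ s * (N1 * (d.factorial : R) * v n + (s : R) * x) := by
  set w : ℕ → R := fun i => (aeval (E R) ((X - C α) ^ i) v) n with hw
  have hterm : ∀ i, ∃ y : R, i < s →
      N1 * (d.factorial : R) * ((s.choose (i + 1) : R) * α ^ (s - (i + 1)) * w (i + 1)) =
        α ^ s * ((s : R) * y) := by
    intro i
    by_cases him : i + 1 < m
    · obtain ⟨ρ, hρ⟩ := hN1 (i + 1) (by omega)
      obtain ⟨c, hc⟩ := dvd_fac_choose (d := d) (i := i + 1) (s := s) (by omega) (by omega)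
      refine ⟨c * ρ * w (i + 1), fun his => ?_⟩
      have h1 : N1 * α ^ (s - (i + 1)) = ρ * α ^ s := by
        rw [← hρ, mul_assoc, ← pow_add]
        congr 2
        omega
      have h2 : (d.factorial : R) * (s.choose (i + 1) : R) = (s : R) * (c : R) := by
        rw [← Nat.cast_mul, hc, Nat.cast_mul]
      calc N1 * (d.factorial : R) * ((s.choose (i + 1) : R) * α ^ (s - (i + 1)) * w (i + 1)) =
          (N1 * α ^ (s - (i + 1))) * ((d.factorial : R) * (s.choose (i + 1) : R)) *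
            w (i + 1) := by ring
        _ = _ := by rw [h1, h2]; ring
    · refine ⟨0, fun _ => ?_⟩
      have h1 : w (i + 1) = 0 := by
        rw [hw]
        simp only
        rw [taylor_zero hv (by omega)]
        rfl
      rw [h1]
      ring
  choose y hy using hterm
  refine ⟨∑ i ∈ range s, y i, ?_⟩
  rw [taylor α v n s, Finset.sum_range_succ', mul_add, Finset.mul_sum]
  have h1 : ∑ i ∈ range s, N1 * (d.factorial : R) * ((s.choose (i + 1) : R) *
      α ^ (s - (i + 1)) * (aeval (E R) ((X - C α) ^ (i + 1)) v) n) =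
      ∑ i ∈ range s, α ^ s * ((s : R) * y i) :=
    Finset.sum_congr rfl fun i hi => hy i (Finset.mem_range.1 hi)
  rw [h1, ← Finset.mul_sum, ← Finset.mul_sum]
  simp only [Nat.choose_zero_right, Nat.cast_one, one_mul, Nat.sub_zero, pow_zero, map_one,
    Module.End.one_apply]
  ring

section data

variable {K : Type} [Field K] [NumberField K]

variable {ι : Type} [Fintype ι] [DecidableEq ι] [DecidableEq (𝓞 K)]

theorem general_caseM {f : ℤ[X]} (hf : f.Monic) (hd : 1 ≤ f.natDegree)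
    (hspl : (f.map (algebraMap ℤ (𝓞 K))).Splits) (q : ι → (𝓞 K)[X]) (rt : ι → 𝓞 K)
    (mu : ι → ℕ) (hq : ∀ i, (q i).natDegree < f.natDegree) (hrt : ∀ i, rt i ≠ 0)
    (Nt : ℤ) (hNt0 : Nt ≠ 0) (hNt : ∀ i, rt i ∣ ((Nt : ℤ) : 𝓞 K))
    (hdvd : ∀ i, f.map (algebraMap ℤ (𝓞 K)) ∣ (X - C (rt i)) ^ mu i * q i)
    (hmu : ∀ i, mu i ≤ f.natDegree)
    (D : ℤ) (hD : D ≠ 0) (ε : ι → 𝓞 K) (hε : ∀ k : Fin f.natDegree, ∑ i, ε i * (q i).coeff k =
      if (k : ℕ) = 0 then (D : 𝓞 K) else 0) (L : ℕ) (hL : 1 ≤ L) :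
    ∃ B : ℝ, 0 < B ∧ ∀ u : ℕ → ℤ, Ann f u → ∀ A : ℝ, 1 ≤ A →
      (∀ k < f.natDegree, |(u k : ℝ)| ≤ A) → ∀ n0 : ℕ, CS (fun i => rt i ^ L) ε q u n0 →
      (n0 : ℝ) ≤ B * A ∨ ∀ n, n ≡ n0 [MOD L] → u n = 0 := by
  classical
  set d := f.natDegree with hdef
  set N0 := L * (d + 1) with hN0
  choose Bn hBn0 hBn using term_bound f hf
  set K2 : ℝ := ∑ n ∈ range N0, Bn n with hK2
  have hK20 : 0 ≤ K2 := Finset.sum_nonneg fun n _ => hBn0 n
  have hsmall : ∀ u : ℕ → ℤ, Ann f u → ∀ A : ℝ, 0 ≤ A → (∀ k < d, |(u k : ℝ)| ≤ A) →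
      ∀ n < N0, |(u n : ℝ)| ≤ K2 * A := by
    intro u hu A hA hk n hn
    refine (hBn n u hu A hA hk).trans (mul_le_mul_of_nonneg_right ?_ hA)
    exact Finset.single_le_sum (f := Bn) (fun i _ => hBn0 i) (Finset.mem_range.2 hn)
  set F : ℝ := |(Nt : ℝ)| ^ d * (d.factorial : ℝ) * |(D : ℝ)| with hF
  have hF0 : 0 ≤ F := by positivity
  refine ⟨F * K2 + N0 + 1, by positivity, ?_⟩
  intro u hu A hA hk n0 hcs
  by_contra hcon
  push Not at hcon
  obtain ⟨hbig, n1, hn1, hun1⟩ := hcon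
  have hA0 : 0 ≤ A := by linarith
  -- the first terms of the progression vanish
  have hN0n0 : N0 < n0 := by
    have h1 : (N0 : ℝ) < n0 := by
      have : 0 ≤ F * K2 * A := by positivity
      have h2 : (N0 : ℝ) ≤ N0 * A := le_mul_of_one_le_right (Nat.cast_nonneg _) hA
      nlinarith
    exact_mod_cast h1
  set r := n0 % L with hr
  have hrL : r < L := Nat.mod_lt _ hL
  have hfirst : ∀ j < d, u (r + L * j) = 0 := by
    intro j hj
    set n := r + L * j with hn
    have hnN0 : n < N0 := by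
      rw [hN0, hn]
      have : L * j ≤ L * (d - 1) := Nat.mul_le_mul_left _ (by omega)
      have h2 : L * (d + 1) = L * (d - 1) + 2 * L := by
        obtain ⟨d', hd'⟩ : ∃ d', d = d' + 1 := ⟨d - 1, by omega⟩
        rw [hd']
        simp only [Nat.add_sub_cancel]
        ring
      omega
    obtain ⟨k, hk'⟩ : ∃ k, n0 = n + L * k := by
      have h1 : n ≡ n0 [MOD L] := by
        rw [hn, hr]
        unfold Nat.ModEq
        simp
      have h2 : n ≤ n0 := by omega
      obtain ⟨k, hk⟩ := (Nat.modEq_iff_dvd' h2).1 h1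
      exact ⟨k, by omega⟩
    set s := L * k with hs
    have hN1 : ∀ i, ∀ j ≤ d, ∃ ρ : 𝓞 K, ρ * rt i ^ j = ((Nt : ℤ) : 𝓞 K) ^ d := by
      intro i j hj
      obtain ⟨β, hβ⟩ := hNt i
      refine ⟨β ^ j * ((Nt : ℤ) : 𝓞 K) ^ (d - j), ?_⟩
      have h1 : ((Nt : ℤ) : 𝓞 K) ^ d = ((Nt : ℤ) : 𝓞 K) ^ j * ((Nt : ℤ) : 𝓞 K) ^ (d - j) := by
        rw [← pow_add]
        congr 1
        omega
      calc β ^ j * ((Nt : ℤ) : 𝓞 K) ^ (d - j) * rt i ^ j =
          (rt i * β) ^ j * ((Nt : ℤ) : 𝓞 K) ^ (d - j) := by ring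
        _ = ((Nt : ℤ) : 𝓞 K) ^ d := by rw [← hβ, h1]
    have hcong : ∀ i, ∃ x : 𝓞 K, ((Nt : ℤ) : 𝓞 K) ^ d * (d.factorial : 𝓞 K) *
        vv (q i) u (n + s) = rt i ^ s * (((Nt : ℤ) : 𝓞 K) ^ d * (d.factorial : 𝓞 K) *
          vv (q i) u n + (s : 𝓞 K) * x) := by
      intro i
      refine congr_taylorM (hmu i) ?_ _ (hN1 i) n s
      show aeval (E (𝓞 K)) ((X - C (rt i)) ^ mu i)
        (aeval (E (𝓞 K)) (q i) (fun n => ((u n : ℤ) : 𝓞 K))) = 0
      rw [aeval_mul_apply']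
      exact (ann_cast hu).of_dvd (hdvd i)
    choose x hx using hcong
    have hval := value q hq D ε hε hd u n
    -- the class sums at `n0`
    have h1 := Pool.Agent.TH717.SK.class_sum (fun i => rt i ^ L)
      (fun i => algebraMap (𝓞 K) K (ε i * vv (q i) u n0)) (by
        intro a
        have h := congrArg (algebraMap (𝓞 K) K) (hcs a)
        rw [map_sum, map_zero] at h
        exact h) (fun a => (algebraMap (𝓞 K) K a ^ k)⁻¹)
    have h4 : ∑ i, ε i * (((Nt : ℤ) : 𝓞 K) ^ d * (d.factorial : 𝓞 K) *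
          vv (q i) u n + (s : 𝓞 K) * x i) = 0 := by
      apply RingOfIntegers.coe_injective
      rw [map_zero, map_sum]
      have h5 : ∀ i, algebraMap (𝓞 K) K (ε i * (((Nt : ℤ) : 𝓞 K) ^ d * (d.factorial : 𝓞 K) *
          vv (q i) u n + (s : 𝓞 K) * x i)) =
          algebraMap (𝓞 K) K (((Nt : ℤ) : 𝓞 K) ^ d * (d.factorial : 𝓞 K)) *
            ((algebraMap (𝓞 K) K (rt i ^ L) ^ k)⁻¹ *
              algebraMap (𝓞 K) K (ε i * vv (q i) u n0)) := by
        intro i
        have h6 := congrArg (algebraMap (𝓞 K) K) (hx i)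
        rw [← hk'] at h6
        have h7 : algebraMap (𝓞 K) K (rt i ^ L) ^ k = algebraMap (𝓞 K) K (rt i ^ s) := by
          rw [hs, pow_mul, map_pow (algebraMap (𝓞 K) K) (rt i ^ L) k]
        have h8 : algebraMap (𝓞 K) K (rt i ^ s) ≠ 0 := by
          intro h
          rw [map_eq_zero_iff _ RingOfIntegers.coe_injective] at h
          exact pow_ne_zero _ (hrt i) h
        rw [h7, map_mul (algebraMap (𝓞 K) K) (ε i) (vv (q i) u n0)]
        rw [map_mul (algebraMap (𝓞 K) K) (rt i ^ s)] at h6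
        rw [map_mul (algebraMap (𝓞 K) K) _ (vv (q i) u n0)] at h6
        rw [map_mul (algebraMap (𝓞 K) K) (ε i)]
        field_simp
        linear_combination (-(algebraMap (𝓞 K) K (ε i))) * h6
      rw [Finset.sum_congr rfl fun i _ => h5 i, ← Finset.mul_sum, h1, mul_zero]
    have h2 : ((Nt ^ d * (d.factorial : ℤ) : ℤ) : 𝓞 K) * ((D * u n : ℤ) : 𝓞 K) =
        ((s : ℤ) : 𝓞 K) * (-∑ i, ε i * x i) := by
      rw [hval]
      have h5 : ∑ i, ε i * (((Nt : ℤ) : 𝓞 K) ^ d * (d.factorial : 𝓞 K) *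
          vv (q i) u n + (s : 𝓞 K) * x i) =
          ((Nt : ℤ) : 𝓞 K) ^ d * (d.factorial : 𝓞 K) * ∑ i, ε i * vv (q i) u n +
            (s : 𝓞 K) * ∑ i, ε i * x i := by
        rw [Finset.mul_sum, Finset.mul_sum, ← Finset.sum_add_distrib]
        exact Finset.sum_congr rfl fun i _ => by ring
      rw [h5] at h4
      push_cast
      linear_combination h4
    rw [← Int.cast_mul] at h2
    have h3 : (s : ℤ) ∣ (Nt ^ d * (d.factorial : ℤ)) * (D * u n) := int_dvd_of_dvd _ _ _ h2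
    by_contra hne
    have h4 : (Nt ^ d * (d.factorial : ℤ)) * (D * u n) ≠ 0 :=
      mul_ne_zero (mul_ne_zero (pow_ne_zero _ hNt0) (by exact_mod_cast d.factorial_ne_zero))
        (mul_ne_zero hD hne)
    have h5 : (s : ℤ) ≤ |(Nt ^ d * (d.factorial : ℤ)) * (D * u n)| :=
      Int.le_of_dvd (abs_pos.2 h4) ((dvd_abs _ _).2 h3)
    have h6 : (s : ℝ) ≤ F * |(u n : ℝ)| := by
      have : ((s : ℤ) : ℝ) ≤ ((|(Nt ^ d * (d.factorial : ℤ)) * (D * u n)| : ℤ) : ℝ) := by
        exact_mod_cast h5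
      push_cast at this
      rw [hF]
      rw [abs_mul, abs_mul, abs_mul, abs_pow, Nat.abs_cast] at this
      linarith
    have h7 := hsmall u hu A hA0 hk n hnN0
    have h8 : (n0 : ℝ) ≤ F * (K2 * A) + N0 := by
      have h9 : (n0 : ℝ) = n + s := by
        rw [hk']
        push_cast
        rfl
      have h10 : (n : ℝ) ≤ N0 := by exact_mod_cast hnN0.le
      have h11 : F * |(u n : ℝ)| ≤ F * (K2 * A) := mul_le_mul_of_nonneg_left h7 hF0
      linarith
    have h12 : (N0 : ℝ) ≤ N0 * A := le_mul_of_one_le_right (Nat.cast_nonneg _) hA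
    nlinarith
  -- the progression
  obtain ⟨h, hmon, hdeg, hh⟩ := exists_sub (f.map (algebraMap ℤ (𝓞 K))) (hf.map _) hspl L
  have h1 := hh _ (ann_cast hu) r
  have h2 : ∀ j, ((u (r + L * j) : ℤ) : 𝓞 K) = 0 := by
    refine h1.eq_zero hmon ?_
    rw [hdeg, hf.natDegree_map]
    intro j hj
    have := hfirst j hj
    simp only [this, Int.cast_zero]
  apply hun1
  have h3 : n1 % L = r := hn1
  have h4 := h2 (n1 / L)
  rw [← h3, Nat.mod_add_div] at h4
  exact_mod_cast h4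

end data

end Pool.Agent.TH717.ST
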