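import Mathlib
import Pool.Agent.TH717.SK.Fam
import Pool.Agent.TH717.ST.ZerM

/-!
The square system of forms of a polynomial with multiple roots.
-/

set_option autoImplicit false

open Finset Polynomial Filter Topology

namespace Pool.Agent.TH717.ST

open NumberField
open Pool.Agent.TH286.GT.GrowD (sg sg_coe sg_inj)
open Pool.Agent.H692R2.USS
open Pool.Agent.TH717.SK

section data

variable {K : Type} [Field K] [NumberField K] [IsGalois ℚ K]

theorem famM0 (f : ℤ[X]) (hf : f.Monic)
    (hspl : (f.map (algebraMap ℤ (𝓞 K))).Splits) (h0 : f.coeff 0 ≠ 0) :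
    ∃ (ι : Type) (_ : Fintype ι) (_ : DecidableEq ι) (q : ι → (𝓞 K)[X]) (rt : ι → 𝓞 K)
      (mu : ι → ℕ), Fintype.card ι = f.natDegree ∧
      (∀ i, (q i).natDegree < f.natDegree) ∧
      (∀ i, rt i ≠ 0) ∧
      (∀ i, f.map (algebraMap ℤ (𝓞 K)) ∣ (X - C (rt i)) ^ mu i * q i) ∧
      (∀ i, mu i ≤ f.natDegree) ∧
      (∀ x : Fin f.natDegree → K,
        (∀ i, ∑ k : Fin f.natDegree, ((q i).coeff k : K) * x k = 0) → x = 0) ∧
      (∀ σ : K ≃ₐ[ℚ] K, ∃ π : ι → ι, ∀ i, (q i).map (sg σ) = q (π i) ∧
        sg σ (rt i) = rt (π i)) ∧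
      ∃ Nt : ℤ, ((Nt : ℤ) : 𝓞 K) = ∏ i, rt i := by
  classical
  set d := f.natDegree with hdef
  set P := f.map (algebraMap ℤ (𝓞 K)) with hPdef
  have hPm : P.Monic := hf.map _
  have hPd : P.natDegree = d := hf.natDegree_map _
  have hP0 : P ≠ 0 := hPm.ne_zero
  set Q : 𝓞 K → (𝓞 K)[X] := fun α => P /ₘ (X - C α) ^ P.rootMultiplicity α with hQ
  have hQP : ∀ α, (X - C α) ^ P.rootMultiplicity α * Q α = P := fun α =>
    pow_mul_divByMonic_rootMultiplicity_eq P α
  have hQ0 : ∀ α, Q α ≠ 0 := by
    intro α h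
    have := hQP α
    rw [h, mul_zero] at this
    exact hP0 this.symm
  have hQd : ∀ α, P.rootMultiplicity α + (Q α).natDegree = d := by
    intro α
    rw [← hPd]
    conv_rhs => rw [← hQP α]
    rw [((monic_X_sub_C α).pow _).natDegree_mul' (hQ0 α),
      (monic_X_sub_C α).natDegree_pow, natDegree_X_sub_C, mul_one]
  have hPσ : ∀ σ : K ≃ₐ[ℚ] K, P.map (sg σ) = P := by
    intro σ
    rw [hPdef, Polynomial.map_map]
    congr 1
    exact RingHom.ext_int _ _
  have hmσ : ∀ (σ : K ≃ₐ[ℚ] K) α, P.rootMultiplicity (sg σ α) = P.rootMultiplicity α := by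
    intro σ α
    rw [eq_rootMultiplicity_map (sg_inj σ) α, hPσ σ]
  have hQσ : ∀ (σ : K ≃ₐ[ℚ] K) α, (Q α).map (sg σ) = Q (sg σ α) := by
    intro σ α
    simp only [hQ]
    rw [map_divByMonic _ ((monic_X_sub_C α).pow _), hPσ, Polynomial.map_pow, Polynomial.map_sub,
      map_X, map_C, hmσ]
  set S : Finset (𝓞 K) := P.roots.toFinset with hS
  have hSmem : ∀ α, α ∈ S ↔ P.IsRoot α := by
    intro α
    rw [hS, Multiset.mem_toFinset, mem_roots hP0]
  have hrt0 : ∀ α ∈ S, α ≠ 0 := by
    intro α hα h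
    have h1 := (hSmem α).1 hα
    rw [h, IsRoot, ← coeff_zero_eq_eval_zero, hPdef, coeff_map] at h1
    apply h0
    have h2 : ((f.coeff 0 : ℤ) : 𝓞 K) = 0 := h1
    exact_mod_cast h2
  refine ⟨(α : {α // α ∈ S}) × Fin (P.rootMultiplicity α.1), inferInstance, inferInstance,
    fun i => X ^ (i.2 : ℕ) * Q i.1.1,
    fun i => i.1.1, fun i => P.rootMultiplicity i.1.1, ?_, ?_, ?_, ?_, ?_, ?_, ?_, ?_⟩
  · rw [Fintype.card_sigma]
    simp only [Fintype.card_fin]
    rw [← hPd, hspl.natDegree_eq_card_roots, ← Multiset.toFinset_sum_count_eq,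
      Finset.sum_coe_sort S (fun α => P.rootMultiplicity α)]
    refine Finset.sum_congr rfl fun α _ => ?_
    rw [count_roots]
  · intro i
    simp only
    refine lt_of_le_of_lt natDegree_mul_le ?_
    rw [natDegree_X_pow]
    have := hQd i.1.1
    have := i.2.2
    omega
  · intro i
    exact hrt0 _ i.1.2
  · intro i
    simp only
    refine ⟨X ^ (i.2 : ℕ), ?_⟩
    rw [mul_left_comm, hQP, mul_comm]
  · intro i
    have := hQd i.1.1
    simp only
    omega
  · intro x hx
    set PK := P.map (algebraMap (𝓞 K) K) with hPK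
    have hPKm : PK.Monic := hPm.map _
    have hPKd : PK.natDegree = d := by rw [hPK, hPm.natDegree_map, hPd]
    have hsplK : PK.Splits := hspl.map _
    obtain ⟨u, hu, hux⟩ := exists_ann PK hPKm (fun k => if h : k < d then x ⟨k, h⟩ else 0)
    rw [hPKd] at hux
    have hux' : ∀ k : Fin d, u k = x k := by
      intro k
      rw [hux k k.2]
      simp
    have hzero : ∀ n, u n = 0 := by
      refine ann_coprime PK hPKm.ne_zero hsplK u hu ?_
      intro β hβ
      -- the root is integral
      have hβ' : β ∈ PK.roots := (mem_roots hPKm.ne_zero).2 hβ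
      rw [hPK, hspl.roots_map_of_injective RingOfIntegers.coe_injective] at hβ'
      obtain ⟨α, hα, rfl⟩ := Multiset.mem_map.1 hβ'
      have hαS : α ∈ S := by rw [hS, Multiset.mem_toFinset]; exact hα
      refine ⟨(Q α).map (algebraMap (𝓞 K) K), ?_, ?_⟩
      · rw [eval_map_algebraMap, aeval_algebraMap_apply]
        intro h
        have h1 : (Q α).eval α = 0 := by
          apply RingOfIntegers.coe_injective
          rw [map_zero, ← h]
          simp
        exact eval_divByMonic_pow_rootMultiplicity_ne_zero α hP0 h1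
      · set v := aeval (E K) ((Q α).map (algebraMap (𝓞 K) K)) u with hv
        have hann : Ann ((X - C (α : K)) ^ P.rootMultiplicity α) v := by
          show aeval (E K) ((X - C (α : K)) ^ P.rootMultiplicity α) v = 0
          rw [hv, aeval_mul_apply']
          have h1 : (X - C (α : K)) ^ P.rootMultiplicity α * (Q α).map (algebraMap (𝓞 K) K) =
              PK := by
            rw [hPK]
            conv_rhs => rw [← hQP α]
            rw [Polynomial.map_mul, Polynomial.map_pow, Polynomial.map_sub, map_X, map_C]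
          rw [h1]
          exact hu
        have h0 : ∀ j < P.rootMultiplicity α, v j = 0 := by
          intro j hj
          have hjd : j < d := by
            have := hQd α
            omega
          have h2 := hx ⟨⟨α, hαS⟩, ⟨j, hj⟩⟩
          have h3 : v j = (aeval (E K) ((X ^ j * Q α).map (algebraMap (𝓞 K) K)) u) 0 := by
            rw [Polynomial.map_mul, Polynomial.map_pow, map_X, ← aeval_mul_apply', map_pow,
              aeval_X, E_pow_apply, zero_add]
          rw [h3, aeval_E_apply _ u 0 (N := d), Finset.sum_range]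
          · rw [← h2]
            refine Finset.sum_congr rfl fun k _ => ?_
            rw [zero_add, hux', coeff_map]
          · refine lt_of_le_of_lt natDegree_map_le (lt_of_le_of_lt natDegree_mul_le ?_)
            rw [natDegree_X_pow]
            have := hQd α
            omega
        have h1 := hann.eq_zero ((monic_X_sub_C _).pow _) (by
          rw [(monic_X_sub_C _).natDegree_pow, natDegree_X_sub_C, mul_one]
          exact h0)
        exact funext h1
    funext k
    rw [← hux' k, hzero]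
    rfl
  · intro σ
    refine ⟨fun i => ⟨⟨sg σ i.1.1, ?_⟩, Fin.cast (hmσ σ i.1.1).symm i.2⟩, ?_⟩
    · rw [hSmem]
      have h1 : P.IsRoot i.1.1 := (hSmem _).1 i.1.2
      have h2 := h1.map (f := sg σ)
      rwa [hPσ] at h2
    · intro i
      refine ⟨?_, rfl⟩
      simp only
      rw [Polynomial.map_mul, Polynomial.map_pow, map_X, hQσ]
      rfl
  · have h1 := hspl.coeff_zero_eq_prod_roots_of_monic hPm
    rw [hPd] at h1
    refine ⟨(-1) ^ d * f.coeff 0, ?_⟩
    have h2 : P.coeff 0 = ((f.coeff 0 : ℤ) : 𝓞 K) := by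
      rw [hPdef, coeff_map]
      rfl
    have h3 : ∏ i : (α : {α // α ∈ S}) × Fin (P.rootMultiplicity α.1), (i.1.1 : 𝓞 K) =
        P.roots.prod := by
      rw [Fintype.prod_sigma]
      simp only [Finset.prod_const, Finset.card_univ, Fintype.card_fin]
      rw [Finset.prod_coe_sort S (fun α => α ^ P.rootMultiplicity α),
        Finset.prod_multiset_count]
      refine Finset.prod_congr rfl fun α _ => ?_
      rw [count_roots]
    rw [h3]
    push_cast
    rw [← h2, h1, ← mul_assoc, ← mul_pow]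
    simp

/-- the square system -/
theorem famM (f : ℤ[X]) (hf : f.Monic)
    (hspl : (f.map (algebraMap ℤ (𝓞 K))).Splits) (h0 : f.coeff 0 ≠ 0) :
    ∃ (q : Fin f.natDegree → (𝓞 K)[X]) (rt : Fin f.natDegree → 𝓞 K)
      (mu : Fin f.natDegree → ℕ),
      (∀ i, (q i).natDegree < f.natDegree) ∧
      (∀ i, rt i ≠ 0) ∧
      (∀ i, f.map (algebraMap ℤ (𝓞 K)) ∣ (X - C (rt i)) ^ mu i * q i) ∧
      (∀ i, mu i ≤ f.natDegree) ∧
      (Matrix.of fun i k : Fin f.natDegree => (q i).coeff k).det ≠ 0 ∧
      (∀ σ : K ≃ₐ[ℚ] K, ∃ π : Fin f.natDegree → Fin f.natDegree,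
        ∀ i, (q i).map (sg σ) = q (π i) ∧ sg σ (rt i) = rt (π i)) ∧
      ∃ Nt : ℤ, ((Nt : ℤ) : 𝓞 K) = ∏ i, rt i := by
  classical
  obtain ⟨ι, _, _, q, rt, mu, hcard, hq, hrt, hdvd, hmu, hinj, hG, Nt, hNt⟩ :=
    famM0 (K := K) f hf hspl h0
  set e : Fin f.natDegree ≃ ι := (Fintype.equivFinOfCardEq hcard).symm with he
  refine ⟨fun i => q (e i), fun i => rt (e i), fun i => mu (e i), fun i => hq _, fun i => hrt _,
    fun i => hdvd _, fun i => hmu _, ?_, ?_, Nt, ?_⟩
  · intro h
    have h1 : ((Matrix.of fun i k : Fin f.natDegree => (q (e i)).coeff k).map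
        (algebraMap (𝓞 K) K)).det = 0 := by
      rw [← RingHom.mapMatrix_apply, ← RingHom.map_det, h, map_zero]
    obtain ⟨v, hv, hv0⟩ := Matrix.exists_mulVec_eq_zero_iff.2 h1
    apply hv
    apply hinj
    intro i
    have h2 := congrFun hv0 (e.symm i)
    simp only [Matrix.mulVec, dotProduct, Matrix.map_apply, Matrix.of_apply,
      Equiv.apply_symm_apply, Pi.zero_apply] at h2
    exact h2
  · intro σ
    obtain ⟨π, hπ⟩ := hG σ
    refine ⟨fun i => e.symm (π (e i)), fun i => ?_⟩
    simp only [Equiv.apply_symm_apply]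
    exact hπ (e i)
  · rw [hNt]
    exact (Equiv.prod_comp e rt).symm

end data

end Pool.Agent.TH717.ST
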