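import Mathlib
import Pool.Agent.TH717.ST.FamM

/-!
The lattices `B_n ℤ^d` for a polynomial with multiple roots.
-/

set_option autoImplicit false

open Finset Polynomial

namespace Pool.Agent.TH717.ST

open NumberField
open Pool.Agent.TH286.GT.GrowD (sg sg_coe sg_inj)
open Pool.Agent.H692R2.USS
open Pool.Agent.TH717.SK

section data

variable {K : Type} [Field K] [NumberField K]

theorem dvd_int (x : 𝓞 K) (hx : x ≠ 0) : ∃ D : ℤ, D ≠ 0 ∧ x ∣ (D : 𝓞 K) := by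
  refine ⟨(Ideal.absNorm (Ideal.span {x}) : ℕ), ?_, ?_⟩
  · have h1 : Ideal.span {x} ≠ ⊥ := by
      rw [Ne, Ideal.span_singleton_eq_bot]
      exact hx
    have := one_le_absNorm h1
    omega
  · have h1 := Ideal.absNorm_mem (Ideal.span {x})
    rw [Ideal.mem_span_singleton] at h1
    rw [Int.cast_natCast]
    exact h1

variable [IsGalois ℚ K]

/-- an algebraic integer fixed by the Galois group is rational -/
theorem int_of_fixed (x : 𝓞 K) (h : ∀ σ : K ≃ₐ[ℚ] K, sg σ x = x) : ∃ z : ℤ, x = (z : 𝓞 K) := by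
  have h1 : (x : K) ∈ (⊥ : IntermediateField ℚ K) := by
    rw [IsGalois.mem_bot_iff_fixed]
    intro σ
    rw [← sg_coe, h]
  obtain ⟨r, hr⟩ := IntermediateField.mem_bot.1 h1
  have h2 : IsIntegral ℤ (algebraMap ℚ K r) := by
    rw [hr]
    exact x.isIntegral_coe
  have h3 : IsIntegral ℤ r := (isIntegral_algebraMap_iff (algebraMap ℚ K).injective).1 h2
  obtain ⟨z, hz⟩ := IsIntegrallyClosed.isIntegral_iff.1 h3
  refine ⟨z, ?_⟩
  apply RingOfIntegers.coe_injective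
  have h4 : algebraMap (𝓞 K) K x = algebraMap ℚ K r := hr.symm
  rw [h4, ← hz]
  simp

theorem int_vec {d : ℕ} (M : Matrix (Fin d) (Fin d) (𝓞 K)) (hM : M.det ≠ 0) (y : Fin d → 𝓞 K)
    (h : ∀ σ : K ≃ₐ[ℚ] K, ∃ π : Fin d → Fin d, ∀ i, (∀ k, sg σ (M i k) = M (π i) k) ∧
      sg σ (M.mulVec y i) = M.mulVec y (π i)) :
    ∃ y' : Fin d → ℤ, ∀ k, y k = (y' k : 𝓞 K) := by
  have h1 : ∀ k, ∀ σ : K ≃ₐ[ℚ] K, sg σ (y k) = y k := by
    intro k σ
    obtain ⟨π, hπ⟩ := h σ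
    have hinj : Function.Injective π := by
      intro i j hij
      by_contra hne
      apply hM
      refine Matrix.det_zero_of_row_eq hne ?_
      funext k
      apply sg_inj σ
      rw [(hπ i).1, (hπ j).1, hij]
    have hsur := Finite.injective_iff_surjective.1 hinj
    have h2 : M.mulVec (fun k => sg σ (y k)) = M.mulVec y := by
      funext i'
      obtain ⟨i, rfl⟩ := hsur i'
      rw [← (hπ i).2]
      simp only [Matrix.mulVec, dotProduct, map_sum, map_mul]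
      exact Finset.sum_congr rfl fun k _ => by rw [(hπ i).1]
    have h3 : M.mulVec (fun k => sg σ (y k) - y k) = 0 := by
      have : (fun k => sg σ (y k) - y k) = (fun k => sg σ (y k)) - y := rfl
      rw [this, Matrix.mulVec_sub, h2, sub_self]
    have h4 := Matrix.eq_zero_of_mulVec_eq_zero hM h3
    exact sub_eq_zero.1 (congrFun h4 k)
  choose y' hy' using fun k => int_of_fixed (y k) (h1 k)
  exact ⟨y', hy'⟩

theorem latM {d : ℕ} (M : Matrix (Fin d) (Fin d) (𝓞 K)) (hM : M.det ≠ 0) (rt : Fin d → 𝓞 K)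
    (hG : ∀ σ : K ≃ₐ[ℚ] K, ∃ π : Fin d → Fin d, ∀ i, (∀ k, sg σ (M i k) = M (π i) k) ∧
      sg σ (rt i) = rt (π i)) :
    ∃ Dn : ℤ, Dn ≠ 0 ∧ (∃ c : 𝓞 K, (Dn : 𝓞 K) = M.det * c) ∧
      ∃ Bn : ℕ → Matrix (Fin d) (Fin d) ℤ, ∀ n, M * (Bn n).map (Int.castRingHom (𝓞 K)) =
        Matrix.diagonal (fun i => ((Dn : ℤ) : 𝓞 K) * rt i ^ n) * M := by
  obtain ⟨Dn, hDn, c, hc⟩ := dvd_int M.det hM
  refine ⟨Dn, hDn, ⟨c, hc⟩, ?_⟩
  have key : ∀ n, ∃ B : Matrix (Fin d) (Fin d) ℤ, M * B.map (Int.castRingHom (𝓞 K)) =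
        Matrix.diagonal (fun i => ((Dn : ℤ) : 𝓞 K) * rt i ^ n) * M := by
    intro n
    set T : Matrix (Fin d) (Fin d) (𝓞 K) :=
      M.adjugate * (Matrix.diagonal (fun i => c * rt i ^ n) * M) with hT
    have hMT : M * T = Matrix.diagonal (fun i => ((Dn : ℤ) : 𝓞 K) * rt i ^ n) * M := by
      rw [hT, ← mul_assoc, Matrix.mul_adjugate, Matrix.smul_mul, one_mul]
      ext i k
      rw [Matrix.smul_apply, Matrix.diagonal_mul, Matrix.diagonal_mul, hc, smul_eq_mul]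
      ring
    have hcol : ∀ j, ∃ y' : Fin d → ℤ, ∀ k, T k j = (y' k : 𝓞 K) := by
      intro j
      apply int_vec M hM (fun k => T k j)
      intro σ
      obtain ⟨π, hπ⟩ := hG σ
      refine ⟨π, fun i => ⟨(hπ i).1, ?_⟩⟩
      have h1 : ∀ i, M.mulVec (fun k => T k j) i = ((Dn : ℤ) : 𝓞 K) * rt i ^ n * M i j := by
        intro i
        have h2 := congrFun (congrFun hMT i) j
        rw [Matrix.diagonal_mul, Matrix.mul_apply] at h2
        exact h2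
      rw [h1, h1, map_mul, map_mul, map_pow, map_intCast, (hπ i).1, (hπ i).2]
    choose B hB using hcol
    refine ⟨Matrix.of fun k j => B j k, ?_⟩
    have h1 : (Matrix.of fun k j => B j k).map (Int.castRingHom (𝓞 K)) = T := by
      ext k j
      rw [Matrix.map_apply, Matrix.of_apply, hB]
      rfl
    rw [h1, hMT]
  choose Bn hBn using key
  exact ⟨Bn, hBn⟩

theorem stateM {f : ℤ[X]} (q : Fin f.natDegree → (𝓞 K)[X])
    (rt : Fin f.natDegree → 𝓞 K)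
    (hq : ∀ i, (q i).natDegree < f.natDegree) (hrt : ∀ i, rt i ≠ 0)
    (mu : Fin f.natDegree → ℕ)
    (hdvd : ∀ i, f.map (algebraMap ℤ (𝓞 K)) ∣ (X - C (rt i)) ^ mu i * q i)
    (hmu : ∀ i, mu i ≤ f.natDegree)
    (hM : (Matrix.of fun i k : Fin f.natDegree => (q i).coeff k).det ≠ 0)
    (hG : ∀ σ : K ≃ₐ[ℚ] K, ∃ π : Fin f.natDegree → Fin f.natDegree,
      ∀ i, (q i).map (sg σ) = q (π i) ∧ sg σ (rt i) = rt (π i))
    (Nt : ℤ) (hNt0 : Nt ≠ 0) (hNt : ∀ i, rt i ∣ ((Nt : ℤ) : 𝓞 K))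
    (Dn : ℤ) (hDn : Dn ≠ 0)
    (hc : ∃ c : 𝓞 K, (Dn : 𝓞 K) = (Matrix.of fun i k : Fin f.natDegree => (q i).coeff k).det * c)
    (Bn : ℕ → Matrix (Fin f.natDegree) (Fin f.natDegree) ℤ)
    (hB : ∀ n, (Matrix.of fun i k : Fin f.natDegree => (q i).coeff k) *
        (Bn n).map (Int.castRingHom (𝓞 K)) =
      Matrix.diagonal (fun i => ((Dn : ℤ) : 𝓞 K) * rt i ^ n) *
        Matrix.of fun i k : Fin f.natDegree => (q i).coeff k) :
    ∃ Dp : ℤ, Dp ≠ 0 ∧ ∀ u : ℕ → ℤ, Ann f u → ∀ n, ∃ y,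
      (fun k : Fin f.natDegree => Dp * u (n + k)) = (Bn n).mulVec y := by
  classical
  obtain ⟨c, hc⟩ := hc
  set M : Matrix (Fin f.natDegree) (Fin f.natDegree) (𝓞 K) := Matrix.of fun i k : Fin f.natDegree => (q i).coeff k with hMdef
  have hGM : ∀ σ : K ≃ₐ[ℚ] K, ∃ π : Fin f.natDegree → Fin f.natDegree, ∀ i, (∀ k, sg σ (M i k) = M (π i) k) ∧
      sg σ (rt i) = rt (π i) := by
    intro σ
    obtain ⟨π, hπ⟩ := hG σ
    refine ⟨π, fun i => ⟨fun k => ?_, (hπ i).2⟩⟩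
    simp only [hMdef, Matrix.of_apply]
    rw [← (hπ i).1, coeff_map]
  set E0 : ℤ := Nt ^ f.natDegree * (f.natDegree.factorial : ℤ) with hE0
  have hE00 : E0 ≠ 0 := mul_ne_zero (pow_ne_zero _ hNt0) (by exact_mod_cast f.natDegree.factorial_ne_zero)
  refine ⟨Dn * E0 * Dn, mul_ne_zero (mul_ne_zero hDn hE00) hDn, ?_⟩
  intro u hu n
  have hN1 : ∀ i, ∀ j ≤ f.natDegree, ∃ ρ : 𝓞 K, ρ * rt i ^ j = ((Nt : ℤ) : 𝓞 K) ^ f.natDegree := by
    intro i j hj
    obtain ⟨β, hβ⟩ := hNt i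
    refine ⟨β ^ j * ((Nt : ℤ) : 𝓞 K) ^ (f.natDegree - j), ?_⟩
    have h1 : ((Nt : ℤ) : 𝓞 K) ^ f.natDegree = ((Nt : ℤ) : 𝓞 K) ^ j * ((Nt : ℤ) : 𝓞 K) ^ (f.natDegree - j) := by
      rw [← pow_add]
      congr 1
      omega
    calc β ^ j * ((Nt : ℤ) : 𝓞 K) ^ (f.natDegree - j) * rt i ^ j =
        (rt i * β) ^ j * ((Nt : ℤ) : 𝓞 K) ^ (f.natDegree - j) := by ring
      _ = ((Nt : ℤ) : 𝓞 K) ^ f.natDegree := by rw [← hβ, h1]
  have hx : ∀ i, ∃ x : 𝓞 K, ((E0 : ℤ) : 𝓞 K) * vv (q i) u n = rt i ^ n * x := by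
    intro i
    obtain ⟨x, hx⟩ := congr_taylorM (α := rt i)
      (v := aeval (E (𝓞 K)) (q i) (fun n => ((u n : ℤ) : 𝓞 K))) (hmu i) (by
        rw [aeval_mul_apply']
        exact (ann_cast hu).of_dvd (hdvd i)) _ (hN1 i) 0 n
    rw [zero_add] at hx
    have h1 : ((E0 : ℤ) : 𝓞 K) * vv (q i) u n =
        ((Nt : ℤ) : 𝓞 K) ^ f.natDegree * (f.natDegree.factorial : 𝓞 K) *
          (aeval (E (𝓞 K)) (q i) (fun n => ((u n : ℤ) : 𝓞 K))) n := by
      rw [hE0]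
      push_cast
      rfl
    exact ⟨_, h1.trans hx⟩
  choose x hx using hx
  have hvM : ∀ i, vv (q i) u n = M.mulVec (fun k => ((u (n + k) : ℤ) : 𝓞 K)) i := by
    intro i
    rw [vv_eq _ _ _ (hq i)]
    rfl
  set y : Fin f.natDegree → 𝓞 K := fun k => c * M.adjugate.mulVec x k with hy
  have hMy : ∀ i, M.mulVec y i = ((Dn : ℤ) : 𝓞 K) * x i := by
    intro i
    have h1 : y = c • M.adjugate.mulVec x := rfl
    rw [h1, Matrix.mulVec_smul, Matrix.mulVec_mulVec, Matrix.mul_adjugate, Matrix.smul_mulVec,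
      Matrix.one_mulVec, hc, Pi.smul_apply, Pi.smul_apply, smul_eq_mul, smul_eq_mul]
    ring
  obtain ⟨y', hy'⟩ := int_vec M hM y (by
    intro σ
    obtain ⟨π, hπ⟩ := hGM σ
    refine ⟨π, fun i => ⟨(hπ i).1, ?_⟩⟩
    rw [hMy, hMy, map_mul, map_intCast]
    congr 1
    have h1 : sg σ (vv (q i) u n) = vv (q (π i)) u n := by
      rw [hvM, hvM]
      simp only [Matrix.mulVec, dotProduct, map_sum, map_mul, map_intCast]
      exact Finset.sum_congr rfl fun k _ => by rw [(hπ i).1]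
    have h2 := congrArg (sg σ) (hx i)
    rw [map_mul, map_mul, map_pow, map_intCast, h1, (hπ i).2, hx (π i)] at h2
    exact (mul_left_cancel₀ (pow_ne_zero _ (hrt (π i))) h2).symm)
  refine ⟨y', ?_⟩
  have h1 : M.mulVec (fun k => (((Dn * E0 * Dn * u (n + k) : ℤ)) : 𝓞 K) -
      (((Bn n).mulVec y' k : ℤ) : 𝓞 K)) = 0 := by
    have h2 : (fun k : Fin f.natDegree => (((Bn n).mulVec y' k : ℤ) : 𝓞 K)) =
        ((Bn n).map (Int.castRingHom (𝓞 K))).mulVec y := by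
      funext k
      simp only [Matrix.mulVec, dotProduct, Matrix.map_apply]
      push_cast
      exact Finset.sum_congr rfl fun l _ => by rw [hy']; rfl
    have h3 : (fun k : Fin f.natDegree => (((Dn * E0 * Dn * u (n + k) : ℤ)) : 𝓞 K)) =
        (((Dn * E0 * Dn : ℤ)) : 𝓞 K) • (fun k : Fin f.natDegree => ((u (n + k) : ℤ) : 𝓞 K)) := by
      funext k
      rw [Pi.smul_apply, smul_eq_mul]
      push_cast
      rfl
    have h4 : (fun k : Fin f.natDegree => (((Dn * E0 * Dn * u (n + k) : ℤ)) : 𝓞 K) -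
      (((Bn n).mulVec y' k : ℤ) : 𝓞 K)) =
      (((Dn * E0 * Dn : ℤ)) : 𝓞 K) • (fun k : Fin f.natDegree => ((u (n + k) : ℤ) : 𝓞 K)) -
        ((Bn n).map (Int.castRingHom (𝓞 K))).mulVec y := by
      rw [← h2, ← h3]
      rfl
    rw [h4, Matrix.mulVec_sub, Matrix.mulVec_smul, Matrix.mulVec_mulVec, hB,
      ← Matrix.mulVec_mulVec]
    funext i
    rw [Pi.sub_apply, Pi.smul_apply, Matrix.mulVec_diagonal, hMy, ← hvM, smul_eq_mul, Pi.zero_apply]
    have h5 := hx i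
    push_cast
    linear_combination ((Dn : ℤ) : 𝓞 K) * ((Dn : ℤ) : 𝓞 K) * h5
  have h2 := Matrix.eq_zero_of_mulVec_eq_zero hM h1
  funext k
  have h3 := sub_eq_zero.1 (congrFun h2 k)
  exact_mod_cast h3

end data

end Pool.Agent.TH717.ST
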