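import Mathlib
import Pool.Agent.TH717.SK.Thr
import Pool.Agent.TH717.ST.LatM

/-!
The zeros of the sequences of a fixed recurrence, of any kind.
-/

set_option autoImplicit false

open Finset Polynomial Filter Topology

namespace Pool.Agent.TH717.ST

open NumberField
open Pool.Agent.H692R2.USS
open Pool.Agent.TH286.GT.GrowD (sg sg_coe sg_inj exists_field exists_exp)
open Pool.Agent.TH717.SK

/-- powers against exponentials -/
theorem pow_exp (C δ : ℝ) (hδ : 0 < δ) (d : ℕ) : ∃ N1 : ℕ, ∀ n : ℕ, N1 ≤ n →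
    C * ((n : ℝ) + 1) ^ d < Real.exp (δ * n) := by
  have h1 : Tendsto (fun x : ℝ => Real.exp (δ * x) / x ^ d) atTop atTop := by
    have := tendsto_exp_div_rpow_atTop
    have h2 := Real.tendsto_exp_div_pow_atTop d
    have h3 : Tendsto (fun x : ℝ => δ ^ d * (Real.exp (δ * x) / (δ * x) ^ d)) atTop atTop :=
      (h2.comp (tendsto_id.const_mul_atTop hδ)).const_mul_atTop (by positivity)
    refine h3.congr' ?_
    filter_upwards [eventually_gt_atTop 0] with x hx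
    rw [mul_pow]
    have : δ ^ d ≠ 0 := by positivity
    field_simp
  have h4 : ∀ᶠ n : ℕ in atTop, (|C| + 1) * 2 ^ d < Real.exp (δ * n) / (n : ℝ) ^ d :=
    (h1.comp tendsto_natCast_atTop_atTop).eventually_gt_atTop _
  obtain ⟨N1, hN1⟩ := Filter.eventually_atTop.1 (h4.and (eventually_ge_atTop 1))
  refine ⟨N1, fun n hn => ?_⟩
  obtain ⟨h5, h6⟩ := hN1 n hn
  have h7 : (1 : ℝ) ≤ n := by exact_mod_cast h6
  have h8 : (0 : ℝ) < (n : ℝ) ^ d := by positivity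
  rw [lt_div_iff₀ h8] at h5
  have h9 : ((n : ℝ) + 1) ^ d ≤ 2 ^ d * n ^ d := by
    rw [← mul_pow]
    apply pow_le_pow_left₀ (by positivity)
    linarith
  calc C * ((n : ℝ) + 1) ^ d ≤ (|C| + 1) * ((n : ℝ) + 1) ^ d := by
        apply mul_le_mul_of_nonneg_right _ (by positivity)
        have := le_abs_self C
        linarith
    _ ≤ (|C| + 1) * (2 ^ d * n ^ d) := by gcongr
    _ = (|C| + 1) * 2 ^ d * n ^ d := by ring
    _ < Real.exp (δ * n) := h5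

section data

variable {K : Type} [Field K] [NumberField K] [DecidableEq (𝓞 K)]

variable [IsGalois ℚ K]

theorem zeros_KM (ψ : K →+* ℂ) (cj : K ≃ₐ[ℚ] K)
    (hcj : ∀ x, ψ (cj x) = (starRingEnd ℂ) (ψ x)) (iK : 𝓞 K) (hi : ψ (iK : K) = Complex.I)
    {f : ℤ[X]} (hf : f.Monic) (hd : 1 ≤ f.natDegree)
    (hspl : (f.map (algebraMap ℤ (𝓞 K))).Splits) (q : Fin f.natDegree → (𝓞 K)[X])
    (rt : Fin f.natDegree → 𝓞 K)
    (hq : ∀ i, (q i).natDegree < f.natDegree) (hrt : ∀ i, rt i ≠ 0)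
    (mu : Fin f.natDegree → ℕ)
    (hdvd : ∀ i, f.map (algebraMap ℤ (𝓞 K)) ∣ (X - C (rt i)) ^ mu i * q i)
    (hmu : ∀ i, mu i ≤ f.natDegree)
    (hM : (Matrix.of fun i k : Fin f.natDegree => (q i).coeff k).det ≠ 0)
    (hG : ∀ σ : K ≃ₐ[ℚ] K, ∃ π : Fin f.natDegree → Fin f.natDegree,
      ∀ i, (q i).map (sg σ) = q (π i) ∧ sg σ (rt i) = rt (π i))
    (Nt : ℤ) (hNt : ((Nt : ℤ) : 𝓞 K) = ∏ i, rt i)
    (L : ℕ) (hL : 1 ≤ L)
    (hnd : ∀ i i', (∃ k : ℕ, 1 ≤ k ∧ (rt i ^ L) ^ k = (rt i' ^ L) ^ k) →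
      rt i ^ L = rt i' ^ L) :
    ∃ B : ℝ, 0 < B ∧ ∀ u : ℕ → ℤ, Ann f u → ∀ A : ℝ, 1 ≤ A →
      (∀ k < f.natDegree, |(u k : ℝ)| ≤ A) → ∀ n : ℕ, u n = 0 →
      (n : ℝ) ≤ B * A ∨ ∀ m, m ≡ n [MOD L] → u m = 0 := by
  classical
  have hinj : ∀ x : Fin f.natDegree → K,
      (∀ i, ∑ k : Fin f.natDegree, ((q i).coeff k : K) * x k = 0) → x = 0 := by
    intro x hx
    have hMK : ((Matrix.of fun i k : Fin f.natDegree => (q i).coeff k).map
        (algebraMap (𝓞 K) K)).det ≠ 0 := by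
      rw [← RingHom.mapMatrix_apply, ← RingHom.map_det]
      intro h
      rw [map_eq_zero_iff _ RingOfIntegers.coe_injective] at h
      exact hM h
    exact Matrix.eq_zero_of_mulVec_eq_zero hMK (funext fun i => hx i)
  obtain ⟨D, ε, hD, hε⟩ := exists_eps hd (fun i k => (q i).coeff k) hinj
  have hNt0 : Nt ≠ 0 := by
    intro h
    rw [h, Int.cast_zero] at hNt
    exact Finset.prod_ne_zero_iff.2 (fun i _ => hrt i) hNt.symm
  have hNtd : ∀ i, rt i ∣ ((Nt : ℤ) : 𝓞 K) := by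
    intro i
    rw [hNt]
    exact Finset.dvd_prod_of_mem _ (Finset.mem_univ i)
  have hGM : ∀ σ : K ≃ₐ[ℚ] K, ∃ π : Fin f.natDegree → Fin f.natDegree, ∀ i,
      (∀ k, sg σ ((Matrix.of fun i k : Fin f.natDegree => (q i).coeff k) i k) =
        (Matrix.of fun i k : Fin f.natDegree => (q i).coeff k) (π i) k) ∧
      sg σ (rt i) = rt (π i) := by
    intro σ
    obtain ⟨π, hπ⟩ := hG σ
    refine ⟨π, fun i => ⟨fun k => ?_, (hπ i).2⟩⟩
    simp only [Matrix.of_apply]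
    rw [← (hπ i).1, coeff_map]
  obtain ⟨Dn, hDn, hc, Bn, hB⟩ := latM _ hM rt hGM
  obtain ⟨Dp, hDp, hXB⟩ := stateM q rt hq hrt mu hdvd hmu hM hG Nt hNt0 hNtd Dn hDn hc Bn hB
  obtain ⟨Bg, hBg, hgen⟩ := general_caseM hf hd hspl q rt mu hq hrt Nt hNt0 hNtd hdvd hmu D hD ε hε
    L hL
  set φ : 𝓞 K →+* ℂ := ψ.comp (algebraMap (𝓞 K) K) with hφ
  have hφinj : Function.Injective φ := ψ.injective.comp RingOfIntegers.coe_injective
  have hφrt : ∀ i, φ (rt i) ≠ 0 := fun i h =>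
    hrt i (hφinj (by rw [h, map_zero]))
  set r : Fin f.natDegree → ℝ := fun i => ‖φ (rt i)‖ with hr
  have hr0 : ∀ i, 0 < r i := fun i => norm_pos_iff.2 (hφrt i)
  -- sizes
  choose Bi hBi0 hBi using fun i => bound φ (f.map (algebraMap ℤ (𝓞 K))) (hf.map _) (q i) (rt i)
    (hφrt i) (mu i) (hdvd i)
  set Rs : Finset ℝ := Finset.univ.image r with hRs
  have hRspos : ∀ ρ ∈ Rs, 0 < ρ := by
    intro ρ hρ
    obtain ⟨i, -, rfl⟩ := Finset.mem_image.1 hρ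
    exact hr0 i
  obtain ⟨δ, hδ, hgap⟩ := exists_gap Rs
  set C0 : ℝ := 1 + ∑ i, ‖φ (ε i)‖ * Bi i with hC0
  have hC01 : 1 ≤ C0 := by
    have : 0 ≤ ∑ i, ‖φ (ε i)‖ * Bi i :=
      Finset.sum_nonneg fun i _ => mul_nonneg (norm_nonneg _) (hBi0 i)
    rw [hC0]
    linarith
  obtain ⟨N1, hN1⟩ := pow_exp C0 δ hδ (f.natDegree + 1)
  -- the bounds for the parts
  have hpb : ∀ ρ ∈ Rs, ∃ B : ℝ, 0 < B ∧ ∀ u : ℕ → ℤ, Ann f u → ∀ A : ℝ, 1 ≤ A →
      (∀ k < f.natDegree, |(u k : ℝ)| ≤ A) → ∀ n : ℕ,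
      ‖ψ ((∑ i with ‖ψ (rt i : K)‖ = ρ, ε i * vv (q i) u n : 𝓞 K) : K)‖ ≤
        (Real.exp (-δ) * ρ) ^ n →
      (n : ℝ) ≤ B * (1 + Real.log A) ∨
        CS (fun i => rt i ^ L) (fun i => if ‖ψ (rt i : K)‖ = ρ then ε i else 0) q u n :=
    fun ρ hρ => part_boundM ψ cj hcj iK hi hf hd q rt hq hrt mu hdvd hmu hM
      hG Dn hDn Nt hNt Bn hB Dp hDp hXB ε L hL hnd ρ (hRspos ρ hρ) δ hδ
  choose! Bp hBp0 hBp using hpb
  set B : ℝ := 1 + N1 + Bg + ∑ ρ ∈ Rs, Bp ρ with hBdef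
  have hsum0 : 0 ≤ ∑ ρ ∈ Rs, Bp ρ := Finset.sum_nonneg fun ρ hρ => (hBp0 ρ hρ).le
  have hN10 : (0 : ℝ) ≤ N1 := Nat.cast_nonneg _
  have hBp' : ∀ ρ ∈ Rs, Bp ρ ≤ B := by
    intro ρ hρ
    have h1 := Finset.single_le_sum (f := Bp) (fun ρ hρ => (hBp0 ρ hρ).le) hρ
    rw [hBdef]
    linarith
  have hB1 : 1 ≤ B := by rw [hBdef]; linarith
  have hBN : (N1 : ℝ) ≤ B := by rw [hBdef]; linarith
  have hBB : Bg ≤ B := by rw [hBdef]; linarith
  refine ⟨B, by linarith, ?_⟩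
  intro u hu A hA hk n1 hn1
  by_contra hcon
  push Not at hcon
  obtain ⟨hbig, hnz⟩ := hcon
  have hA0 : 0 < A := by linarith
  have hlogA : 1 + Real.log A ≤ A := by
    have := Real.log_le_sub_one_of_pos hA0
    linarith
  have hn1A : A ≤ n1 := by
    have h1 : 1 * A ≤ B * A := mul_le_mul_of_nonneg_right hB1 hA0.le
    linarith
  have hn1N : N1 ≤ n1 := by
    have h1 : (N1 : ℝ) * 1 ≤ B * A := mul_le_mul hBN hA (by norm_num) (by linarith)
    have h2 : (N1 : ℝ) ≤ n1 := by linarith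
    exact_mod_cast h2
  have hexp := hN1 n1 hn1N
  -- the parts
  set lam : ℝ → ℕ → 𝓞 K := fun ρ n => ∑ i with ‖ψ (rt i : K)‖ = ρ, ε i * vv (q i) u n with hlam
  set CR : ℝ → Prop := fun ρ =>
    CS (fun i => rt i ^ L) (fun i => if ‖ψ (rt i : K)‖ = ρ then ε i else 0) q u n1 with hCR
  have hpart : ∀ ρ ∈ Rs, ¬ CR ρ → (Real.exp (-δ) * ρ) ^ n1 < ‖φ (lam ρ n1)‖ := by
    intro ρ hρ hcr
    by_contra h
    push Not at h
    rcases hBp ρ hρ u hu A hA hk n1 h with h1 | h1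
    · have h2 := hBp' ρ hρ
      have h3 : Bp ρ * (1 + Real.log A) ≤ B * A := by
        have h4 := Real.log_nonneg hA
        exact mul_le_mul h2 hlogA (by linarith) (by linarith)
      linarith
    · exact hcr h1
  -- decomposition
  have hdec : ((D * u n1 : ℤ) : ℂ) = ∑ ρ ∈ Rs, φ (lam ρ n1) := by
    have h1 := value q hq D ε hε hd u n1
    have h2 := congrArg φ h1
    rw [map_intCast] at h2
    rw [h2, ← Finset.sum_fiberwise_of_maps_to (g := r) (t := Rs)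
      (fun i _ => Finset.mem_image_of_mem _ (Finset.mem_univ i)), map_sum]
    rfl
  have hzero : ∀ ρ, CR ρ → lam ρ n1 = 0 := by
    intro ρ hcr
    have h1 := Pool.Agent.TH717.SK.class_sum (fun i => rt i ^ L)
      (fun i => (if ‖ψ (rt i : K)‖ = ρ then ε i else 0) * vv (q i) u n1) hcr (fun _ => 1)
    rw [hlam]
    simp only
    rw [Finset.sum_filter]
    refine Eq.trans ?_ h1
    refine Finset.sum_congr rfl fun i _ => ?_
    split_ifs <;> ring
  -- the size of the parts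
  have hlamsize : ∀ ρ, 0 < ρ → ‖φ (lam ρ n1)‖ ≤ (∑ i with r i = ρ, ‖φ (ε i)‖ * Bi i) * A *
      ((n1 : ℝ) + 1) ^ f.natDegree * ρ ^ n1 := by
    intro ρ hρ0
    rw [hlam]
    simp only
    rw [map_sum]
    refine (norm_sum_le _ _).trans ?_
    rw [Finset.sum_mul, Finset.sum_mul, Finset.sum_mul]
    refine Finset.sum_le_sum fun i hi' => ?_
    rw [map_mul, norm_mul]
    have h1 := hBi i _ (ann_cast hu) A hA0.le (by
      rw [hf.natDegree_map]
      intro k hk'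
      rw [map_intCast, Complex.norm_intCast]
      exact hk k hk') n1
    have h2 : ‖φ (rt i)‖ = ρ := (Finset.mem_filter.1 hi').2
    rw [h2] at h1
    have h3 : ((n1 : ℝ) + 1) ^ mu i ≤ ((n1 : ℝ) + 1) ^ f.natDegree := by
      apply pow_le_pow_right₀ _ (hmu i)
      linarith [Nat.cast_nonneg (α := ℝ) n1]
    have h4 := hBi0 i
    calc ‖φ (ε i)‖ * ‖φ (vv (q i) u n1)‖ ≤
        ‖φ (ε i)‖ * (Bi i * A * ((n1 : ℝ) + 1) ^ mu i * ρ ^ n1) := by
          gcongr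
          exact h1
      _ ≤ ‖φ (ε i)‖ * (Bi i * A * ((n1 : ℝ) + 1) ^ f.natDegree * ρ ^ n1) := by gcongr
      _ = _ := by ring
  -- all class sums of all moduli vanish
  have hF : ∀ ρ ∈ Rs, CR ρ := by
    by_contra hF
    push Not at hF
    set F : Finset ℝ := Rs.filter (fun ρ => ¬ CR ρ) with hFdef
    have hFne : F.Nonempty := by
      obtain ⟨ρ, h1, h2⟩ := hF
      exact ⟨ρ, Finset.mem_filter.2 ⟨h1, h2⟩⟩
    set ρ := F.max' hFne with hρdef
    have hρF : ρ ∈ F := F.max'_mem hFne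
    have hρRs : ρ ∈ Rs := (Finset.mem_filter.1 hρF).1
    have hρn : ¬ CR ρ := (Finset.mem_filter.1 hρF).2
    have hρ0 : 0 < ρ := hRspos ρ hρRs
    have hbig' : ∀ ρ' ∈ Rs, ρ < ρ' → CR ρ' := by
      intro ρ' h1 h2
      by_contra h3
      exact absurd (F.le_max' ρ' (Finset.mem_filter.2 ⟨h1, h3⟩)) (not_le.2 h2)
    set κ : ℝ := Real.exp (-(2 * δ)) * ρ with hκ
    have hκ0 : 0 < κ := by positivity
    have h1 : φ (lam ρ n1) = -∑ ρ' ∈ Rs.erase ρ, φ (lam ρ' n1) := by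
      have h2 := hdec
      rw [hn1, mul_zero, Int.cast_zero, ← Finset.add_sum_erase _ _ hρRs] at h2
      linear_combination -h2
    have h2 : ‖φ (lam ρ n1)‖ ≤ C0 * (A * ((n1 : ℝ) + 1) ^ f.natDegree * κ ^ n1) := by
      rw [h1, norm_neg]
      refine (norm_sum_le _ _).trans ?_
      have h3 : ∀ ρ' ∈ Rs.erase ρ, ‖φ (lam ρ' n1)‖ ≤
          (∑ i with r i = ρ', ‖φ (ε i)‖ * Bi i) *
            (A * ((n1 : ℝ) + 1) ^ f.natDegree * κ ^ n1) := by
        intro ρ' hρ'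
        rw [Finset.mem_erase] at hρ'
        have hs0 : 0 ≤ ∑ i with r i = ρ', ‖φ (ε i)‖ * Bi i :=
          Finset.sum_nonneg fun i _ => mul_nonneg (norm_nonneg _) (hBi0 i)
        rcases lt_or_gt_of_ne hρ'.1 with h2 | h2
        · have h3 := hgap ρ' hρ'.2 ρ hρRs h2
          have h4 : ρ' ≤ κ := by
            have h5 : ρ' = Real.exp (-(2 * δ)) * (ρ' * Real.exp (2 * δ)) := by
              rw [mul_left_comm, ← Real.exp_add]
              simp
            rw [h5, hκ]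
            gcongr
          have h6 := hRspos ρ' hρ'.2
          calc ‖φ (lam ρ' n1)‖ ≤ (∑ i with r i = ρ', ‖φ (ε i)‖ * Bi i) * A *
                ((n1 : ℝ) + 1) ^ f.natDegree * ρ' ^ n1 := hlamsize _ h6
            _ ≤ (∑ i with r i = ρ', ‖φ (ε i)‖ * Bi i) * A *
                ((n1 : ℝ) + 1) ^ f.natDegree * κ ^ n1 := by gcongr
            _ = _ := by ring
        · rw [hzero ρ' (hbig' ρ' hρ'.2 h2), map_zero, norm_zero]
          positivity
      refine (Finset.sum_le_sum h3).trans ?_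
      rw [← Finset.sum_mul]
      have h4 : ∑ ρ' ∈ Rs.erase ρ, ∑ i with r i = ρ', ‖φ (ε i)‖ * Bi i ≤ C0 := by
        calc ∑ ρ' ∈ Rs.erase ρ, ∑ i with r i = ρ', ‖φ (ε i)‖ * Bi i ≤
            ∑ ρ' ∈ Rs, ∑ i with r i = ρ', ‖φ (ε i)‖ * Bi i := by
              refine Finset.sum_le_sum_of_subset_of_nonneg (Finset.erase_subset _ _)
                fun ρ' _ _ => ?_
              exact Finset.sum_nonneg fun i _ => mul_nonneg (norm_nonneg _) (hBi0 i)
          _ = ∑ i, ‖φ (ε i)‖ * Bi i :=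
              Finset.sum_fiberwise_of_maps_to
                (fun i _ => Finset.mem_image_of_mem _ (Finset.mem_univ i)) _
          _ ≤ C0 := by rw [hC0]; linarith
      gcongr
    have h3 := hpart ρ hρRs hρn
    have h4 : κ ^ n1 = Real.exp (-(δ * n1)) * (Real.exp (-δ) * ρ) ^ n1 := by
      rw [hκ, mul_pow, mul_pow, ← Real.exp_nat_mul, ← Real.exp_nat_mul, ← mul_assoc,
        ← Real.exp_add]
      congr 2
      ring
    have h5 : C0 * (A * ((n1 : ℝ) + 1) ^ f.natDegree) ≤ Real.exp (δ * n1) := by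
      refine le_trans ?_ hexp.le
      rw [pow_succ]
      have h6 : A ≤ (n1 : ℝ) + 1 := by linarith
      calc C0 * (A * ((n1 : ℝ) + 1) ^ f.natDegree) ≤
          C0 * (((n1 : ℝ) + 1) * ((n1 : ℝ) + 1) ^ f.natDegree) := by gcongr
        _ = _ := by ring
    have h6 : 0 < (Real.exp (-δ) * ρ) ^ n1 := by positivity
    have h7 : C0 * (A * ((n1 : ℝ) + 1) ^ f.natDegree * κ ^ n1) ≤
        (Real.exp (-δ) * ρ) ^ n1 := by
      rw [h4]
      calc C0 * (A * ((n1 : ℝ) + 1) ^ f.natDegree *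
          (Real.exp (-(δ * n1)) * (Real.exp (-δ) * ρ) ^ n1)) =
          (C0 * (A * ((n1 : ℝ) + 1) ^ f.natDegree)) * Real.exp (-(δ * n1)) *
            (Real.exp (-δ) * ρ) ^ n1 := by ring
        _ ≤ Real.exp (δ * n1) * Real.exp (-(δ * n1)) * (Real.exp (-δ) * ρ) ^ n1 := by gcongr
        _ = (Real.exp (-δ) * ρ) ^ n1 := by
            rw [← Real.exp_add]
            simp
    linarith
  -- all class sums
  have hCS : CS (fun i => rt i ^ L) ε q u n1 := by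
    intro a
    have h1 : ∑ ρ ∈ Rs, ∑ i with rt i ^ L = a,
        (if ‖ψ (rt i : K)‖ = ρ then ε i else 0) * vv (q i) u n1 = 0 :=
      Finset.sum_eq_zero fun ρ hρ => hF ρ hρ a
    rw [Finset.sum_comm] at h1
    rw [← h1]
    refine Finset.sum_congr rfl fun i _ => ?_
    rw [← Finset.sum_mul, Finset.sum_ite_eq]
    have h2 : ‖ψ (rt i : K)‖ ∈ Rs := Finset.mem_image_of_mem r (Finset.mem_univ i)
    rw [if_pos h2]
  rcases hgen u hu A hA hk n1 hCS with h1 | h1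
  · have h2 : Bg * A ≤ B * A := mul_le_mul_of_nonneg_right hBB hA0.le
    linarith
  · obtain ⟨m, hm1, hm2⟩ := hnz
    exact hm2 (h1 m hm1)

end data

/-- the zeros of the sequences of a fixed recurrence -/
theorem zerosM (f : ℤ[X]) (hf : f.Monic) (hd : 1 ≤ f.natDegree) (h0 : f.coeff 0 ≠ 0) :
    ∃ L : ℕ, 1 ≤ L ∧ ∃ B : ℝ, 0 < B ∧ ∀ u : ℕ → ℤ, Ann f u → ∀ A : ℝ, 1 ≤ A →
      (∀ k < f.natDegree, |(u k : ℝ)| ≤ A) → ∀ n : ℕ, u n = 0 →
      (n : ℝ) ≤ B * A ∨ ∀ m, m ≡ n [MOD L] → u m = 0 := by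
  classical
  obtain ⟨K, hfd, hnorm, hsplK, hI⟩ := exists_splitting f hf
  have : NumberField K := { to_charZero := inferInstance, to_finiteDimensional := hfd }
  have : IsGalois ℚ K := { to_isSeparable := inferInstance, to_normal := hnorm }
  set ψ : K →+* ℂ := algebraMap K ℂ with hψ
  set cj : K ≃ₐ[ℚ] K := AlgEquiv.restrictNormal (Complex.conjAe.restrictScalars ℚ) K with hcj
  have hcj' : ∀ x, ψ (cj x) = (starRingEnd ℂ) (ψ x) := fun x =>
    AlgEquiv.restrictNormal_commutes (Complex.conjAe.restrictScalars ℚ) K x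
  have hiint : IsIntegral ℤ (⟨Complex.I, hI⟩ : K) := by
    refine IsIntegral.of_pow (n := 2) (by norm_num) ?_
    have h1 : (⟨Complex.I, hI⟩ : K) ^ 2 = -1 := by
      apply Subtype.ext
      show Complex.I ^ 2 = -1
      exact Complex.I_sq
    rw [h1]
    exact isIntegral_one.neg
  have hspl := Pool.Agent.H692R2.USS.SplitFieldAux.splits_OK K f hf hsplK
  obtain ⟨q, rt, mu, hq, hrt, hdvd, hmu, hM, hG, Nt, hNt⟩ := famM f hf hspl h0
  obtain ⟨L, hL, hLe⟩ := exists_exp (Finset.univ.image rt)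
  have hnd : ∀ i i', (∃ k : ℕ, 1 ≤ k ∧ (rt i ^ L) ^ k = (rt i' ^ L) ^ k) →
      rt i ^ L = rt i' ^ L := by
    rintro i i' ⟨k, hk, h⟩
    apply hLe _ (Finset.mem_image_of_mem _ (Finset.mem_univ i)) _
      (Finset.mem_image_of_mem _ (Finset.mem_univ i'))
    exact ⟨L * k, Nat.mul_pos hL hk, by rw [pow_mul, pow_mul]; exact h⟩
  exact ⟨L, hL, zeros_KM ψ cj hcj' ⟨⟨Complex.I, hI⟩, hiint⟩ rfl hf hd hspl q rt hq hrt mu hdvd hmu
    hM hG Nt hNt L hL hnd⟩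

end Pool.Agent.TH717.ST
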