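import Mathlib
import Pool.Agent.TH717.ST.ThrS
import Pool.Agent.TH717.SK.Pos0

/-!
The threshold theorem for instances of the Positivity problem with fixed rational coefficients.
-/

set_option autoImplicit false

open Finset Polynomial

namespace Pool.Agent.TH717.ST

open Pool.Agent.H884R2.Sko
open Pool.Agent.TH717.SK (charPoly_monic charPoly_natDegree ann_of_isSeq)
open Pool.Agent.TH717.SK.P0
open Pool.Agent.H692R2.USS (Ann ann_iff E)

theorem sqf_comp (p : ℚ[X]) (a : ℚ) (ha : a ≠ 0) (hp : Squarefree p) :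
    Squarefree (p.comp (C a * X)) := by
  intro x hx
  letI := invertibleOfNonzero ha
  have h1 := (dvd_comp_C_mul_X_add_C_iff (x * x) p a 0).1 (by simpa using hx)
  rw [mul_comp] at h1
  have h2 := hp _ h1
  have h3 := h2.map (compRingHom (C a * X + C 0))
  have h4 : compRingHom (C a * X + C 0) (x.comp (C ⅟a * (X - C 0))) = x := by
    rw [coe_compRingHom_apply, comp_assoc]
    have h5 : (C ⅟a * (X - C 0) : ℚ[X]).comp (C a * X + C 0) = X := by
      simp only [map_zero, sub_zero, add_zero, mul_comp, C_comp, X_comp]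
      rw [← mul_assoc, ← C_mul, invOf_mul_self, C_1, one_mul]
    rw [h5, comp_X]
  rwa [h4] at h3

theorem threshold0 (f : ℤ[X]) (hf : f.Monic) (hd : 1 ≤ f.natDegree)
    (hs : Squarefree (f.map (Int.castRingHom ℚ))) :
    ∃ B : ℝ, 0 < B ∧ ∀ u : ℕ → ℤ, Ann f u → ∀ A : ℝ, 1 ≤ A →
      (∀ k < f.natDegree, |(u k : ℝ)| ≤ A) → (∃ N : ℕ, ∀ n, N ≤ n → 0 < u n) →
      ∀ n : ℕ, u n ≤ 0 → (n : ℝ) ≤ B * (1 + Real.log A) := by
  by_cases h0 : f.coeff 0 ≠ 0
  · exact thresholdS f hf hd h0 hs
  push Not at h0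
  obtain ⟨g, hg⟩ : ∃ g, g = divX f := ⟨_, rfl⟩
  have hfg : g * X = f := by
    have := divX_mul_X_add f
    rwa [h0, C_0, add_zero, ← hg] at this
  have hgm : g.Monic := by
    have h1 : (X * g).Monic := by rw [mul_comm, hfg]; exact hf
    exact Monic.of_mul_monic_left monic_X h1
  have hdeg : f.natDegree = g.natDegree + 1 := by
    rw [← hfg, natDegree_mul_X hgm.ne_zero]
  have hshift : ∀ u : ℕ → ℤ, Ann f u → Ann g (fun n => u (n + 1)) := by
    intro u hu
    unfold Ann at hu ⊢
    rw [← hfg, map_mul, aeval_X] at hu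
    exact hu
  by_cases hg0 : g.natDegree = 0
  · have hg1 : g = 1 := hgm.natDegree_eq_zero.1 hg0
    refine ⟨1, one_pos, fun u hu A hA hb hup n hn => ?_⟩
    exfalso
    have h1 := hshift u hu
    rw [hg1] at h1
    unfold Ann at h1
    rw [map_one] at h1
    obtain ⟨N, hN⟩ := hup
    have h2 := congrFun h1 N
    have h3 := hN (N + 1) (by omega)
    simp only [Module.End.one_apply, Pi.zero_apply] at h2
    omega
  · have hg00 : g.coeff 0 ≠ 0 := by
      intro h
      have h1 : (X : ℤ[X]) ∣ g := X_dvd_iff.2 h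
      obtain ⟨q, hq⟩ := h1
      have h2 : (X * X : ℚ[X]) ∣ f.map (Int.castRingHom ℚ) := by
        rw [← hfg, hq]
        refine ⟨q.map (Int.castRingHom ℚ), ?_⟩
        simp only [Polynomial.map_mul, Polynomial.map_X]
        ring
      exact not_isUnit_X (hs _ h2)
    have hgs : Squarefree (g.map (Int.castRingHom ℚ)) :=
      hs.squarefree_of_dvd (by rw [← hfg, Polynomial.map_mul]; exact dvd_mul_right _ _)
    obtain ⟨B, hB, h⟩ := thresholdS g hgm (by omega) hg00 hgs
    refine ⟨B + 1, by positivity, fun u hu A hA hb hup n hn => ?_⟩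
    have hlog : 0 ≤ Real.log A := Real.log_nonneg hA
    rcases n with _ | n
    · simp only [Nat.cast_zero]
      positivity
    · have h1 := h (fun n => u (n + 1)) (hshift u hu) A hA
        (fun k hk => hb (k + 1) (by omega)) ?_ n hn
      · push_cast
        nlinarith
      · obtain ⟨N, hN⟩ := hup
        exact ⟨N, fun m hm => hN (m + 1) (by omega)⟩

/-- the product of the denominators of the coefficients -/
def lam (c : List ℚ) : ℕ := (c.map Rat.den).prod

theorem lam_pos (c : List ℚ) : 0 < lam c := by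
  unfold lam
  induction c with
  | nil => simp
  | cons p l ih =>
    simp only [List.map_cons, List.prod_cons]
    exact Nat.mul_pos p.den_pos ih

theorem den_dvd_lam (c : List ℚ) (k : ℕ) : (c.getD k 0).den ∣ lam c := by
  unfold lam
  induction c generalizing k with
  | nil => simp
  | cons p l ih =>
    simp only [List.map_cons, List.prod_cons]
    cases k with
    | zero => simp
    | succ k => simpa using (ih k).mul_left p.den

theorem exists_cI (c : List ℚ) : ∃ cI : ℕ → ℤ, ∀ i,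
    (cI i : ℚ) = (lam c : ℚ) ^ (i + 1) * c.getD i 0 := by
  have h : ∀ i, ∃ z : ℤ, (z : ℚ) = (lam c : ℚ) ^ (i + 1) * c.getD i 0 := by
    intro i
    obtain ⟨m, hm⟩ := den_dvd_lam c i
    refine ⟨(lam c : ℤ) ^ i * (m * (c.getD i 0).num), ?_⟩
    have h1 := Rat.mul_den_eq_num (c.getD i 0)
    have h2 : (lam c : ℚ) = (c.getD i 0).den * m := by exact_mod_cast hm
    push_cast
    rw [pow_succ, ← h1]
    conv_rhs => rw [h2]
    conv_lhs => rw [h2]
    ring
  choose cI hcI using h
  exact ⟨cI, hcI⟩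

theorem coef_eqQ {c : List ℚ} {l : Rec} (h : l.map Prod.fst = c) (i : ℕ) :
    Pool.Agent.H612.LR.coef l i = c.getD i 0 := by
  unfold Pool.Agent.H612.LR.coef
  rw [← h, List.getD_eq_getElem?_getD, List.getD_eq_getElem?_getD, List.getElem?_map]
  rcases hl : l[i]? with _ | x <;> simp

theorem len_eqQ {c : List ℚ} {l : Rec} (h : l.map Prod.fst = c) : l.length = c.length := by
  rw [← h, List.length_map]

theorem chi_eqQ {c : List ℚ} {l : Rec} (h : l.map Prod.fst = c) (cI : ℕ → ℤ)
    (hcI : ∀ i, (cI i : ℚ) = (lam c : ℚ) ^ (i + 1) * c.getD i 0) :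
    C ((lam c : ℚ) ^ c.length) * (Pool.Agent.H612.LR.chi l).comp (C ((lam c : ℚ)⁻¹) * X) =
      (charPoly (fun i : Fin c.length => cI i)).map (Int.castRingHom ℚ) := by
  have hL : (lam c : ℚ) ≠ 0 := by exact_mod_cast (lam_pos c).ne'
  unfold Pool.Agent.H612.LR.chi charPoly
  rw [len_eqQ h, Polynomial.map_sub, Polynomial.map_pow, Polynomial.map_X, Polynomial.map_sum,
    Finset.sum_range, sub_comp, mul_sub, pow_comp, X_comp, mul_pow, ← C_pow, ← mul_assoc, ← C_mul,
    ← mul_pow, mul_inv_cancel₀ hL, one_pow, C_1, one_mul]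
  congr 1
  rw [Polynomial.sum_comp, Finset.mul_sum]
  refine Finset.sum_congr rfl fun i _ => ?_
  have hi := i.2
  rw [coef_eqQ h, Polynomial.map_mul, Polynomial.map_pow, Polynomial.map_X, Polynomial.map_C,
    mul_comp, C_comp, pow_comp, X_comp, mul_pow, ← C_pow]
  rw [show (C ((lam c : ℚ) ^ c.length) * (C (c.getD i 0) *
      (C ((lam c : ℚ)⁻¹ ^ (c.length - 1 - i)) * X ^ (c.length - 1 - (i : ℕ))))) =
    C ((lam c : ℚ) ^ c.length * (c.getD i 0 * (lam c : ℚ)⁻¹ ^ (c.length - 1 - i))) *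
      X ^ (c.length - 1 - (i : ℕ)) by simp only [C_mul]; ring]
  congr 2
  simp only [eq_intCast]
  rw [hcI]
  have h3 : (lam c : ℚ) ^ c.length = (lam c : ℚ) ^ ((i : ℕ) + 1) *
      (lam c : ℚ) ^ (c.length - 1 - i) := by
    rw [← pow_add]
    congr 1
    omega
  rw [h3, inv_pow]
  have h4 : (lam c : ℚ) ^ (c.length - 1 - i) ≠ 0 := pow_ne_zero _ hL
  field_simp

theorem sqfQ {c : List ℚ} {l : Rec} (h : l.map Prod.fst = c) (cI : ℕ → ℤ)
    (hcI : ∀ i, (cI i : ℚ) = (lam c : ℚ) ^ (i + 1) * c.getD i 0)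
    (hs : Pool.Agent.H612.LR.Simple l) :
    Squarefree ((charPoly (fun i : Fin c.length => cI i)).map (Int.castRingHom ℚ)) := by
  have hL : (lam c : ℚ) ≠ 0 := by exact_mod_cast (lam_pos c).ne'
  have h1 : Squarefree (Pool.Agent.H612.LR.chi l) := by
    by_cases h0 : Pool.Agent.H612.LR.chi l = 0
    · exfalso
      have h2 := chi_eqQ h cI hcI
      rw [h0, zero_comp, mul_zero] at h2
      exact ((charPoly_monic (fun i : Fin c.length => cI i)).map (Int.castRingHom ℚ)).ne_zero
        h2.symm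
    · unfold Pool.Agent.H612.LR.Simple Pool.Agent.H612.LR.croots at hs
      have h1 := (Polynomial.nodup_roots_iff_of_splits
        (by rw [Polynomial.map_ne_zero_iff (algebraMap ℚ ℂ).injective]; exact h0)
        (IsAlgClosed.splits _)).1 hs
      rw [Polynomial.separable_map] at h1
      exact h1.squarefree
  have h2 := sqf_comp _ _ (inv_ne_zero hL) h1
  refine h2.squarefree_of_dvd ?_
  rw [← chi_eqQ h cI hcI]
  have h3 : IsUnit (C ((lam c : ℚ) ^ c.length)) :=
    isUnit_C.2 (isUnit_iff_ne_zero.2 (pow_ne_zero _ hL))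
  exact (h3.dvd_mul_left.1 (dvd_refl _))

/-- the integer sequence -/
theorem exists_intQ {c : List ℚ} {l : Rec} (h : l.map Prod.fst = c) (cI : ℕ → ℤ)
    (hcI : ∀ i, (cI i : ℚ) = (lam c : ℚ) ^ (i + 1) * c.getD i 0) :
    ∃ u : ℕ → ℤ, Ann (charPoly (fun i : Fin c.length => cI i)) u ∧
      ∀ n, (u n : ℚ) = (lam c : ℚ) ^ n * (dn l * Pool.Agent.H612.LR.seq l n) := by
  have hlen := len_eqQ h
  have hint : ∀ k, ∃ z : ℤ, (z : ℚ) = (lam c : ℚ) ^ k * (dn l * Pool.Agent.H612.LR.ini l k) := by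
    intro k
    obtain ⟨m, hm⟩ := den_dvd_dn l k
    refine ⟨(lam c : ℤ) ^ k * (m * (Pool.Agent.H612.LR.ini l k).num), ?_⟩
    rw [hm]
    push_cast
    have h1 := Rat.mul_den_eq_num (Pool.Agent.H612.LR.ini l k)
    rw [← h1]
    ring
  choose a ha using hint
  obtain ⟨u, hu⟩ := exists_isSeq (fun i : Fin c.length => cI i)
    (fun i : Fin c.length => a i)
  refine ⟨u, ann_of_isSeq hu, fun n => ?_⟩
  induction n using Nat.strong_induction_on with
  | _ n ih =>
    by_cases hn : n < l.length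
    · have h1 := hu.1 ⟨n, by omega⟩
      simp only at h1
      rw [seq_ini l n hn, h1, ha]
    · obtain ⟨m, rfl⟩ : ∃ m, n = m + c.length := ⟨n - c.length, by omega⟩
      rw [seq_rec l _ hn, hu.2 m, hlen, Finset.mul_sum, Finset.mul_sum, Finset.sum_range]
      push_cast
      refine Finset.sum_congr rfl fun i _ => ?_
      have hi := i.2
      rw [coef_eqQ h, ih (m + c.length - 1 - i) (by omega), hcI]
      have h3 : (lam c : ℚ) ^ (m + c.length) = (lam c : ℚ) ^ ((i : ℕ) + 1) *
          (lam c : ℚ) ^ (m + c.length - 1 - i) := by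
        rw [← pow_add]
        congr 1
        omega
      rw [h3]
      ring

/-- the threshold for fixed coefficients -/
theorem thr_rat (c : List ℚ) :
    ∃ B : ℕ, ∀ l : Rec, l.map Prod.fst = c →
      Pool.Agent.H612.LR.Simple l → Pool.Agent.H612.LR.UltPositive l →
      ∀ n, Pool.Agent.H612.LR.seq l n ≤ 0 → n ≤ B * Pool.Agent.H612.LR.sz l := by
  obtain ⟨cI, hcI⟩ := exists_cI c
  by_cases hs : Squarefree
    ((charPoly (fun i : Fin c.length => cI i)).map (Int.castRingHom ℚ))
  swap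
  · exact ⟨0, fun l h1 h2 => absurd (sqfQ h1 cI hcI h2) hs⟩
  by_cases hd : 1 ≤ c.length
  swap
  · refine ⟨0, fun l h1 h2 h3 n hn => ?_⟩
    exfalso
    have h4 : l.length = 0 := by rw [len_eqQ h1]; omega
    have h5 : l = [] := List.length_eq_zero_iff.1 h4
    subst h5
    obtain ⟨N, hN⟩ := h3
    have h6 := hN N le_rfl
    rw [seq_rec _ _ (by simp)] at h6
    simp at h6
  have hL : (0 : ℚ) < lam c := by exact_mod_cast lam_pos c
  have hL1 : (1 : ℝ) ≤ lam c := by exact_mod_cast lam_pos c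
  have hL1q : (1 : ℚ) ≤ lam c := by exact_mod_cast lam_pos c
  obtain ⟨B, hB, hthr⟩ := threshold0 (charPoly (fun i : Fin c.length => cI i))
    (charPoly_monic _) (by rw [charPoly_natDegree]; exact hd) hs
  obtain ⟨B', hB'⟩ := exists_nat_ge (B * (2 + c.length * Real.log (lam c)))
  refine ⟨B', fun l h1 h2 h3 n hn => ?_⟩
  obtain ⟨u, hu, hval⟩ := exists_intQ h1 cI hcI
  have hsz : 1 ≤ Pool.Agent.H612.LR.sz l := by
    have := len_le_sz l
    rw [len_eqQ h1] at this
    omega
  have hdn : (0 : ℚ) < dn l := by exact_mod_cast dn_pos l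
  have hA1 : (1 : ℝ) ≤ 2 ^ Pool.Agent.H612.LR.sz l := one_le_pow₀ (by norm_num)
  have hA2 : (1 : ℝ) ≤ (lam c : ℝ) ^ c.length := one_le_pow₀ hL1
  have hA : (1 : ℝ) ≤ (lam c : ℝ) ^ c.length * 2 ^ Pool.Agent.H612.LR.sz l :=
    one_le_mul_of_one_le_of_one_le hA2 hA1
  have hbd : ∀ k < (charPoly (fun i : Fin c.length => cI i)).natDegree,
      |(u k : ℝ)| ≤ (lam c : ℝ) ^ c.length * 2 ^ Pool.Agent.H612.LR.sz l := by
    rw [charPoly_natDegree]
    intro k hk
    have h4 : (|u k| : ℤ) ≤ ((lam c ^ c.length * 2 ^ Pool.Agent.H612.LR.sz l : ℕ) : ℤ) := by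
      have h5 : ((|u k| : ℤ) : ℚ) ≤ ((lam c ^ c.length *
          (dn l * (Pool.Agent.H612.LR.ini l k).num.natAbs) : ℕ) : ℚ) := by
        push_cast
        rw [hval k, seq_ini l k (by rw [len_eqQ h1]; exact hk), abs_mul, abs_mul, abs_of_pos hdn,
          Nat.cast_natAbs, Int.cast_abs, abs_of_pos (pow_pos hL k)]
        refine mul_le_mul (pow_le_pow_right₀ hL1q hk.le) ?_ (by positivity) (by positivity)
        refine mul_le_mul_of_nonneg_left ?_ hdn.le
        have h6 := Rat.mul_den_eq_num (Pool.Agent.H612.LR.ini l k)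
        have h7 : |((Pool.Agent.H612.LR.ini l k).num : ℚ)| =
            |Pool.Agent.H612.LR.ini l k| * (Pool.Agent.H612.LR.ini l k).den := by
          rw [← h6, abs_mul, Nat.abs_cast]
        rw [h7]
        have h8 : (1 : ℚ) ≤ (Pool.Agent.H612.LR.ini l k).den := by
          exact_mod_cast (Pool.Agent.H612.LR.ini l k).den_pos
        nlinarith [abs_nonneg (Pool.Agent.H612.LR.ini l k)]
      have h6 : |u k| ≤ ((lam c ^ c.length *
          (dn l * (Pool.Agent.H612.LR.ini l k).num.natAbs) : ℕ) : ℤ) := by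
        rw [← Int.cast_natCast] at h5
        exact Int.cast_le.1 h5
      refine h6.trans ?_
      exact_mod_cast Nat.mul_le_mul_left _
        ((Nat.mul_le_mul_left _ (num_le l k)).trans (prod_le l))
    have h5 : ((|u k| : ℤ) : ℝ) ≤
        (((lam c ^ c.length * 2 ^ Pool.Agent.H612.LR.sz l : ℕ) : ℤ) : ℝ) := by
      exact_mod_cast h4
    push_cast at h5
    exact h5
  have hup : ∃ N : ℕ, ∀ n, N ≤ n → 0 < u n := by
    obtain ⟨N, hN⟩ := h3
    refine ⟨N, fun n hn => ?_⟩
    have h4 : (0 : ℚ) < u n := by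
      rw [hval]
      exact mul_pos (pow_pos hL n) (mul_pos hdn (hN n hn))
    exact_mod_cast h4
  have hle : u n ≤ 0 := by
    have h4 : (u n : ℚ) ≤ 0 := by
      rw [hval]
      exact mul_nonpos_of_nonneg_of_nonpos (pow_pos hL n).le
        (mul_nonpos_of_nonneg_of_nonpos hdn.le hn)
    exact_mod_cast h4
  have h4 := hthr u hu _ hA hbd hup n hle
  rw [Real.log_mul (by positivity) (by positivity), Real.log_pow, Real.log_pow] at h4
  have h5 : Real.log 2 ≤ 1 := by
    have := Real.log_two_lt_d9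
    linarith
  have hlL : 0 ≤ Real.log (lam c) := Real.log_nonneg hL1
  have h6 : (1 : ℝ) ≤ Pool.Agent.H612.LR.sz l := by exact_mod_cast hsz
  have h9 : (0 : ℝ) ≤ c.length * Real.log (lam c) := by positivity
  have h7 : (n : ℝ) ≤ B' * Pool.Agent.H612.LR.sz l := by
    calc (n : ℝ) ≤ B * (1 + (c.length * Real.log (lam c) +
          Pool.Agent.H612.LR.sz l * Real.log 2)) := h4
      _ ≤ B * (Pool.Agent.H612.LR.sz l + (c.length * Real.log (lam c) *
          Pool.Agent.H612.LR.sz l + Pool.Agent.H612.LR.sz l * 1)) := by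
          refine mul_le_mul_of_nonneg_left ?_ hB.le
          refine add_le_add h6 (add_le_add (le_mul_of_one_le_right h9 h6) ?_)
          exact mul_le_mul_of_nonneg_left h5 (by positivity)
      _ = (B * (2 + c.length * Real.log (lam c))) * Pool.Agent.H612.LR.sz l := by ring
      _ ≤ B' * Pool.Agent.H612.LR.sz l := by gcongr
  exact_mod_cast h7

end Pool.Agent.TH717.ST
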